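import Pool.Agent.Lib_helper42.AP.Swap

/-! The global a priori estimate. -/

namespace AP

open Set Filter Topology Metric

variable {w φ u : ℝ × ℝ → ℝ} {Ω : Set (ℝ × ℝ)} {c₀ K N : ℝ}

/-- bound for the mixed derivative on the boundary, given bounds for the pure ones -/
theorem bound12 (hD : Dom w Ω c₀) (K C : ℝ) :
    ∃ C' : ℝ, ∀ φ u : ℝ × ℝ → ℝ, Sol φ u Ω → (∀ x, BdAt φ x K) →
      (∀ x ∈ closure Ω, D1 (D1 u) x ≤ C ∧ D2 (D2 u) x ≤ C) →
      ∀ x ∈ frontier Ω, |D1 (D2 u) x| ≤ C' := by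
  by_cases hK0 : 0 ≤ K
  swap
  · refine ⟨0, fun φ u _ hφ _ x _ => ?_⟩
    exact absurd (le_trans (abs_nonneg _) (hφ x).b0) hK0
  by_cases hC0 : 0 < C
  swap
  · refine ⟨0, fun φ u hS hφ h x hx => ?_⟩
    obtain ⟨ha, -⟩ := hS.closure_eqs hD (frontier_subset_closure hx)
    exact absurd (lt_of_lt_of_le ha (h x (frontier_subset_closure hx)).1) hC0
  obtain ⟨W, μ₁, hW1, hWc, hμ₁, hWb, hμ⟩ := hD.consts
  have hc₀ := hD.cpos
  have hW0 : 0 < W := by linarith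
  set N : ℝ := (K + 2) / c₀ with hN
  have hN0 : 0 ≤ N := by positivity
  have hNc : K + 2 ≤ N * c₀ := by rw [hN]; field_simp; exact le_refl _
  set K' : ℝ := K + N * W with hK'
  have hK'0 : 0 ≤ K' := by positivity
  set Z : ℝ := K' + K with hZ
  have hZ0 : 0 ≤ Z := by positivity
  have g1 : Continuous (D1 w) := (cd_D1 (n := 2) hD.smooth).continuous
  have g2 : Continuous (D2 w) := (cd_D2 (n := 2) hD.smooth).continuous
  obtain ⟨s1, hs1, -, hs1'⟩ := hD.unif g1 (half_pos hμ₁)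
  obtain ⟨s2, hs2, -, hs2'⟩ := hD.unif g2 (half_pos hμ₁)
  set rb : ℝ := min s1 s2 with hrb
  have hrb0 : 0 < rb := by positivity
  set σ : ℝ := μ₁ ^ 2 / (8 * C ^ 2) with hσ
  have hσ0 : 0 < σ := by positivity
  set B : ℝ := ((2 * W * Z) ^ 2 + 2 * W * Z) / rb ^ 2 with hB
  have hB0 : 0 ≤ B := by positivity
  have hB' : (2 * W * Z) ^ 2 + 2 * W * Z ≤ B * rb ^ 2 := by
    rw [hB]; field_simp; exact le_refl _
  set A : ℝ := (2 * B + 2 * (2 * W * (Z + K)) ^ 2 + (4 * W * Z + 1) * (2 * Z * W + 6 * W * K)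
      + ((4 * W * Z + 1) * (2 * W) + 4 * W ^ 2) ^ 2 / (4 * σ)) / c₀ with hA
  have hA0 : 0 ≤ A := by positivity
  have hA' : 2 * B + 2 * (2 * W * (Z + K)) ^ 2 + (4 * W * Z + 1) * (2 * Z * W + 6 * W * K)
      + ((4 * W * Z + 1) * (2 * W) + 4 * W ^ 2) ^ 2 / (4 * σ) ≤ A * c₀ := by
    rw [hA, div_mul_cancel₀ _ hc₀.ne']
  set Q : ℝ := A * W + 2 * W * (Z + K) with hQ
  have hQ0 : 0 ≤ Q := by positivity
  refine ⟨(Q + W * C) / μ₁, fun φ u hS hφ hbd P hP => ?_⟩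
  have hPc : P ∈ closure Ω := frontier_subset_closure hP
  have hWP : ∀ x, dist x P ≤ 1 → BdAt w x W := fun x hx => hWb x P hPc hx
  have hWPP : BdAt w P W := hWP P (by simp)
  have hWcl : ∀ x ∈ closure Ω, BdAt w x W := fun x hx => hWb x x hx (by simp)
  have hgrad := grad_bound hD hS hN0 hNc hφ hWcl
  have hz : ∀ x ∈ closure Ω, |D1 u x - D1 φ x| ≤ Z ∧ |D2 u x - D2 φ x| ≤ Z := by
    intro x hx
    exact ⟨abs_sub_le' (hgrad x hx).1 (hφ x).b1, abs_sub_le' (hgrad x hx).2 (hφ x).b2⟩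
  obtain ⟨ha, hb, hab, -, -⟩ := hS.closure_eqs hD hPc
  have hell : ∀ x ∈ Ω, dist x P < rb → σ * (D2 (D2 u) x + D1 (D1 u) x) ≤
      D2 (D2 u) x * (D1 w x) ^ 2 + D1 (D1 u) x * (D2 w x) ^ 2 := by
    intro x hx hxr
    have t1 := hs1' x P hPc (hxr.le.trans (min_le_left _ _))
    have t2 := hs2' x P hPc (hxr.le.trans (min_le_right _ _))
    have hxa := hS.p1 x hx
    have hxb := hS.p2 x hx
    have hxab := hS.eq x hx
    obtain ⟨ca, cb⟩ := hbd x (subset_closure hx)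
    have la : 1 ≤ C * D1 (D1 u) x := by nlinarith
    have lb : 1 ≤ C * D2 (D2 u) x := by nlinarith
    have e3 : σ * (D2 (D2 u) x + D1 (D1 u) x) ≤ μ₁ ^ 2 / (4 * C) := by
      have : σ * (D2 (D2 u) x + D1 (D1 u) x) ≤ σ * (2 * C) :=
        mul_le_mul_of_nonneg_left (by linarith) hσ0.le
      have e4 : σ * (2 * C) = μ₁ ^ 2 / (4 * C) := by rw [hσ]; field_simp; ring
      linarith
    have key : ∀ {p q a b : ℝ}, μ₁ / 2 ≤ |p| → 0 < a → 0 < b → 1 ≤ C * b →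
        μ₁ ^ 2 / (4 * C) ≤ b * p ^ 2 + a * q ^ 2 := by
      intro p q a b hp ha' hb' hCb
      have h1 : (μ₁ / 2) ^ 2 ≤ p ^ 2 := by
        rw [← sq_abs p]; exact pow_le_pow_left₀ (half_pos hμ₁).le hp 2
      have h2 : 0 ≤ a * q ^ 2 := by positivity
      have h3 : μ₁ ^ 2 / (4 * C) ≤ b * p ^ 2 := by
        rw [div_le_iff₀ (by positivity)]
        have h4 : (C * b) * (μ₁ / 2) ^ 2 ≤ (C * b) * p ^ 2 :=
          mul_le_mul_of_nonneg_left h1 (by linarith)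
        nlinarith [sq_nonneg μ₁]
      linarith
    rcases hμ P hP with h | h
    · have e1 : μ₁ / 2 ≤ |D1 w x| := by
        have := abs_sub_abs_le_abs_sub (D1 w P) (D1 w x)
        rw [abs_sub_comm] at this
        linarith
      have := key (p := D1 w x) (q := D2 w x) (a := D1 (D1 u) x) (b := D2 (D2 u) x) e1 hxa hxb lb
      linarith
    · have e1 : μ₁ / 2 ≤ |D2 w x| := by
        have := abs_sub_abs_le_abs_sub (D2 w P) (D2 w x)
        rw [abs_sub_comm] at this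
        linarith
      have := key (p := D2 w x) (q := D1 w x) (a := D2 (D2 u) x) (b := D1 (D1 u) x) e1 hxb hxa la
      linarith
  obtain ⟨μ, hμA, h1, h2⟩ := tangential_barrier hD hS hφ hWcl hz hP hrb0 hσ0 hell hB' hB0 hA0
    hA'
  have hz3 : ContDiff ℝ 2 (fun x => u x - φ x) := (hS.su.sub hS.sφ).of_le (by norm_num)
  obtain ⟨e1, e2, e11, e12, e22, -, -, -, -⟩ := z_derivs hS.su hS.sφ P
  rw [D1_Br hD.w_cd2 hz3, e1, e2, e11, e12] at h1
  rw [D2_Br hD.w_cd2 hz3, e1, e2, e12, e22] at h2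
  have R1b := R_bound (s := D1 w P) hWPP.b12 hWPP.b2 hWPP.b11 hWPP.b1 (hz P hPc).1 (hz P hPc).2
        (hφ P).b11 (hφ P).b12
  have R2b := R_bound (s := D1 w P) hWPP.b22 hWPP.b2 hWPP.b12 hWPP.b1 (hz P hPc).1 (hz P hPc).2
        (hφ P).b12 (hφ P).b22
  have hμ1 := abs_mul_le hμA hWPP.b1
  have hμ2 := abs_mul_le hμA hWPP.b2
  have k1 : |D2 w P * D1 (D1 u) P - D1 w P * D1 (D2 u) P| ≤ Q := by
    have : D2 w P * D1 (D1 u) P - D1 w P * D1 (D2 u) P = μ * D1 w P -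
      (D1 (D2 w) P * (D1 u P - D1 φ P) - D2 w P * D1 (D1 φ) P
          - D1 (D1 w) P * (D2 u P - D2 φ P) + D1 w P * D1 (D2 φ) P) := by
      rw [← h1]; ring
    rw [this]; exact abs_sub_le' hμ1 R1b
  have k2 : |D2 w P * D1 (D2 u) P - D1 w P * D2 (D2 u) P| ≤ Q := by
    have : D2 w P * D1 (D2 u) P - D1 w P * D2 (D2 u) P = μ * D2 w P -
      (D2 (D2 w) P * (D1 u P - D1 φ P) - D2 w P * D1 (D2 φ) P
          - D1 (D2 w) P * (D2 u P - D2 φ P) + D1 w P * D2 (D2 φ) P) := by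
      rw [← h2]; ring
    rw [this]; exact abs_sub_le' hμ2 R2b
  obtain ⟨ca, cb⟩ := hbd P hPc
  rw [le_div_iff₀ hμ₁]
  rcases hμ P hP with h | h
  · have t1 : |D2 w P * D1 (D1 u) P| ≤ W * C :=
      abs_mul_le hWPP.b2 (by rw [abs_of_pos ha]; exact ca)
    have t2 : |D1 w P * D1 (D2 u) P| ≤ Q + W * C := by
      have := abs_sub_le' t1 k1
      have e : D2 w P * D1 (D1 u) P - (D2 w P * D1 (D1 u) P - D1 w P * D1 (D2 u) P)
        = D1 w P * D1 (D2 u) P := by ring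
      rw [e] at this
      linarith
    rw [abs_mul] at t2
    calc |D1 (D2 u) P| * μ₁ ≤ |D1 (D2 u) P| * |D1 w P| :=
        mul_le_mul_of_nonneg_left h (abs_nonneg _)
      _ ≤ Q + W * C := by linarith
  · have t1 : |D1 w P * D2 (D2 u) P| ≤ W * C :=
      abs_mul_le hWPP.b1 (by rw [abs_of_pos hb]; exact cb)
    have t2 : |D2 w P * D1 (D2 u) P| ≤ Q + W * C := by
      have := abs_add_le' k2 t1
      have e : (D2 w P * D1 (D2 u) P - D1 w P * D2 (D2 u) P) + D1 w P * D2 (D2 u) P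
        = D2 w P * D1 (D2 u) P := by ring
      rw [e] at this
      exact this
    rw [abs_mul] at t2
    calc |D1 (D2 u) P| * μ₁ ≤ |D1 (D2 u) P| * |D2 w P| :=
        mul_le_mul_of_nonneg_left h (abs_nonneg _)
      _ ≤ Q + W * C := by linarith

/-- **Global a priori estimate** -/
theorem apriori (hD : Dom w Ω c₀) (K : ℝ) {ω : ℝ → ℝ} (hω : Modulus ω) :
    ∃ C : ℝ, 0 < C ∧ ∀ φ u : ℝ × ℝ → ℝ, Sol φ u Ω → (∀ x, BdAt φ x K) →
      (∀ x y, |D1 (D1 (D1 φ)) x - D1 (D1 (D1 φ)) y| ≤ ω (dist x y)) →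
      (∀ x y, |D2 (D2 (D2 φ)) x - D2 (D2 (D2 φ)) y| ≤ ω (dist x y)) →
      ∀ x ∈ closure Ω, |u x| ≤ C ∧ |D1 u x| ≤ C ∧ |D2 u x| ≤ C ∧ |D1 (D2 u) x| ≤ C ∧
        C⁻¹ ≤ D1 (D1 u) x ∧ D1 (D1 u) x ≤ C ∧ C⁻¹ ≤ D2 (D2 u) x ∧ D2 (D2 u) x ≤ C := by
  obtain ⟨Ca, hCa⟩ := bound11 hD K hω
  obtain ⟨Cb, hCb⟩ := bound22 hD K hω
  set C0 : ℝ := max (max Ca Cb) 1 with hC0
  obtain ⟨Cc, hCc⟩ := bound12 hD K C0
  obtain ⟨W, μ₁, hW1, hWc, hμ₁, hWb, hμ⟩ := hD.consts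
  have hc₀ := hD.cpos
  set N : ℝ := (|K| + 2) / c₀ with hN
  have hN0 : 0 ≤ N := by positivity
  have hNc : |K| + 2 ≤ N * c₀ := by rw [hN]; field_simp; exact le_refl _
  have hC01 : 1 ≤ C0 := le_max_right _ _
  set C : ℝ := (|K| + N * W) + C0 + |Cc| + C0 with hC
  have hW0 : 0 ≤ W := by linarith
  have hNW : 0 ≤ N * W := by positivity
  have hKn : 0 ≤ |K| := abs_nonneg _
  have hCcn : 0 ≤ |Cc| := abs_nonneg _
  have hCpos : 0 < C := by linarith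
  refine ⟨C, hCpos, fun φ u hS hφ hm1 hm2 x hx => ?_⟩
  have hφ' : ∀ x, BdAt φ x |K| := fun x => (hφ x).mono (le_abs_self K)
  have hWcl : ∀ x ∈ closure Ω, BdAt w x W := fun x hx => hWb x x hx (by simp)
  have hgrad := grad_bound hD hS hN0 hNc hφ' hWcl x hx
  have hup := upper_barrier hD hS hN0 hNc (fun x _ => (abs_le.1 (hφ' x).b11).2) x hx
  have hlo := lower_barrier hD hS hN0 hNc (fun x _ => (abs_le.1 (hφ' x).b11).1)
    (fun x _ => (abs_le.1 (hφ' x).b22).1) x hx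
  have hpure : ∀ y ∈ closure Ω, D1 (D1 u) y ≤ C0 ∧ D2 (D2 u) y ≤ C0 := fun y hy =>
    ⟨(hCa φ u hS hφ hm2 y hy).trans ((le_max_left _ _).trans (le_max_left _ _)),
      (hCb φ u hS hφ hm1 y hy).trans ((le_max_right _ _).trans (le_max_left _ _))⟩
  have hcb := hCc φ u hS hφ hpure
  obtain ⟨ha, hb, hab, -, -⟩ := hS.closure_eqs hD hx
  obtain ⟨ca, cb⟩ := hpure x hx
  have hC0C : C0 ≤ C := by linarith
  have h12 : ∀ τ : ℝ, τ * τ = 1 → τ * D1 (D2 u) x ≤ C0 + |Cc| := by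
    intro τ hτ
    have hτ1 := abs_s hτ
    have := hS.max12 hD hτ (m := 2 * C0 + 2 * |Cc|) (fun y hy => by
      obtain ⟨ya, yb⟩ := hpure y (frontier_subset_closure hy)
      have h1 := (hcb y hy).trans (le_abs_self Cc)
      have h2 : τ * D1 (D2 u) y ≤ |Cc| := by
        calc τ * D1 (D2 u) y ≤ |τ * D1 (D2 u) y| := le_abs_self _
          _ = |D1 (D2 u) y| := by rw [abs_mul, hτ1, one_mul]
          _ ≤ |Cc| := h1
      linarith) x hx
    linarith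
  refine ⟨?_, ?_, ?_, ?_, ?_, ?_, ?_, ?_⟩
  · have hw := (hWcl x hx).b0
    have hf := (hφ' x).b0
    have h1 : |N * w x| ≤ N * W := abs_mul_le (by rw [abs_of_nonneg hN0]) hw
    have h2 := abs_le.1 h1
    have h3 := abs_le.1 hf
    rw [abs_le]
    constructor <;> linarith [h2.1, h2.2, h3.1, h3.2]
  · exact hgrad.1.trans (by linarith)
  · exact hgrad.2.trans (by linarith)
  · have h1 := h12 1 (by norm_num)
    have h2 := h12 (-1) (by norm_num)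
    rw [abs_le]
    constructor <;> linarith
  · rw [inv_le_iff_one_le_mul₀ hCpos]
    nlinarith
  · exact ca.trans hC0C
  · rw [inv_le_iff_one_le_mul₀ hCpos]
    nlinarith
  · exact cb.trans hC0C

end AP
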