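import Pool.Agent.Lib_helper42.AP.Cases

/-! Uniform constants and the bound for `u_22`. -/

namespace AP

open Set Filter Topology Metric

lemma BdAt.mono {f : ℝ × ℝ → ℝ} {x : ℝ × ℝ} {K K' : ℝ} (h : BdAt f x K) (hK : K ≤ K') :
    BdAt f x K' :=
  ⟨h.b0.trans hK, h.b1.trans hK, h.b2.trans hK, h.b11.trans hK, h.b12.trans hK, h.b22.trans hK,
    h.b111.trans hK, h.b112.trans hK, h.b122.trans hK, h.b222.trans hK⟩

lemma exists_BdAt {f : ℝ × ℝ → ℝ} (hf : ContDiff ℝ 3 f) {S : Set (ℝ × ℝ)} (hS : IsCompact S) :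
    ∃ W : ℝ, ∀ x ∈ S, BdAt f x W := by
  have f1 : ContDiff ℝ 2 (D1 f) := cd_D1 (n := 2) hf
  have f2 : ContDiff ℝ 2 (D2 f) := cd_D2 (n := 2) hf
  have f11 : ContDiff ℝ 1 (D1 (D1 f)) := cd_D1 (n := 1) f1
  have f12 : ContDiff ℝ 1 (D1 (D2 f)) := cd_D1 (n := 1) f2
  have f22 : ContDiff ℝ 1 (D2 (D2 f)) := cd_D2 (n := 1) f2
  have key : ∀ g : ℝ × ℝ → ℝ, Continuous g → ∃ C : ℝ, ∀ x ∈ S, |g x| ≤ C := by
    intro g hg
    obtain ⟨C, hC⟩ := hS.exists_bound_of_continuousOn hg.continuousOn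
    exact ⟨C, fun x hx => by simpa using hC x hx⟩
  obtain ⟨C0, h0⟩ := key f hf.continuous
  obtain ⟨C1, h1⟩ := key _ f1.continuous
  obtain ⟨C2, h2⟩ := key _ f2.continuous
  obtain ⟨C11, h11⟩ := key _ f11.continuous
  obtain ⟨C12, h12⟩ := key _ f12.continuous
  obtain ⟨C22, h22⟩ := key _ f22.continuous
  obtain ⟨C111, h111⟩ := key _ (cd_D1 (n := 0) f11).continuous
  obtain ⟨C112, h112⟩ := key _ (cd_D1 (n := 0) f12).continuous
  obtain ⟨C122, h122⟩ := key _ (cd_D1 (n := 0) f22).continuous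
  obtain ⟨C222, h222⟩ := key _ (cd_D2 (n := 0) f22).continuous
  refine ⟨|C0| + |C1| + |C2| + |C11| + |C12| + |C22| + |C111| + |C112| + |C122| + |C222|,
    fun x hx => ?_⟩
  have a0 := (h0 x hx).trans (le_abs_self _)
  have a1 := (h1 x hx).trans (le_abs_self _)
  have a2 := (h2 x hx).trans (le_abs_self _)
  have a11 := (h11 x hx).trans (le_abs_self _)
  have a12 := (h12 x hx).trans (le_abs_self _)
  have a22 := (h22 x hx).trans (le_abs_self _)
  have a111 := (h111 x hx).trans (le_abs_self _)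
  have a112 := (h112 x hx).trans (le_abs_self _)
  have a122 := (h122 x hx).trans (le_abs_self _)
  have a222 := (h222 x hx).trans (le_abs_self _)
  have n0 := abs_nonneg C0
  have n1 := abs_nonneg C1
  have n2 := abs_nonneg C2
  have n11 := abs_nonneg C11
  have n12 := abs_nonneg C12
  have n22 := abs_nonneg C22
  have n111 := abs_nonneg C111
  have n112 := abs_nonneg C112
  have n122 := abs_nonneg C122
  have n222 := abs_nonneg C222
  constructor <;> linarith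

/-- small numbers exist -/
lemma exists_small {A B : ℝ} (hA : 0 ≤ A) (hB : 0 < B) :
    ∃ δ : ℝ, 0 < δ ∧ ∀ δ' : ℝ, δ' ≤ δ → δ' * A < B := by
  refine ⟨B / (A + 1), by positivity, fun δ' h => ?_⟩
  have h1 : δ' * A ≤ B / (A + 1) * A := mul_le_mul_of_nonneg_right h hA
  have h2 : B / (A + 1) * A < B := by
    rw [div_mul_eq_mul_div, div_lt_iff₀ (by linarith)]
    nlinarith
  linarith

variable {w φ u : ℝ × ℝ → ℝ} {Ω : Set (ℝ × ℝ)} {c₀ K N : ℝ}

/-- uniform constants attached to the domain -/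
lemma Dom.consts (hD : Dom w Ω c₀) : ∃ W μ₁ : ℝ, 1 ≤ W ∧ c₀ ≤ W ∧ 0 < μ₁ ∧
    (∀ x y, y ∈ closure Ω → dist x y ≤ 1 → BdAt w x W) ∧
    (∀ P ∈ frontier Ω, μ₁ ≤ |D1 w P| ∨ μ₁ ≤ |D2 w P|) := by
  have hcomp : IsCompact (cthickening 1 (closure Ω)) := hD.compact.cthickening
  obtain ⟨W, hW⟩ := exists_BdAt hD.smooth hcomp
  have c1 : Continuous (D1 w) := (cd_D1 (n := 2) hD.smooth).continuous
  have c2 : Continuous (D2 w) := (cd_D2 (n := 2) hD.smooth).continuous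
  have hg : ∃ μ₁ : ℝ, 0 < μ₁ ∧ ∀ P ∈ frontier Ω, μ₁ ≤ |D1 w P| ∨ μ₁ ≤ |D2 w P| := by
    rcases (frontier Ω).eq_empty_or_nonempty with h | h
    · exact ⟨1, one_pos, fun P hP => by rw [h] at hP; exact absurd hP (notMem_empty P)⟩
    · have cm : Continuous (fun x => max |D1 w x| |D2 w x|) := by fun_prop
      obtain ⟨Q, hQ, hmin⟩ := hD.compactΓ.exists_isMinOn h cm.continuousOn
      refine ⟨max |D1 w Q| |D2 w Q|, ?_, fun P hP => ?_⟩
      · rcases hD.grad Q hQ with h | h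
        · exact lt_of_lt_of_le (abs_pos.2 h) (le_max_left _ _)
        · exact lt_of_lt_of_le (abs_pos.2 h) (le_max_right _ _)
      · have : max |D1 w Q| |D2 w Q| ≤ max |D1 w P| |D2 w P| := hmin hP
        exact le_max_iff.1 this
  obtain ⟨μ₁, hμ₁, hμ⟩ := hg
  refine ⟨max (max W 1) c₀, μ₁, (le_max_right _ _).trans (le_max_left _ _), le_max_right _ _,
    hμ₁, fun x y hy hxy => ?_, hμ⟩
  refine (hW x ?_).mono ((le_max_left _ _).trans (le_max_left _ _))
  rw [mem_cthickening_iff]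
  have h1 : infEDist x (closure Ω) ≤ edist x y := infEDist_le_edist_of_mem hy
  rw [edist_dist] at h1
  exact h1.trans (ENNReal.ofReal_le_ofReal hxy)

lemma Dom.unif (hD : Dom w Ω c₀) {g : ℝ × ℝ → ℝ} (hg : Continuous g) {ε : ℝ} (hε : 0 < ε) :
    ∃ ρ : ℝ, 0 < ρ ∧ ρ ≤ 1 ∧ ∀ x P, P ∈ closure Ω → dist x P ≤ ρ → |g x - g P| ≤ ε := by
  have hcomp : IsCompact (cthickening 1 (closure Ω)) := hD.compact.cthickening
  have huc := hcomp.uniformContinuousOn_of_continuous hg.continuousOn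
  rw [Metric.uniformContinuousOn_iff] at huc
  obtain ⟨ρ, hρ, h⟩ := huc ε hε
  refine ⟨min (ρ / 2) 1, by positivity, min_le_right _ _, fun x P hP hx => ?_⟩
  have hPm : P ∈ cthickening 1 (closure Ω) := self_subset_cthickening _ hP
  have hxm : x ∈ cthickening 1 (closure Ω) := by
    rw [mem_cthickening_iff]
    have h1 : infEDist x (closure Ω) ≤ edist x P := infEDist_le_edist_of_mem hP
    rw [edist_dist] at h1
    exact h1.trans (ENNReal.ofReal_le_ofReal (hx.trans (min_le_right _ _)))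
  have := h x hxm P hPm (by
    have : dist x P ≤ ρ / 2 := hx.trans (min_le_left _ _)
    linarith)
  rw [Real.dist_eq] at this
  exact this.le

/-- the modulus condition -/
def Modulus (ω : ℝ → ℝ) : Prop := ∀ ε > 0, ∃ ρ > 0, ∀ s, 0 ≤ s → s ≤ ρ → ω s ≤ ε

/-- **bound for `u_22`** -/
theorem bound22 (hD : Dom w Ω c₀) (K : ℝ) {ω : ℝ → ℝ} (hω : Modulus ω) :
    ∃ C : ℝ, ∀ φ u : ℝ × ℝ → ℝ, Sol φ u Ω → (∀ x, BdAt φ x K) →
      (∀ x y, |D1 (D1 (D1 φ)) x - D1 (D1 (D1 φ)) y| ≤ ω (dist x y)) →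
      ∀ x ∈ closure Ω, D2 (D2 u) x ≤ C := by
  by_cases hK0 : 0 ≤ K
  swap
  · refine ⟨0, fun φ u _ hφ _ x _ => ?_⟩
    exact absurd (le_trans (abs_nonneg _) (hφ x).b0) hK0
  obtain ⟨W, μ₁, hW1, hWc, hμ₁, hWb, hμ⟩ := hD.consts
  have hc₀ := hD.cpos
  have hW0 : 0 < W := by linarith
  -- fixed constants
  set N : ℝ := (K + 2) / c₀ with hN
  have hN0 : 0 ≤ N := by positivity
  have hNc : K + 2 ≤ N * c₀ := by rw [hN]; field_simp; exact le_refl _
  set K' : ℝ := K + N * W with hK'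
  have hK'0 : 0 ≤ K' := by positivity
  set Z : ℝ := K' + K with hZ
  have hZ0 : 0 ≤ Z := by positivity
  set θ : ℝ := c₀ / (8 * W) with hθ
  have hθ0 : 0 < θ := by positivity
  set α : ℝ := μ₁ * θ / (16 * W) with hα
  have hα0 : 0 < α := by positivity
  set ε : ℝ := 6 * (α * θ / 64) with hε
  have hε0 : 0 < ε := by positivity
  set ε2 : ℝ := ε / (2 * (N + 1)) with hε2
  have hε20 : 0 < ε2 := by positivity
  have hNε : N * ε2 ≤ ε / 2 := by
    rw [hε2, ← mul_div_assoc, div_le_div_iff₀ (by positivity) (by norm_num)]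
    nlinarith
  have f11 : ContDiff ℝ 1 (D1 (D1 w)) := cd_D1 (n := 1) (cd_D1 (n := 2) hD.smooth)
  obtain ⟨ρ1, hρ1, hωρ⟩ := hω (ε / 2) (by positivity)
  obtain ⟨ρ2, hρ2, -, hwρ⟩ := hD.unif (cd_D1 (n := 0) f11).continuous hε20
  -- the radius `r`
  obtain ⟨r1, hr1, hr1'⟩ := exists_small (A := 4 * c₀) (B := μ₁ * θ) (by positivity) (by positivity)
  obtain ⟨r2, hr2, hr2'⟩ := exists_small (A := K' + K' * W / c₀) (B := α * θ / 64) (by positivity)
    (by positivity)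
  set r : ℝ := min (min (min r1 r2) (min ρ1 ρ2)) (1 / 2) with hr
  have hr0 : 0 < r := by positivity
  have hrr1 : r ≤ r1 := (min_le_left _ _).trans ((min_le_left _ _).trans (min_le_left _ _))
  have hrr2 : r ≤ r2 := (min_le_left _ _).trans ((min_le_left _ _).trans (min_le_right _ _))
  have hrρ1 : r ≤ ρ1 := (min_le_left _ _).trans ((min_le_right _ _).trans (min_le_left _ _))
  have hrρ2 : r ≤ ρ2 := (min_le_left _ _).trans ((min_le_right _ _).trans (min_le_right _ _))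
  have hrh : r ≤ 1 / 2 := min_le_right _ _
  set m₁ : ℝ := α * θ * r / 32 with hm₁
  have hm₁0 : 0 < m₁ := by positivity
  set mh : ℝ := μ₁ ^ 2 * m₁ / 2 with hmh
  have hmh0 : 0 < mh := by positivity
  set M₀ : ℝ := 4 * W ^ 2 * K' with hM₀
  have hM₀0 : 0 ≤ M₀ := by positivity
  set CR : ℝ := 32 * W ^ 3 * K + 16 * W ^ 3 * Z with hCR
  have hCR0 : 0 ≤ CR := by positivity
  -- the threshold `δ`
  obtain ⟨d1, hd1, hd1'⟩ := exists_small (A := 1) (B := μ₁ * θ / 32 * r) (by norm_num)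
    (by positivity)
  obtain ⟨d2, hd2, hd2'⟩ := exists_small (A := 1) (B := c₀ / 16 * r) (by norm_num) (by positivity)
  obtain ⟨d3, hd3, hd3'⟩ := exists_small (A := K') (B := 3 * c₀ * (m₁ / 2)) hK'0 (by positivity)
  obtain ⟨d4, hd4, hd4'⟩ := exists_small (A := 3 * W * K') (B := μ₁ ^ 2 * m₁ / 2) (by positivity)
    (by positivity)
  obtain ⟨d5, hd5, hd5'⟩ := exists_small (A := 2 * W ^ 2) (B := μ₁ ^ 2 * c₀ / 2) (by positivity)
    (by positivity)
  obtain ⟨d6, hd6, hd6'⟩ := exists_small (A := W * CR + 4 * W ^ 2 * M₀)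
    (B := μ₁ ^ 2 * c₀ / 2 * (mh / 2)) (by positivity) (by positivity)
  obtain ⟨δ, hδ0, l1, l2, l3, l4, l5, l6, l7⟩ : ∃ δ : ℝ, 0 < δ ∧ δ ≤ d1 ∧ δ ≤ d2 ∧ δ ≤ d3 ∧
      δ ≤ d4 ∧ δ ≤ d5 ∧ δ ≤ d6 ∧ δ < μ₁ := by
    refine ⟨min (min (min d1 d2) (min d3 d4)) (min (min d5 d6) (μ₁ / 2)), by positivity,
      ?_, ?_, ?_, ?_, ?_, ?_, ?_⟩
    · exact (min_le_left _ _).trans ((min_le_left _ _).trans (min_le_left _ _))
    · exact (min_le_left _ _).trans ((min_le_left _ _).trans (min_le_right _ _))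
    · exact (min_le_left _ _).trans ((min_le_right _ _).trans (min_le_left _ _))
    · exact (min_le_left _ _).trans ((min_le_right _ _).trans (min_le_right _ _))
    · exact (min_le_right _ _).trans ((min_le_left _ _).trans (min_le_left _ _))
    · exact (min_le_right _ _).trans ((min_le_left _ _).trans (min_le_right _ _))
    · have : min (min (min d1 d2) (min d3 d4)) (min (min d5 d6) (μ₁ / 2)) ≤ μ₁ / 2 :=
        (min_le_right _ _).trans (min_le_right _ _)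
      linarith
  -- the barrier constants
  have g1 : Continuous (D1 w) := (cd_D1 (n := 2) hD.smooth).continuous
  have g2 : Continuous (D2 w) := (cd_D2 (n := 2) hD.smooth).continuous
  obtain ⟨s1, hs1, -, hs1'⟩ := hD.unif g1 (half_pos hδ0)
  obtain ⟨s2, hs2, -, hs2'⟩ := hD.unif g2 (half_pos hδ0)
  set rb : ℝ := min s1 s2 with hrb
  have hrb0 : 0 < rb := by positivity
  set σ : ℝ := δ ^ 2 / 4 with hσ
  have hσ0 : 0 < σ := by positivity
  set B : ℝ := ((2 * W * Z) ^ 2 + 2 * W * Z) / rb ^ 2 with hB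
  have hB0 : 0 ≤ B := by positivity
  have hB' : (2 * W * Z) ^ 2 + 2 * W * Z ≤ B * rb ^ 2 := by
    rw [hB]; field_simp; exact le_refl _
  set A : ℝ := (2 * B + 2 * (2 * W * (Z + K)) ^ 2 + (4 * W * Z + 1) * (2 * Z * W + 6 * W * K)
      + ((4 * W * Z + 1) * (2 * W) + 4 * W ^ 2) ^ 2 / (4 * σ)) / c₀ with hA
  have hA0 : 0 ≤ A := by positivity
  have hA' : 2 * B + 2 * (2 * W * (Z + K)) ^ 2 + (4 * W * Z + 1) * (2 * Z * W + 6 * W * K)
      + ((4 * W * Z + 1) * (2 * W) + 4 * W ^ 2) ^ 2 / (4 * σ) ≤ A * c₀ := by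
    rw [hA, div_mul_cancel₀ _ hc₀.ne']
  set Q : ℝ := A * W + 2 * W * (Z + K) with hQ
  have hQ0 : 0 ≤ Q := by positivity
  set C1 : ℝ := 2 * W ^ 2 / mh with hC1
  set C2 : ℝ := 1 + (W ^ 2 + M₀ + δ * (W * CR + 4 * W ^ 2 * M₀) / (μ₁ ^ 2 * c₀ / 2)) / μ₁ ^ 2
    with hC2
  set C3 : ℝ := 1 + (W ^ 2 + 2 * W * Q) / δ ^ 2 with hC3
  have hC10 : 0 ≤ C1 := by positivity
  have hC20 : 0 ≤ C2 := by positivity
  have hC30 : 0 ≤ C3 := by positivity
  refine ⟨C1 + C2 + C3, fun φ u hS hφ hφm => ?_⟩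
  -- reduce to a boundary maximum
  rcases (frontier Ω).eq_empty_or_nonempty with hempty | hne
  · exact hS.max22 hD (fun x hx => by rw [hempty] at hx; exact absurd hx (notMem_empty x))
  have u22 : ContDiff ℝ 1 (D2 (D2 u)) := cd_D2 (n := 1) (cd_D2 (n := 2) hS.su)
  obtain ⟨P, hP, hPmax⟩ := hD.compactΓ.exists_isMaxOn hne u22.continuous.continuousOn
  have hmax : ∀ x ∈ closure Ω, D2 (D2 u) x ≤ D2 (D2 u) P :=
    hS.max22 hD (fun x hx => hPmax hx)
  suffices hkey : D2 (D2 u) P ≤ C1 + C2 + C3 from fun x hx => (hmax x hx).trans hkey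
  have hPc : P ∈ closure Ω := frontier_subset_closure hP
  have hWP : ∀ x, dist x P ≤ 1 → BdAt w x W := fun x hx => hWb x P hPc hx
  have hWPP : BdAt w P W := hWP P (by simp)
  have hWcl : ∀ x ∈ closure Ω, BdAt w x W := fun x hx => hWb x x hx (by simp)
  have hgrad := grad_bound hD hS hN0 hNc hφ hWcl
  have hz : ∀ x ∈ closure Ω, |D1 u x - D1 φ x| ≤ Z ∧ |D2 u x - D2 φ x| ≤ Z := by
    intro x hx
    exact ⟨abs_sub_le' (hgrad x hx).1 (hφ x).b1, abs_sub_le' (hgrad x hx).2 (hφ x).b2⟩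
  obtain ⟨lam, hlam, hu1, hu2⟩ := normal_deriv hD hS hN0 hNc hφ hP
  obtain ⟨ha, hb, hab, -, -⟩ := hS.closure_eqs hD hPc
  have hstar := hS.star hD hP hmax (hφ P) hWPP (hz P hPc).1 (hz P hPc).2
  have hMeq := Sol.Mhat φ u w hD hS hP hu1 hu2
  have hG : ∀ {f g : ℝ}, |f| ≤ K → |g| ≤ W → |f + lam * g| ≤ K' := by
    intro f g h1 h2
    exact abs_add_le' h1 (abs_mul_le hlam h2)
  have b11 := hG (hφ P).b11 hWPP.b11
  have b12 := hG (hφ P).b12 hWPP.b12
  have b22 := hG (hφ P).b22 hWPP.b22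
  have hMb : |D2 w P ^ 2 * D1 (D1 u) P - 2 * D1 w P * D2 w P * D1 (D2 u) P
      + D1 w P ^ 2 * D2 (D2 u) P| ≤ M₀ := by
    rw [hMeq]; exact M_bound hWPP.b1 hWPP.b2 b11 b12 b22
  rcases le_or_gt |D1 w P| δ with hc1 | hc1
  · -- horizontal tangent
    have hμ2 : μ₁ ≤ |D2 w P| := by
      rcases hμ P hP with h | h
      · linarith
      · exact h
    have hnd := nondeg hD hS (W := W) (μ₁ := μ₁) (r := r) (ε1 := ε / 2) (ε2 := ε2) (θ := θ)
      (α := α) hP hφ hWP hN0 hlam hu1 hu2 hWc hμ₁ hμ2 hθ hα hr0 hrh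
      (by have := hr1' r hrr1; linarith)
      (by have := hd1' δ l1; linarith) (by have := hd2' δ l2; linarith)
      (fun x hx => (hφm x P).trans (hωρ _ dist_nonneg (hx.trans hrρ1)))
      (fun x hx => hwρ x P hPc (hx.trans hrρ2))
      (by linarith)
      (by have := hr2' r hrr2; linarith)
    have hKw : K' * |D1 w P| / (3 * c₀) ≤ m₁ / 2 := by
      rw [div_le_iff₀ (by positivity)]
      have h1 := hd3' δ l3
      have h2 : K' * |D1 w P| ≤ K' * δ := mul_le_mul_of_nonneg_left hc1 hK'0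
      linarith
    have hG11 : m₁ ≤ D1 (D1 φ) P + lam * D1 (D1 w) P := by linarith
    have hMl := M_lower hμ₁ hm₁0.le hWPP.b1 hWPP.b2 hc1 hμ2 hG11 b12 b22
    rw [← hMeq] at hMl
    have hMl' : mh ≤ D2 w P ^ 2 * D1 (D1 u) P - 2 * D1 w P * D2 w P * D1 (D2 u) P
        + D1 w P ^ 2 * D2 (D2 u) P := by
      have := hd4' δ l4
      refine le_trans ?_ hMl
      rw [hmh]; linarith
    have hc := case_one hc₀ hμ₁ hWPP.b1 hWPP.b2 hWPP.b12 hWPP.b22 hc1 hμ2 (hD.w11 P)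
      (hc₀.le.trans (hD.w22 P)) (by have := hd5' δ l5; linarith) hb.le hCR0 hmh0 hMb hMl' hstar
      (hd6' δ l6)
    have hw2 : D2 w P ^ 2 ≤ W ^ 2 := by
      rw [← sq_abs (D2 w P)]; exact pow_le_pow_left₀ (abs_nonneg _) hWPP.b2 2
    have h1 : mh / 2 ≤ W ^ 2 * D1 (D1 u) P :=
      hc.trans (mul_le_mul_of_nonneg_right hw2 ha.le)
    have h2 : mh / 2 * D2 (D2 u) P ≤ W ^ 2 := by
      have := mul_le_mul_of_nonneg_right h1 hb.le
      rw [mul_assoc, hab, mul_one] at this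
      exact this
    have h3 : D2 (D2 u) P ≤ C1 := by
      rw [hC1, le_div_iff₀ hmh0]; linarith
    linarith
  rcases le_or_gt |D2 w P| δ with hc2 | hc2
  · -- vertical tangent
    have hμ1 : μ₁ ≤ |D1 w P| := by
      rcases hμ P hP with h | h
      · exact h
      · linarith
    have hc := case_two hc₀ hμ₁ hWPP.b1 hWPP.b2 hWPP.b12 hWPP.b11 hc2 hμ1
      (hc₀.le.trans (hD.w11 P)) (hD.w22 P) (by have := hd5' δ l5; linarith) ha hb hab hCR0 hMb
      hstar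
    have h3 : D2 (D2 u) P ≤ C2 := hc
    linarith
  · -- oblique tangent
    have hell : ∀ x ∈ Ω, dist x P < rb → σ * (D2 (D2 u) x + D1 (D1 u) x) ≤
        D2 (D2 u) x * (D1 w x) ^ 2 + D1 (D1 u) x * (D2 w x) ^ 2 := by
      intro x hx hxr
      have t1 := hs1' x P hPc (hxr.le.trans (min_le_left _ _))
      have t2 := hs2' x P hPc (hxr.le.trans (min_le_right _ _))
      have e1 : δ / 2 ≤ |D1 w x| := by
        have := abs_sub_abs_le_abs_sub (D1 w P) (D1 w x)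
        rw [abs_sub_comm] at this
        linarith
      have e2 : δ / 2 ≤ |D2 w x| := by
        have := abs_sub_abs_le_abs_sub (D2 w P) (D2 w x)
        rw [abs_sub_comm] at this
        linarith
      have q1 : σ ≤ (D1 w x) ^ 2 := by
        rw [hσ, ← sq_abs (D1 w x)]
        have := pow_le_pow_left₀ (half_pos hδ0).le e1 2
        linarith
      have q2 : σ ≤ (D2 w x) ^ 2 := by
        rw [hσ, ← sq_abs (D2 w x)]
        have := pow_le_pow_left₀ (half_pos hδ0).le e2 2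
        linarith
      have p1 := mul_le_mul_of_nonneg_left q1 (hS.p2 x hx).le
      have p2 := mul_le_mul_of_nonneg_left q2 (hS.p1 x hx).le
      linarith
    obtain ⟨μ, hμA, h1, h2⟩ := tangential_barrier hD hS hφ hWcl hz hP hrb0 hσ0 hell hB' hB0 hA0
      hA'
    have hz3 : ContDiff ℝ 2 (fun x => u x - φ x) := (hS.su.sub hS.sφ).of_le (by norm_num)
    obtain ⟨e1, e2, e11, e12, e22, -, -, -, -⟩ := z_derivs hS.su hS.sφ P
    rw [D1_Br hD.w_cd2 hz3, e1, e2, e11, e12] at h1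
    rw [D2_Br hD.w_cd2 hz3, e1, e2, e12, e22] at h2
    have R1b := R_bound (s := D1 w P) hWPP.b12 hWPP.b2 hWPP.b11 hWPP.b1 (hz P hPc).1 (hz P hPc).2
          (hφ P).b11 (hφ P).b12
    have R2b := R_bound (s := D1 w P) hWPP.b22 hWPP.b2 hWPP.b12 hWPP.b1 (hz P hPc).1 (hz P hPc).2
          (hφ P).b12 (hφ P).b22
    have hμ1 := abs_mul_le hμA hWPP.b1
    have hμ2 := abs_mul_le hμA hWPP.b2
    have k1 : |D2 w P * D1 (D1 u) P - D1 w P * D1 (D2 u) P| ≤ Q := by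
      have : D2 w P * D1 (D1 u) P - D1 w P * D1 (D2 u) P = μ * D1 w P -
        (D1 (D2 w) P * (D1 u P - D1 φ P) - D2 w P * D1 (D1 φ) P
            - D1 (D1 w) P * (D2 u P - D2 φ P) + D1 w P * D1 (D2 φ) P) := by
        rw [← h1]; ring
      rw [this]; exact abs_sub_le' hμ1 R1b
    have k2 : |D2 w P * D1 (D2 u) P - D1 w P * D2 (D2 u) P| ≤ Q := by
      have : D2 w P * D1 (D2 u) P - D1 w P * D2 (D2 u) P = μ * D2 w P -
        (D2 (D2 w) P * (D1 u P - D1 φ P) - D2 w P * D1 (D2 φ) P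
            - D1 (D2 w) P * (D2 u P - D2 φ P) + D1 w P * D2 (D2 φ) P) := by
        rw [← h2]; ring
      rw [this]; exact abs_sub_le' hμ2 R2b
    have h3 := case_three hδ0 hWPP.b1 hWPP.b2 hc1.le ha hb hab k1 k2
    have h4 : D2 (D2 u) P ≤ C3 := h3
    linarith

end AP
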