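import Pool.Agent.Lib_helper42.AP.Sol

/-! Second differentiated equations and the tangential barrier (Step 3). -/

namespace AP

open Set Filter Topology Metric

/-- the function `Ψ = w₂ z₁ - w₁ z₂` -/
noncomputable def Br (w z : ℝ × ℝ → ℝ) (x : ℝ × ℝ) : ℝ := D2 w x * D1 z x - D1 w x * D2 z x

section Br

variable {w z : ℝ × ℝ → ℝ}

lemma Br_contDiff {n : ℕ} (hw : ContDiff ℝ (n + 1 : ℕ) w) (hz : ContDiff ℝ (n + 1 : ℕ) z) :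
    ContDiff ℝ n (Br w z) :=
  ((cd_D2 hw).mul (cd_D1 hz)).sub ((cd_D1 hw).mul (cd_D2 hz))

lemma D1_Br (hw : ContDiff ℝ 2 w) (hz : ContDiff ℝ 2 z) (x : ℝ × ℝ) :
    D1 (Br w z) x = D1 (D2 w) x * D1 z x + D2 w x * D1 (D1 z) x
      - D1 (D1 w) x * D2 z x - D1 w x * D1 (D2 z) x := by
  have w1 := diffD1 (hw.contDiffAt (x := x))
  have w2 := diffD2 (hw.contDiffAt (x := x))
  have z1 := diffD1 (hz.contDiffAt (x := x))
  have z2 := diffD2 (hz.contDiffAt (x := x))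
  have : D1 (Br w z) x = D1 (fun x => D2 w x * D1 z x - D1 w x * D2 z x) x := rfl
  rw [this, D1_sub (w2.fun_mul z1) (w1.fun_mul z2), D1_mul w2 z1, D1_mul w1 z2]
  ring

lemma D2_Br (hw : ContDiff ℝ 2 w) (hz : ContDiff ℝ 2 z) (x : ℝ × ℝ) :
    D2 (Br w z) x = D2 (D2 w) x * D1 z x + D2 w x * D1 (D2 z) x
      - D1 (D2 w) x * D2 z x - D1 w x * D2 (D2 z) x := by
  have w1 := diffD1 (hw.contDiffAt (x := x))
  have w2 := diffD2 (hw.contDiffAt (x := x))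
  have z1 := diffD1 (hz.contDiffAt (x := x))
  have z2 := diffD2 (hz.contDiffAt (x := x))
  have : D2 (Br w z) x = D2 (fun x => D2 w x * D1 z x - D1 w x * D2 z x) x := rfl
  rw [this, D2_sub (w2.fun_mul z1) (w1.fun_mul z2), D2_mul w2 z1, D2_mul w1 z2,
    D12_comm_fun hw, D12_comm_fun hz]
  ring

lemma D11_Br (hw : ContDiff ℝ 3 w) (hz : ContDiff ℝ 3 z) (x : ℝ × ℝ) :
    D1 (D1 (Br w z)) x = D1 (D1 (D2 w)) x * D1 z x + 2 * (D1 (D2 w) x * D1 (D1 z) x)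
      + D2 w x * D1 (D1 (D1 z)) x
      - (D1 (D1 (D1 w)) x * D2 z x + 2 * (D1 (D1 w) x * D1 (D2 z) x)
        + D1 w x * D1 (D1 (D2 z)) x) := by
  have w1 : ContDiffAt ℝ 2 (D1 w) x := (cd_D1 (n := 2) hw).contDiffAt
  have w2 : ContDiffAt ℝ 2 (D2 w) x := (cd_D2 (n := 2) hw).contDiffAt
  have z1 : ContDiffAt ℝ 2 (D1 z) x := (cd_D1 (n := 2) hz).contDiffAt
  have z2 : ContDiffAt ℝ 2 (D2 z) x := (cd_D2 (n := 2) hz).contDiffAt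
  have : D1 (D1 (Br w z)) x = D1 (D1 (fun x => D2 w x * D1 z x - D1 w x * D2 z x)) x := rfl
  rw [this, D11_sub (w2.mul z1) (w1.mul z2), D11_mul w2 z1, D11_mul w1 z2]

lemma D22_Br (hw : ContDiff ℝ 3 w) (hz : ContDiff ℝ 3 z) (x : ℝ × ℝ) :
    D2 (D2 (Br w z)) x = D2 (D2 (D2 w)) x * D1 z x + 2 * (D2 (D2 w) x * D1 (D2 z) x)
      + D2 w x * D1 (D2 (D2 z)) x
      - (D1 (D2 (D2 w)) x * D2 z x + 2 * (D1 (D2 w) x * D2 (D2 z) x)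
        + D1 w x * D2 (D2 (D2 z)) x) := by
  have w1 : ContDiffAt ℝ 2 (D1 w) x := (cd_D1 (n := 2) hw).contDiffAt
  have w2 : ContDiffAt ℝ 2 (D2 w) x := (cd_D2 (n := 2) hw).contDiffAt
  have z1 : ContDiffAt ℝ 2 (D1 z) x := (cd_D1 (n := 2) hz).contDiffAt
  have z2 : ContDiffAt ℝ 2 (D2 z) x := (cd_D2 (n := 2) hz).contDiffAt
  have hw3 : ContDiffAt ℝ 3 w x := hw.contDiffAt
  have hz3 : ContDiffAt ℝ 3 z x := hz.contDiffAt
  have : D2 (D2 (Br w z)) x = D2 (D2 (fun x => D2 w x * D1 z x - D1 w x * D2 z x)) x := rfl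
  rw [this, D22_sub (w2.mul z1) (w1.mul z2), D22_mul w2 z1, D22_mul w1 z2,
    D12_comm_fun (hw.of_le (by norm_num)), D12_comm_fun (hz.of_le (by norm_num)),
    comm212 hw3, comm212 hz3]

end Br

section zfun

variable {φ u : ℝ × ℝ → ℝ} {Ω : Set (ℝ × ℝ)}

lemma z_D1 (hu : ContDiff ℝ 1 u) (hφ : ContDiff ℝ 1 φ) :
    D1 (fun x => u x - φ x) = fun x => D1 u x - D1 φ x := by
  ext x
  exact D1_sub (hu.differentiable (by norm_num) x) (hφ.differentiable (by norm_num) x)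

lemma z_D2 (hu : ContDiff ℝ 1 u) (hφ : ContDiff ℝ 1 φ) :
    D2 (fun x => u x - φ x) = fun x => D2 u x - D2 φ x := by
  ext x
  exact D2_sub (hu.differentiable (by norm_num) x) (hφ.differentiable (by norm_num) x)

lemma z_derivs (hu : ContDiff ℝ 3 u) (hφ : ContDiff ℝ 3 φ) (x : ℝ × ℝ) :
    D1 (fun x => u x - φ x) x = D1 u x - D1 φ x ∧
    D2 (fun x => u x - φ x) x = D2 u x - D2 φ x ∧
    D1 (D1 (fun x => u x - φ x)) x = D1 (D1 u) x - D1 (D1 φ) x ∧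
    D1 (D2 (fun x => u x - φ x)) x = D1 (D2 u) x - D1 (D2 φ) x ∧
    D2 (D2 (fun x => u x - φ x)) x = D2 (D2 u) x - D2 (D2 φ) x ∧
    D1 (D1 (D1 (fun x => u x - φ x))) x = D1 (D1 (D1 u)) x - D1 (D1 (D1 φ)) x ∧
    D1 (D1 (D2 (fun x => u x - φ x))) x = D1 (D1 (D2 u)) x - D1 (D1 (D2 φ)) x ∧
    D1 (D2 (D2 (fun x => u x - φ x))) x = D1 (D2 (D2 u)) x - D1 (D2 (D2 φ)) x ∧
    D2 (D2 (D2 (fun x => u x - φ x))) x = D2 (D2 (D2 u)) x - D2 (D2 (D2 φ)) x := by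
  have u1 : ContDiff ℝ 2 (D1 u) := cd_D1 (n := 2) hu
  have u2 : ContDiff ℝ 2 (D2 u) := cd_D2 (n := 2) hu
  have p1 : ContDiff ℝ 2 (D1 φ) := cd_D1 (n := 2) hφ
  have p2 : ContDiff ℝ 2 (D2 φ) := cd_D2 (n := 2) hφ
  have u11 : ContDiff ℝ 1 (D1 (D1 u)) := cd_D1 (n := 1) u1
  have u12 : ContDiff ℝ 1 (D1 (D2 u)) := cd_D1 (n := 1) u2
  have u22 : ContDiff ℝ 1 (D2 (D2 u)) := cd_D2 (n := 1) u2
  have p11 : ContDiff ℝ 1 (D1 (D1 φ)) := cd_D1 (n := 1) p1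
  have p12 : ContDiff ℝ 1 (D1 (D2 φ)) := cd_D1 (n := 1) p2
  have p22 : ContDiff ℝ 1 (D2 (D2 φ)) := cd_D2 (n := 1) p2
  have hu1 : ContDiff ℝ 1 u := hu.of_le (by norm_num)
  have hp1 : ContDiff ℝ 1 φ := hφ.of_le (by norm_num)
  rw [z_D1 hu1 hp1, z_D2 hu1 hp1, z_D1 (u1.of_le (by norm_num)) (p1.of_le (by norm_num)),
    z_D1 (u2.of_le (by norm_num)) (p2.of_le (by norm_num)),
    z_D2 (u2.of_le (by norm_num)) (p2.of_le (by norm_num)), z_D1 u11 p11, z_D1 u12 p12,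
    z_D1 u22 p22, z_D2 u22 p22]
  exact ⟨rfl, rfl, rfl, rfl, rfl, rfl, rfl, rfl, rfl⟩

end zfun

end AP
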