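import Pool.Agent.Lib_helper42.AP.Barrier

/-! The tangential barrier (Step 3). -/

namespace AP

open Set Filter Topology Metric

lemma wsum {a b p q M : ℝ} (ha : 0 ≤ a) (hb : 0 ≤ b) (hp : |p| ≤ M) (hq : |q| ≤ M) :
    |b * p + a * q| ≤ (b + a) * M := by
  have h1 := abs_le.1 hp
  have h2 := abs_le.1 hq
  rw [abs_le]
  constructor
  · nlinarith [mul_le_mul_of_nonneg_left h1.1 hb, mul_le_mul_of_nonneg_left h2.1 ha]
  · nlinarith [mul_le_mul_of_nonneg_left h1.2 hb, mul_le_mul_of_nonneg_left h2.2 ha]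

lemma abs_mul_le {p q A B : ℝ} (hp : |p| ≤ A) (hq : |q| ≤ B) : |p * q| ≤ A * B := by
  rw [abs_mul]
  exact mul_le_mul hp hq (abs_nonneg _) (le_trans (abs_nonneg _) hp)

lemma LPsi_bound {a b c w1 w2 w11 w12 w22 w111 w112 w122 w222 z1 z2 f11 f12 f22 f111 f112 f122
    f222 u111 u112 u122 u222 W K Z : ℝ} (ha : 0 < a) (hb : 0 < b)
    (h1 : u111 * b + a * u122 = 0) (h2 : u112 * b + a * u222 = 0)
    (hw1 : |w1| ≤ W) (hw2 : |w2| ≤ W) (hw11 : |w11| ≤ W) (hw12 : |w12| ≤ W) (hw22 : |w22| ≤ W)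
    (hw111 : |w111| ≤ W) (hw112 : |w112| ≤ W) (hw122 : |w122| ≤ W) (hw222 : |w222| ≤ W)
    (hz1 : |z1| ≤ Z) (hz2 : |z2| ≤ Z)
    (hf11 : |f11| ≤ K) (hf12 : |f12| ≤ K) (hf22 : |f22| ≤ K)
    (hf111 : |f111| ≤ K) (hf112 : |f112| ≤ K) (hf122 : |f122| ≤ K) (hf222 : |f222| ≤ K) :
    |b * (w112 * z1 + 2 * (w12 * (a - f11)) + w2 * (u111 - f111)
        - (w111 * z2 + 2 * (w11 * (c - f12)) + w1 * (u112 - f112)))
      + a * (w222 * z1 + 2 * (w22 * (c - f12)) + w2 * (u122 - f122)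
        - (w122 * z2 + 2 * (w12 * (b - f22)) + w1 * (u222 - f222)))|
    ≤ (b + a) * (2 * Z * W + 6 * W * K + 2 * W * |c|) := by
  have e : b * (w112 * z1 + 2 * (w12 * (a - f11)) + w2 * (u111 - f111)
        - (w111 * z2 + 2 * (w11 * (c - f12)) + w1 * (u112 - f112)))
      + a * (w222 * z1 + 2 * (w22 * (c - f12)) + w2 * (u122 - f122)
        - (w122 * z2 + 2 * (w12 * (b - f22)) + w1 * (u222 - f222)))
      = (b * w112 + a * w222) * z1 + (b * (-w111) + a * (-w122)) * z2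
        + (b * (-f11) + a * f22) * (2 * w12)
        + (b * (-w11) + a * w22) * (2 * (c - f12))
        + (b * (-f111) + a * (-f122)) * w2 + (b * f112 + a * f222) * w1 := by
    linear_combination w2 * h1 - w1 * h2
  rw [e]
  have hW : 0 ≤ W := le_trans (abs_nonneg _) hw1
  have hK : 0 ≤ K := le_trans (abs_nonneg _) hf11
  have hZ : 0 ≤ Z := le_trans (abs_nonneg _) hz1
  have t1 := abs_mul_le (wsum ha.le hb.le hw112 hw222) hz1
  have t2 := abs_mul_le (wsum ha.le hb.le (by rwa [abs_neg]) (by rwa [abs_neg]) :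
    |b * (-w111) + a * (-w122)| ≤ (b + a) * W) hz2
  have t3 : |(b * (-f11) + a * f22) * (2 * w12)| ≤ (b + a) * K * (2 * W) :=
    abs_mul_le (wsum ha.le hb.le (by rwa [abs_neg]) hf22)
      (by rw [abs_mul, abs_two]; linarith)
  have hc : |c - f12| ≤ |c| + K := by
    have := abs_sub c f12
    linarith
  have t4 : |(b * (-w11) + a * w22) * (2 * (c - f12))| ≤ (b + a) * W * (2 * (|c| + K)) :=
    abs_mul_le (wsum ha.le hb.le (by rwa [abs_neg]) hw22)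
      (by rw [abs_mul, abs_two]; linarith)
  have t5 := abs_mul_le (wsum ha.le hb.le (by rwa [abs_neg]) (by rwa [abs_neg]) :
    |b * (-f111) + a * (-f122)| ≤ (b + a) * K) hw2
  have t6 := abs_mul_le (wsum ha.le hb.le hf112 hf222) hw1
  have s1 := abs_add_le ((b * w112 + a * w222) * z1 + (b * (-w111) + a * (-w122)) * z2
        + (b * (-f11) + a * f22) * (2 * w12)
        + (b * (-w11) + a * w22) * (2 * (c - f12))
        + (b * (-f111) + a * (-f122)) * w2) ((b * f112 + a * f222) * w1)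
  have s2 := abs_add_le ((b * w112 + a * w222) * z1 + (b * (-w111) + a * (-w122)) * z2
        + (b * (-f11) + a * f22) * (2 * w12)
        + (b * (-w11) + a * w22) * (2 * (c - f12))) ((b * (-f111) + a * (-f122)) * w2)
  have s3 := abs_add_le ((b * w112 + a * w222) * z1 + (b * (-w111) + a * (-w122)) * z2
        + (b * (-f11) + a * f22) * (2 * w12)) ((b * (-w11) + a * w22) * (2 * (c - f12)))
  have s4 := abs_add_le ((b * w112 + a * w222) * z1 + (b * (-w111) + a * (-w122)) * z2)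
    ((b * (-f11) + a * f22) * (2 * w12))
  have s5 := abs_add_le ((b * w112 + a * w222) * z1) ((b * (-w111) + a * (-w122)) * z2)
  linarith

lemma sq_half {p R ρ : ℝ} (hR : |R| ≤ ρ) : p ^ 2 / 2 - ρ ^ 2 ≤ (p + R) ^ 2 := by
  have h1 : R ^ 2 ≤ ρ ^ 2 := by
    rw [← sq_abs R]; exact pow_le_pow_left₀ (abs_nonneg _) hR 2
  nlinarith [sq_nonneg (p / 2 + R), sq_nonneg (p + 2 * R)]

lemma quad_bound {a b c w1 w2 R1 R2 ρ W σ : ℝ} (ha : 0 < a) (hb : 0 < b) (hab : a * b = 1)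
    (hR1 : |R1| ≤ ρ) (hR2 : |R2| ≤ ρ) (hw1 : |w1| ≤ W) (hw2 : |w2| ≤ W)
    (hell : σ * (b + a) ≤ b * w1 ^ 2 + a * w2 ^ 2) :
    (σ * (b + a) * c ^ 2 - 4 * W ^ 2 * |c|) / 2 - ρ ^ 2 * (b + a) ≤
      b * (w2 * a - w1 * c + R1) ^ 2 + a * (w2 * c - w1 * b + R2) ^ 2 := by
  have h1 := mul_le_mul_of_nonneg_left (sq_half (p := w2 * a - w1 * c) hR1) hb.le
  have h2 := mul_le_mul_of_nonneg_left (sq_half (p := w2 * c - w1 * b) hR2) ha.le
  have e : b * (w2 * a - w1 * c) ^ 2 + a * (w2 * c - w1 * b) ^ 2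
      = w2 ^ 2 * a + w1 ^ 2 * b - 4 * (w1 * w2 * c) + (b * w1 ^ 2 + a * w2 ^ 2) * c ^ 2 := by
    linear_combination (w2 ^ 2 * a - 4 * w1 * w2 * c + w1 ^ 2 * b) * hab
  have h3 : w1 * w2 * c ≤ W ^ 2 * |c| := by
    calc w1 * w2 * c ≤ |w1 * w2 * c| := le_abs_self _
      _ = |w1| * |w2| * |c| := by rw [abs_mul, abs_mul]
      _ ≤ W * W * |c| := by
        apply mul_le_mul_of_nonneg_right _ (abs_nonneg _)
        exact mul_le_mul hw1 hw2 (abs_nonneg _) (le_trans (abs_nonneg _) hw1)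
      _ = W ^ 2 * |c| := by ring
  have h4 := mul_le_mul_of_nonneg_right hell (sq_nonneg c)
  have h5 : 0 ≤ w2 ^ 2 * a := by positivity
  have h6 : 0 ≤ w1 ^ 2 * b := by positivity
  nlinarith

/-- the final inequality of the barrier computation -/
lemma barrier_alg {S c c₀ A B ρ Z W K σ L Q Ψ Lw : ℝ} (hS : 1 ≤ S) (hσ : 0 < σ)
    (hZ : 0 ≤ Z) (hW : 0 ≤ W) (hA0 : 0 ≤ A)
    (hL : |L| ≤ S * (2 * Z * W + 6 * W * K + 2 * W * |c|))
    (hQ : (σ * S * c ^ 2 - 4 * W ^ 2 * |c|) / 2 - ρ ^ 2 * S ≤ Q)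
    (hΨ : |Ψ| ≤ 2 * W * Z) (hLw : c₀ * S ≤ Lw)
    (hA : 2 * B + 2 * ρ ^ 2 + (4 * W * Z + 1) * (2 * Z * W + 6 * W * K)
      + ((4 * W * Z + 1) * (2 * W) + 4 * W ^ 2) ^ 2 / (4 * σ) ≤ A * c₀)
    (τ : ℝ) (hτ : |τ| ≤ 1) :
    -(A * Lw) + 2 * B * S - (2 * (Ψ * L) + 2 * Q) + τ * L ≤ 0 := by
  have h1 : |2 * Ψ - τ| ≤ 4 * W * Z + 1 := by
    calc |2 * Ψ - τ| ≤ |2 * Ψ| + |τ| := abs_sub _ _
      _ = 2 * |Ψ| + |τ| := by rw [abs_mul, abs_two]
      _ ≤ 4 * W * Z + 1 := by linarith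
  have h2 : -((2 * Ψ - τ) * L) ≤ (4 * W * Z + 1) * (S * (2 * Z * W + 6 * W * K + 2 * W * |c|)) := by
    have := abs_mul_le h1 hL
    have h3 := neg_abs_le ((2 * Ψ - τ) * L)
    linarith
  have h3 := mul_le_mul_of_nonneg_left hLw hA0
  have h4 := mul_le_mul_of_nonneg_right hA (by linarith : (0 : ℝ) ≤ S)
  set q := (4 * W * Z + 1) * (2 * W) + 4 * W ^ 2 with hq
  have h5 : q * |c| ≤ σ * c ^ 2 + q ^ 2 / (4 * σ) := by
    have : 0 ≤ (2 * σ * |c| - q) ^ 2 / (4 * σ) := by positivity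
    have e : (2 * σ * |c| - q) ^ 2 / (4 * σ) = σ * |c| ^ 2 - q * |c| + q ^ 2 / (4 * σ) := by
      field_simp; ring
    rw [e, sq_abs] at this
    linarith
  have h6 := mul_le_mul_of_nonneg_right h5 (by linarith : (0 : ℝ) ≤ S)
  have h7 : 4 * W ^ 2 * |c| ≤ 4 * W ^ 2 * |c| * S := by
    have : 0 ≤ 4 * W ^ 2 * |c| := by positivity
    nlinarith
  nlinarith

end AP
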