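import Pool.Agent.Lib_helper42.AP.Barrier2

/-! The tangential barrier (Step 3): main statement. -/

namespace AP

open Set Filter Topology Metric

variable {w φ u : ℝ × ℝ → ℝ} {Ω : Set (ℝ × ℝ)} {c₀ K N : ℝ}

/-- the bracket of a function vanishing on the boundary vanishes on the boundary -/
lemma Br_zero (hD : Dom w Ω c₀) {z : ℝ × ℝ → ℝ} (hz : ContDiff ℝ 1 z)
    (h0 : ∀ x ∈ frontier Ω, z x = 0) : ∀ x ∈ frontier Ω, Br w z x = 0 := by
  intro x hx
  obtain ⟨μ, h1, h2⟩ := hD.multiplier0 hx hz.contDiffAt h0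
  unfold Br
  rw [h1, h2]; ring

lemma frontier_inter_ball {P : ℝ × ℝ} {r : ℝ} {x : ℝ × ℝ} (hΩ : IsOpen Ω)
    (hx : x ∈ frontier (Ω ∩ ball P r)) :
    (x ∈ frontier Ω) ∨ (x ∈ closure Ω ∧ r ≤ dist x P) := by
  have hU : IsOpen (Ω ∩ ball P r) := hΩ.inter isOpen_ball
  rw [frontier, hU.interior_eq] at hx
  have h1 : x ∈ closure Ω := closure_mono inter_subset_left hx.1
  by_cases hxΩ : x ∈ Ω
  · right
    refine ⟨h1, ?_⟩
    by_contra hcon
    push Not at hcon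
    exact hx.2 ⟨hxΩ, mem_ball.2 hcon⟩
  · left
    rw [frontier, hΩ.interior_eq]; exact ⟨h1, hxΩ⟩

lemma sq_dist_le {x P : ℝ × ℝ} {r : ℝ} (hr : 0 ≤ r) (h : r ≤ dist x P) :
    r ^ 2 ≤ (x.1 - P.1) ^ 2 + (x.2 - P.2) ^ 2 := by
  rw [Prod.dist_eq] at h
  rcases le_max_iff.1 h with h1 | h1
  · rw [Real.dist_eq] at h1
    have : r ^ 2 ≤ |x.1 - P.1| ^ 2 := pow_le_pow_left₀ hr h1 2
    rw [sq_abs] at this
    nlinarith [sq_nonneg (x.2 - P.2)]
  · rw [Real.dist_eq] at h1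
    have : r ^ 2 ≤ |x.2 - P.2| ^ 2 := pow_le_pow_left₀ hr h1 2
    rw [sq_abs] at this
    nlinarith [sq_nonneg (x.1 - P.1)]

lemma Psi_bound {w1 w2 z1 z2 W Z : ℝ} (hw1 : |w1| ≤ W) (hw2 : |w2| ≤ W) (hz1 : |z1| ≤ Z)
    (hz2 : |z2| ≤ Z) : |w2 * z1 - w1 * z2| ≤ 2 * W * Z := by
  have h1 := abs_mul_le hw2 hz1
  have h2 := abs_mul_le hw1 hz2
  have h3 := abs_sub (w2 * z1) (w1 * z2)
  linarith

lemma R_bound {p q r s z1 z2 f g W Z K : ℝ} (hp : |p| ≤ W) (hq : |q| ≤ W) (hr : |r| ≤ W)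
    (hs : |s| ≤ W) (hz1 : |z1| ≤ Z) (hz2 : |z2| ≤ Z) (hf : |f| ≤ K) (hg : |g| ≤ K) :
    |p * z1 - q * f - r * z2 + s * g| ≤ 2 * W * (Z + K) := by
  have h1 := abs_mul_le hp hz1
  have h2 := abs_mul_le hq hf
  have h3 := abs_mul_le hr hz2
  have h4 := abs_mul_le hs hg
  have h5 := abs_add_le (p * z1 - q * f - r * z2) (s * g)
  have h6 := abs_sub (p * z1 - q * f) (r * z2)
  have h7 := abs_sub (p * z1) (q * f)
  linarith

lemma fin_alg {A B τ Ψ b a w11 w22 P11 P22 P1 P2 : ℝ}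
    (h : -(A * (b * w11 + a * w22)) + 2 * B * (b + a)
      - (2 * (Ψ * (b * P11 + a * P22)) + 2 * (b * P1 ^ 2 + a * P2 ^ 2))
      + τ * (b * P11 + a * P22) ≤ 0) :
    0 ≤ b * (A * w11 - B * (2 + 0) + (P11 * Ψ + 2 * (P1 * P1) + Ψ * P11) - τ * P11)
      + a * (A * w22 - B * (0 + 2) + (P22 * Ψ + 2 * (P2 * P2) + Ψ * P22) - τ * P22) := by
  linarith

lemma one_le_add_of_mul {a b : ℝ} (ha : 0 < a) (hb : 0 < b) (h : a * b = 1) : 1 ≤ b + a := by
  nlinarith [sq_nonneg (b - a)]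

lemma Lw_bound {a b w11 w22 c : ℝ} (ha : 0 ≤ a) (hb : 0 ≤ b) (h1 : c ≤ w11) (h2 : c ≤ w22) :
    c * (b + a) ≤ b * w11 + a * w22 := by
  nlinarith [mul_le_mul_of_nonneg_left h1 hb, mul_le_mul_of_nonneg_left h2 ha]

theorem tangential_barrier (hD : Dom w Ω c₀) (hS : Sol φ u Ω) {K W Z σ r A B : ℝ}
    (hφ : ∀ x, BdAt φ x K) (hW : ∀ x ∈ closure Ω, BdAt w x W)
    (hZ : ∀ x ∈ closure Ω, |D1 u x - D1 φ x| ≤ Z ∧ |D2 u x - D2 φ x| ≤ Z)
    {P : ℝ × ℝ} (hP : P ∈ frontier Ω) (hr : 0 < r) (hσ : 0 < σ)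
    (hell : ∀ x ∈ Ω, dist x P < r → σ * (D2 (D2 u) x + D1 (D1 u) x) ≤
      D2 (D2 u) x * (D1 w x) ^ 2 + D1 (D1 u) x * (D2 w x) ^ 2)
    (hB : (2 * W * Z) ^ 2 + 2 * W * Z ≤ B * r ^ 2) (hB0 : 0 ≤ B) (hA0 : 0 ≤ A)
    (hA : 2 * B + 2 * (2 * W * (Z + K)) ^ 2 + (4 * W * Z + 1) * (2 * Z * W + 6 * W * K)
      + ((4 * W * Z + 1) * (2 * W) + 4 * W ^ 2) ^ 2 / (4 * σ) ≤ A * c₀) :
    ∃ μ : ℝ, |μ| ≤ A ∧ D1 (Br w (fun x => u x - φ x)) P = μ * D1 w P ∧
      D2 (Br w (fun x => u x - φ x)) P = μ * D2 w P := by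
  set z : ℝ × ℝ → ℝ := fun x => u x - φ x with hz
  have hz3 : ContDiff ℝ 3 z := hS.su.sub hS.sφ
  have hw3 := hD.smooth
  set Ψ := Br w z with hΨ
  have hΨ2 : ContDiff ℝ 2 Ψ := Br_contDiff (n := 2) hw3 hz3
  have hz0 : ∀ x ∈ frontier Ω, z x = 0 := fun x hx => by simp only [hz, hS.bc x hx, sub_self]
  have hΨ0 : ∀ x ∈ frontier Ω, Ψ x = 0 := Br_zero hD (hz3.of_le (by norm_num)) hz0
  obtain ⟨μ, hμ1, hμ2⟩ := hD.multiplier0 hP (hΨ2.of_le (by norm_num)).contDiffAt hΨ0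
  have hWP := hW P (frontier_subset_closure hP)
  have hW0 : 0 ≤ W := le_trans (abs_nonneg _) hWP.b0
  have hZ0 : 0 ≤ Z := le_trans (abs_nonneg _) (hZ P (frontier_subset_closure hP)).1
  -- bound of Ψ on the closure
  have hΨb : ∀ x ∈ closure Ω, |Ψ x| ≤ 2 * W * Z := by
    intro x hx
    obtain ⟨e1, e2, -⟩ := z_derivs hS.su hS.sφ x
    have := Psi_bound (hW x hx).b1 (hW x hx).b2 (hZ x hx).1 (hZ x hx).2
    rw [← e1, ← e2] at this
    exact this
  -- the main inequality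
  have main : ∀ τ : ℝ, |τ| ≤ 1 → ∀ x ∈ Ω ∩ ball P r,
      A * w x - B * ((x.1 - P.1) ^ 2 + (x.2 - P.2) ^ 2) + Ψ x * Ψ x - τ * Ψ x ≤ 0 := by
    intro τ hτ
    have hUo : IsOpen (Ω ∩ ball P r) := hD.isOpen.inter isOpen_ball
    have hUb : Bornology.IsBounded (Ω ∩ ball P r) := hD.bdd.subset inter_subset_left
    set q1 : ℝ × ℝ → ℝ := fun x => (x.1 - P.1) ^ 2 with hq1
    set q2 : ℝ × ℝ → ℝ := fun x => (x.2 - P.2) ^ 2 with hq2
    have cq1 : ContDiff ℝ 2 q1 := by simp only [hq1]; fun_prop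
    have cq2 : ContDiff ℝ 2 q2 := by simp only [hq2]; fun_prop
    have hw2 := hD.w_cd2
    have cA : ContDiff ℝ 2 (fun x => A * w x) := contDiff_const.mul hw2
    have cq : ContDiff ℝ 2 (fun x => q1 x + q2 x) := cq1.add cq2
    have cB : ContDiff ℝ 2 (fun x => B * (q1 x + q2 x)) := contDiff_const.mul cq
    have cΨ : ContDiff ℝ 2 (fun x => Ψ x * Ψ x) := hΨ2.mul hΨ2
    have cτ : ContDiff ℝ 2 (fun x => τ * Ψ x) := contDiff_const.mul hΨ2
    have c1 : ContDiff ℝ 2 (fun x => A * w x - B * (q1 x + q2 x)) := cA.sub cB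
    have c2 : ContDiff ℝ 2 (fun x => A * w x - B * (q1 x + q2 x) + Ψ x * Ψ x) := c1.add cΨ
    have c3 : ContDiff ℝ 2 (fun x => A * w x - B * (q1 x + q2 x) + Ψ x * Ψ x - τ * Ψ x) :=
      c2.sub cτ
    have key := max_principle hUo hUb
      (g := fun x => A * w x - B * (q1 x + q2 x) + Ψ x * Ψ x - τ * Ψ x)
      c3.continuous.continuousOn (fun x _ => c3.contDiffAt)
      (fun x hx => by
        have hxΩ : x ∈ Ω := hx.1
        have hxc : x ∈ closure Ω := subset_closure hxΩ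
        have hxr : dist x P < r := mem_ball.1 hx.2
        have ha := hS.p1 x hxΩ
        have hb := hS.p2 x hxΩ
        have hab := hS.eq x hxΩ
        refine ⟨_, _, hb, ha, ?_⟩
        obtain ⟨e1, e2, e11, e12, e22, e111, e112, e122, e222⟩ := z_derivs hS.su hS.sφ x
        have hWx := hW x hxc
        have hφx := hφ x
        have hZx := hZ x hxc
        have d11 := D11_Br hw3 hz3 x
        have d22 := D22_Br hw3 hz3 x
        have d1 := D1_Br hw2 (hz3.of_le (by norm_num)) x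
        have d2 := D2_Br hw2 (hz3.of_le (by norm_num)) x
        rw [← hz] at e1 e2 e11 e12 e22 e111 e112 e122 e222
        rw [← hΨ, e1, e2, e11, e12, e111, e112] at d11
        rw [← hΨ, e1, e2, e12, e22, e122, e222] at d22
        rw [← hΨ, e1, e2, e11, e12] at d1
        rw [← hΨ, e1, e2, e12, e22] at d2
        have f11 : D1 (D1 (fun x => A * w x - B * (q1 x + q2 x) + Ψ x * Ψ x - τ * Ψ x)) x
            = A * D1 (D1 w) x - B * (2 + 0)
              + (D1 (D1 Ψ) x * Ψ x + 2 * (D1 Ψ x * D1 Ψ x) + Ψ x * D1 (D1 Ψ) x)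
              - τ * D1 (D1 Ψ) x := by
          rw [D11_sub c2.contDiffAt cτ.contDiffAt, D11_add c1.contDiffAt cΨ.contDiffAt,
            D11_sub cA.contDiffAt cB.contDiffAt, D11_const_mul _ hw2.contDiffAt,
            D11_const_mul _ cq.contDiffAt, D11_add cq1.contDiffAt cq2.contDiffAt,
            D11_mul hΨ2.contDiffAt hΨ2.contDiffAt, D11_const_mul _ hΨ2.contDiffAt]
          rw [hq1, hq2, D11_sq1, D11_sq2]
        have f22 : D2 (D2 (fun x => A * w x - B * (q1 x + q2 x) + Ψ x * Ψ x - τ * Ψ x)) x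
            = A * D2 (D2 w) x - B * (0 + 2)
              + (D2 (D2 Ψ) x * Ψ x + 2 * (D2 Ψ x * D2 Ψ x) + Ψ x * D2 (D2 Ψ) x)
              - τ * D2 (D2 Ψ) x := by
          rw [D22_sub c2.contDiffAt cτ.contDiffAt, D22_add c1.contDiffAt cΨ.contDiffAt,
            D22_sub cA.contDiffAt cB.contDiffAt, D22_const_mul _ hw2.contDiffAt,
            D22_const_mul _ cq.contDiffAt, D22_add cq1.contDiffAt cq2.contDiffAt,
            D22_mul hΨ2.contDiffAt hΨ2.contDiffAt, D22_const_mul _ hΨ2.contDiffAt]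
          rw [hq1, hq2, D22_sq1, D22_sq2]
        rw [f11, f22]
        -- apply the algebra
        have L1 := LPsi_bound (c := D1 (D2 u) x) ha hb (hS.diff1 hD.isOpen hxΩ)
          (hS.diff2 hD.isOpen hxΩ) hWx.b1 hWx.b2 hWx.b11 hWx.b12 hWx.b22 hWx.b111 hWx.b112
          hWx.b122 hWx.b222 hZx.1 hZx.2 hφx.b11 hφx.b12 hφx.b22 hφx.b111 hφx.b112 hφx.b122
          hφx.b222
        rw [← d11, ← d22] at L1
        have R1b := R_bound (s := D1 w x) hWx.b12 hWx.b2 hWx.b11 hWx.b1 hZx.1 hZx.2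
          hφx.b11 hφx.b12
        have R2b := R_bound (s := D1 w x) hWx.b22 hWx.b2 hWx.b12 hWx.b1 hZx.1 hZx.2
          hφx.b12 hφx.b22
        have Q := quad_bound (c := D1 (D2 u) x) ha hb hab R1b R2b hWx.b1 hWx.b2
          (hell x hxΩ hxr)
        have eQ1 : D2 w x * D1 (D1 u) x - D1 w x * D1 (D2 u) x +
          (D1 (D2 w) x * (D1 u x - D1 φ x) - D2 w x * D1 (D1 φ) x
            - D1 (D1 w) x * (D2 u x - D2 φ x) + D1 w x * D1 (D2 φ) x) = D1 Ψ x := by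
          rw [d1]; ring
        have eQ2 : D2 w x * D1 (D2 u) x - D1 w x * D2 (D2 u) x +
          (D2 (D2 w) x * (D1 u x - D1 φ x) - D2 w x * D1 (D2 φ) x
            - D1 (D2 w) x * (D2 u x - D2 φ x) + D1 w x * D2 (D2 φ) x) = D2 Ψ x := by
          rw [d2]; ring
        rw [eQ1, eQ2] at Q
        have hS1 : 1 ≤ D2 (D2 u) x + D1 (D1 u) x := one_le_add_of_mul ha hb hab
        have hLw : c₀ * (D2 (D2 u) x + D1 (D1 u) x) ≤
            D2 (D2 u) x * D1 (D1 w) x + D1 (D1 u) x * D2 (D2 w) x :=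
          Lw_bound ha.le hb.le (hD.w11 x) (hD.w22 x)
        have fin := barrier_alg hS1 hσ hZ0 hW0 hA0 L1 Q (hΨb x hxc) hLw hA τ hτ
        exact fin_alg fin) (m := 0)
      (fun x hx => by
        rcases frontier_inter_ball hD.isOpen hx with h1 | ⟨h1, h2⟩
        · simp only [hD.zero x h1, hΨ0 x h1, hq1, hq2]
          have : 0 ≤ B * ((x.1 - P.1) ^ 2 + (x.2 - P.2) ^ 2) := by positivity
          linarith
        · have h3 := sq_dist_le hr.le h2
          have h4 := mul_le_mul_of_nonneg_left h3 hB0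
          have h5 := hΨb x h1
          have h6 : Ψ x * Ψ x ≤ (2 * W * Z) ^ 2 := by
            rw [← sq, ← sq_abs]
            exact pow_le_pow_left₀ (abs_nonneg _) h5 2
          have h7 : -(τ * Ψ x) ≤ 2 * W * Z := by
            have := abs_mul_le hτ h5
            have := neg_abs_le (τ * Ψ x)
            linarith
          have h8 : A * w x ≤ 0 := mul_nonpos_of_nonneg_of_nonpos hA0 (hD.le h1)
          simp only [hq1, hq2]
          linarith)
    intro x hx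
    have := key x (subset_closure hx)
    simpa [hq1, hq2] using this
  -- conclusion at `P`
  have hpos := hD.grad_sq_pos hP
  have concl : ∀ τ : ℝ, |τ| ≤ 1 → τ * μ ≤ A := by
    intro τ hτ
    have hcd : ContDiff ℝ 2 (fun x : ℝ × ℝ =>
        B * ((x.1 - P.1) ^ 2 + (x.2 - P.2) ^ 2) - A * w x - Ψ x * Ψ x + τ * Ψ x) := by
      have hw2 := hD.w_cd2
      fun_prop
    have s := hD.inner_sign hP (h := fun x : ℝ × ℝ =>
        B * ((x.1 - P.1) ^ 2 + (x.2 - P.2) ^ 2) - A * w x - Ψ x * Ψ x + τ * Ψ x)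
      (hcd.differentiable (by norm_num) P)
      (by
        filter_upwards [ball_mem_nhds P hr] with x hx hxΩ
        have := main τ hτ x ⟨hxΩ, hx⟩
        simp only [hΨ0 P hP, hD.zero P hP, sub_self]
        linarith)
    have dw : DifferentiableAt ℝ w P := hD.diff P
    have dΨ : DifferentiableAt ℝ Ψ P := hΨ2.differentiable (by norm_num) P
    have g1 : D1 (fun x : ℝ × ℝ =>
        B * ((x.1 - P.1) ^ 2 + (x.2 - P.2) ^ 2) - A * w x - Ψ x * Ψ x + τ * Ψ x) P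
        = -(A * D1 w P) + τ * D1 Ψ P := by
      rw [D1_add (by fun_prop) (by fun_prop), D1_sub (by fun_prop) (by fun_prop),
        D1_sub (by fun_prop) (by fun_prop), D1_const_mul _ (by fun_prop),
        D1_add (by fun_prop) (by fun_prop), D1_sq1, D1_sq2, D1_const_mul _ dw,
        D1_mul dΨ dΨ, D1_const_mul _ dΨ, hΨ0 P hP]
      ring
    have g2 : D2 (fun x : ℝ × ℝ =>
        B * ((x.1 - P.1) ^ 2 + (x.2 - P.2) ^ 2) - A * w x - Ψ x * Ψ x + τ * Ψ x) P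
        = -(A * D2 w P) + τ * D2 Ψ P := by
      rw [D2_add (by fun_prop) (by fun_prop), D2_sub (by fun_prop) (by fun_prop),
        D2_sub (by fun_prop) (by fun_prop), D2_const_mul _ (by fun_prop),
        D2_add (by fun_prop) (by fun_prop), D2_sq1, D2_sq2, D2_const_mul _ dw,
        D2_mul dΨ dΨ, D2_const_mul _ dΨ, hΨ0 P hP]
      ring
    rw [g1, g2, hμ1, hμ2] at s
    by_contra hcon
    push Not at hcon
    nlinarith
  refine ⟨μ, ?_, hμ1, hμ2⟩
  rw [abs_le]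
  have t1 := concl 1 (by simp)
  have t2 := concl (-1) (by simp)
  constructor <;> linarith

end AP
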