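import Mathlib

/-! Calculus of the two partial derivatives on `ℝ × ℝ`. -/

namespace AP

open Set Filter Topology Metric

/-- first partial derivative -/
noncomputable def D1 (f : ℝ × ℝ → ℝ) (x : ℝ × ℝ) : ℝ := fderiv ℝ f x (1, 0)

/-- second partial derivative -/
noncomputable def D2 (f : ℝ × ℝ → ℝ) (x : ℝ × ℝ) : ℝ := fderiv ℝ f x (0, 1)

lemma fderiv_apply_eq (f : ℝ × ℝ → ℝ) (x v : ℝ × ℝ) :
    fderiv ℝ f x v = v.1 * D1 f x + v.2 * D2 f x := by
  have h : v = v.1 • ((1 : ℝ), (0 : ℝ)) + v.2 • ((0 : ℝ), (1 : ℝ)) := by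
    ext <;> simp
  conv_lhs => rw [h]
  rw [map_add, map_smul, map_smul]
  simp [D1, D2]

section reg

variable {f g : ℝ × ℝ → ℝ} {x : ℝ × ℝ}

lemma cda_D1 {n : ℕ} (h : ContDiffAt ℝ (n + 1 : ℕ) f x) : ContDiffAt ℝ n (D1 f) x := by
  have h1 : ContDiffAt ℝ n (fderiv ℝ f) x := h.fderiv_right (by norm_cast)
  exact h1.clm_apply contDiffAt_const

lemma cda_D2 {n : ℕ} (h : ContDiffAt ℝ (n + 1 : ℕ) f x) : ContDiffAt ℝ n (D2 f) x := by
  have h1 : ContDiffAt ℝ n (fderiv ℝ f) x := h.fderiv_right (by norm_cast)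
  exact h1.clm_apply contDiffAt_const

lemma cd_D1 {n : ℕ} (h : ContDiff ℝ (n + 1 : ℕ) f) : ContDiff ℝ n (D1 f) :=
  contDiff_iff_contDiffAt.2 fun _ => cda_D1 h.contDiffAt

lemma cd_D2 {n : ℕ} (h : ContDiff ℝ (n + 1 : ℕ) f) : ContDiff ℝ n (D2 f) :=
  contDiff_iff_contDiffAt.2 fun _ => cda_D2 h.contDiffAt

lemma D1_add (hf : DifferentiableAt ℝ f x) (hg : DifferentiableAt ℝ g x) :
    D1 (fun y => f y + g y) x = D1 f x + D1 g x := by
  simp only [D1]; rw [fderiv_fun_add hf hg]; rfl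

lemma D2_add (hf : DifferentiableAt ℝ f x) (hg : DifferentiableAt ℝ g x) :
    D2 (fun y => f y + g y) x = D2 f x + D2 g x := by
  simp only [D2]; rw [fderiv_fun_add hf hg]; rfl

lemma D1_sub (hf : DifferentiableAt ℝ f x) (hg : DifferentiableAt ℝ g x) :
    D1 (fun y => f y - g y) x = D1 f x - D1 g x := by
  simp only [D1]; rw [fderiv_fun_sub hf hg]; rfl

lemma D2_sub (hf : DifferentiableAt ℝ f x) (hg : DifferentiableAt ℝ g x) :
    D2 (fun y => f y - g y) x = D2 f x - D2 g x := by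
  simp only [D2]; rw [fderiv_fun_sub hf hg]; rfl

lemma D1_mul (hf : DifferentiableAt ℝ f x) (hg : DifferentiableAt ℝ g x) :
    D1 (fun y => f y * g y) x = D1 f x * g x + f x * D1 g x := by
  simp only [D1]; rw [fderiv_fun_mul hf hg]
  simp only [add_apply, smul_apply, smul_eq_mul]; ring

lemma D2_mul (hf : DifferentiableAt ℝ f x) (hg : DifferentiableAt ℝ g x) :
    D2 (fun y => f y * g y) x = D2 f x * g x + f x * D2 g x := by
  simp only [D2]; rw [fderiv_fun_mul hf hg]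
  simp only [add_apply, smul_apply, smul_eq_mul]; ring

lemma D1_neg : D1 (fun y => -f y) x = -D1 f x := by
  simp only [D1]; rw [fderiv_fun_neg]; rfl

lemma D2_neg : D2 (fun y => -f y) x = -D2 f x := by
  simp only [D2]; rw [fderiv_fun_neg]; rfl

lemma D1_const_mul (c : ℝ) (hf : DifferentiableAt ℝ f x) :
    D1 (fun y => c * f y) x = c * D1 f x := by
  simp only [D1]; rw [fderiv_const_mul hf]; simp

lemma D2_const_mul (c : ℝ) (hf : DifferentiableAt ℝ f x) :
    D2 (fun y => c * f y) x = c * D2 f x := by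
  simp only [D2]; rw [fderiv_const_mul hf]; simp

lemma D1_const (c : ℝ) : D1 (fun _ => c) x = 0 := by
  simp [D1]

lemma D2_const (c : ℝ) : D2 (fun _ => c) x = 0 := by
  simp [D2]

lemma D1_congr (h : f =ᶠ[𝓝 x] g) : D1 f x = D1 g x := by
  simp only [D1]; rw [h.fderiv_eq]

lemma D2_congr (h : f =ᶠ[𝓝 x] g) : D2 f x = D2 g x := by
  simp only [D2]; rw [h.fderiv_eq]

lemma D12_comm (h : ContDiffAt ℝ 2 f x) : D1 (D2 f) x = D2 (D1 f) x := by
  have hs : IsSymmSndFDerivAt ℝ f x := h.isSymmSndFDerivAt (by simp)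
  have hd : DifferentiableAt ℝ (fderiv ℝ f) x :=
    ((h.fderiv_right (m := 1) (by norm_num)).differentiableAt (by norm_num))
  have e1 : D1 (D2 f) x = fderiv ℝ (fderiv ℝ f) x (1, 0) (0, 1) := by
    unfold D1 D2
    rw [fderiv_clm_apply hd (differentiableAt_const _)]
    simp
  have e2 : D2 (D1 f) x = fderiv ℝ (fderiv ℝ f) x (0, 1) (1, 0) := by
    unfold D1 D2
    rw [fderiv_clm_apply hd (differentiableAt_const _)]
    simp
  rw [e1, e2]
  exact hs _ _

end reg

section slices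

variable {f : ℝ × ℝ → ℝ}

lemma hasDerivAt_slice1 {t y : ℝ} (h : DifferentiableAt ℝ f (t, y)) :
    HasDerivAt (fun s => f (s, y)) (D1 f (t, y)) t := by
  have h1 : HasFDerivAt f (fderiv ℝ f (t, y)) (t, y) := h.hasFDerivAt
  have h2 : HasDerivAt (fun s : ℝ => (s, y)) ((1 : ℝ), (0 : ℝ)) t :=
    (hasDerivAt_id t).prodMk (hasDerivAt_const t y)
  exact h1.comp_hasDerivAt t h2

lemma hasDerivAt_slice2 {t y : ℝ} (h : DifferentiableAt ℝ f (t, y)) :
    HasDerivAt (fun s => f (t, s)) (D2 f (t, y)) y := by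
  have h1 : HasFDerivAt f (fderiv ℝ f (t, y)) (t, y) := h.hasFDerivAt
  have h2 : HasDerivAt (fun s : ℝ => (t, s)) ((0 : ℝ), (1 : ℝ)) y :=
    (hasDerivAt_const y t).prodMk (hasDerivAt_id y)
  exact h1.comp_hasDerivAt y h2

/-- derivative along a line -/
lemma hasDerivAt_line {x e : ℝ × ℝ} {t : ℝ} (h : DifferentiableAt ℝ f (x + t • e)) :
    HasDerivAt (fun s : ℝ => f (x + s • e))
      (e.1 * D1 f (x + t • e) + e.2 * D2 f (x + t • e)) t := by
  have h1 : HasFDerivAt f (fderiv ℝ f (x + t • e)) (x + t • e) := h.hasFDerivAt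
  have h2 : HasDerivAt (fun s : ℝ => x + s • e) e t := by
    have := ((hasDerivAt_id t).smul_const e).const_add x
    simpa using this
  have h3 := h1.comp_hasDerivAt t h2
  rw [fderiv_apply_eq] at h3
  exact h3

end slices

section secondtest

lemma deriv2_nonpos_of_isLocalMax {g : ℝ → ℝ} {t : ℝ} (hmax : IsLocalMax g t)
    (hc : ContinuousAt g t) : deriv (deriv g) t ≤ 0 := by
  by_contra hcon
  push Not at hcon
  have hd : deriv g t = 0 := hmax.deriv_eq_zero
  have hmin : IsLocalMin g t := isLocalMin_of_deriv_deriv_pos hcon hd hc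
  have heq : g =ᶠ[𝓝 t] fun _ => g t := by
    filter_upwards [hmax, hmin] with s h1 h2
    exact le_antisymm h1 h2
  have h1 : deriv g =ᶠ[𝓝 t] deriv (fun _ => g t) := heq.deriv
  have h2 : deriv (deriv g) t = deriv (deriv (fun _ => g t)) t := h1.deriv_eq
  simp at h2
  linarith

variable {f : ℝ × ℝ → ℝ} {x : ℝ × ℝ}

lemma eventually_diff_slice1 (h : ContDiffAt ℝ 2 f x) :
    ∀ᶠ s in 𝓝 x.1, ContDiffAt ℝ 2 f (s, x.2) := by
  have h1 : ∀ᶠ y in 𝓝 x, ContDiffAt ℝ 2 f y := h.eventually (by simp)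
  have h2 : Tendsto (fun s : ℝ => (s, x.2)) (𝓝 x.1) (𝓝 x) := by
    have : ContinuousAt (fun s : ℝ => (s, x.2)) x.1 := by fun_prop
    simpa [ContinuousAt] using this
  exact h2.eventually h1

lemma eventually_diff_slice2 (h : ContDiffAt ℝ 2 f x) :
    ∀ᶠ s in 𝓝 x.2, ContDiffAt ℝ 2 f (x.1, s) := by
  have h1 : ∀ᶠ y in 𝓝 x, ContDiffAt ℝ 2 f y := h.eventually (by simp)
  have h2 : Tendsto (fun s : ℝ => (x.1, s)) (𝓝 x.2) (𝓝 x) := by
    have : ContinuousAt (fun s : ℝ => (x.1, s)) x.2 := by fun_prop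
    simpa [ContinuousAt] using this
  exact h2.eventually h1

lemma deriv2_slice1 (h : ContDiffAt ℝ 2 f x) :
    deriv (deriv (fun s => f (s, x.2))) x.1 = D1 (D1 f) x := by
  have h1 : deriv (fun s => f (s, x.2)) =ᶠ[𝓝 x.1] fun s => D1 f (s, x.2) := by
    filter_upwards [eventually_diff_slice1 h] with s hs
    exact (hasDerivAt_slice1 (hs.differentiableAt (by norm_num))).deriv
  rw [h1.deriv_eq]
  have h2 : ContDiffAt ℝ 1 (D1 f) x := cda_D1 (n := 1) (by simpa using h)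
  exact (hasDerivAt_slice1 (t := x.1) (y := x.2) (h2.differentiableAt (by norm_num))).deriv

lemma deriv2_slice2 (h : ContDiffAt ℝ 2 f x) :
    deriv (deriv (fun s => f (x.1, s))) x.2 = D2 (D2 f) x := by
  have h1 : deriv (fun s => f (x.1, s)) =ᶠ[𝓝 x.2] fun s => D2 f (x.1, s) := by
    filter_upwards [eventually_diff_slice2 h] with s hs
    exact (hasDerivAt_slice2 (hs.differentiableAt (by norm_num))).deriv
  rw [h1.deriv_eq]
  have h2 : ContDiffAt ℝ 1 (D2 f) x := cda_D2 (n := 1) (by simpa using h)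
  exact (hasDerivAt_slice2 (t := x.1) (y := x.2) (h2.differentiableAt (by norm_num))).deriv

lemma D11_nonpos_of_isLocalMax (h : ContDiffAt ℝ 2 f x) (hm : IsLocalMax f x) :
    D1 (D1 f) x ≤ 0 := by
  rw [← deriv2_slice1 h]
  apply deriv2_nonpos_of_isLocalMax
  · have h2 : Tendsto (fun s : ℝ => (s, x.2)) (𝓝 x.1) (𝓝 x) := by
      have : ContinuousAt (fun s : ℝ => (s, x.2)) x.1 := by fun_prop
      simpa [ContinuousAt] using this
    exact h2.eventually hm
  · have := (hasDerivAt_slice1 (t := x.1) (y := x.2) (h.differentiableAt (by norm_num)))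
    exact this.continuousAt

lemma D22_nonpos_of_isLocalMax (h : ContDiffAt ℝ 2 f x) (hm : IsLocalMax f x) :
    D2 (D2 f) x ≤ 0 := by
  rw [← deriv2_slice2 h]
  apply deriv2_nonpos_of_isLocalMax
  · have h2 : Tendsto (fun s : ℝ => (x.1, s)) (𝓝 x.2) (𝓝 x) := by
      have : ContinuousAt (fun s : ℝ => (x.1, s)) x.2 := by fun_prop
      simpa [ContinuousAt] using this
    exact h2.eventually hm
  · have := (hasDerivAt_slice2 (t := x.1) (y := x.2) (h.differentiableAt (by norm_num)))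
    exact this.continuousAt

end secondtest

section second_order

variable {f g : ℝ × ℝ → ℝ} {x : ℝ × ℝ}

lemma ev_diff (hf : ContDiffAt ℝ 2 f x) : ∀ᶠ y in 𝓝 x, DifferentiableAt ℝ f y := by
  have h1 : ∀ᶠ y in 𝓝 x, ContDiffAt ℝ 2 f y := hf.eventually (by simp)
  filter_upwards [h1] with y hy
  exact hy.differentiableAt (by norm_num)

lemma diffD1 (hf : ContDiffAt ℝ 2 f x) : DifferentiableAt ℝ (D1 f) x :=
  (cda_D1 (n := 1) (by simpa using hf)).differentiableAt (by norm_num)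

lemma diffD2 (hf : ContDiffAt ℝ 2 f x) : DifferentiableAt ℝ (D2 f) x :=
  (cda_D2 (n := 1) (by simpa using hf)).differentiableAt (by norm_num)

lemma diff0 (hf : ContDiffAt ℝ 2 f x) : DifferentiableAt ℝ f x :=
  hf.differentiableAt (by norm_num)

lemma D11_add (hf : ContDiffAt ℝ 2 f x) (hg : ContDiffAt ℝ 2 g x) :
    D1 (D1 (fun y => f y + g y)) x = D1 (D1 f) x + D1 (D1 g) x := by
  have h : D1 (fun y => f y + g y) =ᶠ[𝓝 x] fun y => D1 f y + D1 g y := by
    filter_upwards [ev_diff hf, ev_diff hg] with y h1 h2 using D1_add h1 h2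
  rw [D1_congr h, D1_add (diffD1 hf) (diffD1 hg)]

lemma D22_add (hf : ContDiffAt ℝ 2 f x) (hg : ContDiffAt ℝ 2 g x) :
    D2 (D2 (fun y => f y + g y)) x = D2 (D2 f) x + D2 (D2 g) x := by
  have h : D2 (fun y => f y + g y) =ᶠ[𝓝 x] fun y => D2 f y + D2 g y := by
    filter_upwards [ev_diff hf, ev_diff hg] with y h1 h2 using D2_add h1 h2
  rw [D2_congr h, D2_add (diffD2 hf) (diffD2 hg)]

lemma D11_sub (hf : ContDiffAt ℝ 2 f x) (hg : ContDiffAt ℝ 2 g x) :
    D1 (D1 (fun y => f y - g y)) x = D1 (D1 f) x - D1 (D1 g) x := by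
  have h : D1 (fun y => f y - g y) =ᶠ[𝓝 x] fun y => D1 f y - D1 g y := by
    filter_upwards [ev_diff hf, ev_diff hg] with y h1 h2 using D1_sub h1 h2
  rw [D1_congr h, D1_sub (diffD1 hf) (diffD1 hg)]

lemma D22_sub (hf : ContDiffAt ℝ 2 f x) (hg : ContDiffAt ℝ 2 g x) :
    D2 (D2 (fun y => f y - g y)) x = D2 (D2 f) x - D2 (D2 g) x := by
  have h : D2 (fun y => f y - g y) =ᶠ[𝓝 x] fun y => D2 f y - D2 g y := by
    filter_upwards [ev_diff hf, ev_diff hg] with y h1 h2 using D2_sub h1 h2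
  rw [D2_congr h, D2_sub (diffD2 hf) (diffD2 hg)]

lemma D11_neg : D1 (D1 (fun y => -f y)) x = -D1 (D1 f) x := by
  have h : D1 (fun y => -f y) = fun y => -D1 f y := by
    ext y; exact D1_neg
  rw [h, D1_neg]

lemma D22_neg : D2 (D2 (fun y => -f y)) x = -D2 (D2 f) x := by
  have h : D2 (fun y => -f y) = fun y => -D2 f y := by
    ext y; exact D2_neg
  rw [h, D2_neg]

lemma D11_const_mul (c : ℝ) (hf : ContDiffAt ℝ 2 f x) :
    D1 (D1 (fun y => c * f y)) x = c * D1 (D1 f) x := by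
  have h : D1 (fun y => c * f y) =ᶠ[𝓝 x] fun y => c * D1 f y := by
    filter_upwards [ev_diff hf] with y h1 using D1_const_mul c h1
  rw [D1_congr h, D1_const_mul c (diffD1 hf)]

lemma D22_const_mul (c : ℝ) (hf : ContDiffAt ℝ 2 f x) :
    D2 (D2 (fun y => c * f y)) x = c * D2 (D2 f) x := by
  have h : D2 (fun y => c * f y) =ᶠ[𝓝 x] fun y => c * D2 f y := by
    filter_upwards [ev_diff hf] with y h1 using D2_const_mul c h1
  rw [D2_congr h, D2_const_mul c (diffD2 hf)]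

lemma D11_mul (hf : ContDiffAt ℝ 2 f x) (hg : ContDiffAt ℝ 2 g x) :
    D1 (D1 (fun y => f y * g y)) x
      = D1 (D1 f) x * g x + 2 * (D1 f x * D1 g x) + f x * D1 (D1 g) x := by
  have h : D1 (fun y => f y * g y) =ᶠ[𝓝 x] fun y => D1 f y * g y + f y * D1 g y := by
    filter_upwards [ev_diff hf, ev_diff hg] with y h1 h2 using D1_mul h1 h2
  rw [D1_congr h, D1_add ((diffD1 hf).fun_mul (diff0 hg)) ((diff0 hf).fun_mul (diffD1 hg)),
    D1_mul (diffD1 hf) (diff0 hg), D1_mul (diff0 hf) (diffD1 hg)]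
  ring

lemma D22_mul (hf : ContDiffAt ℝ 2 f x) (hg : ContDiffAt ℝ 2 g x) :
    D2 (D2 (fun y => f y * g y)) x
      = D2 (D2 f) x * g x + 2 * (D2 f x * D2 g x) + f x * D2 (D2 g) x := by
  have h : D2 (fun y => f y * g y) =ᶠ[𝓝 x] fun y => D2 f y * g y + f y * D2 g y := by
    filter_upwards [ev_diff hf, ev_diff hg] with y h1 h2 using D2_mul h1 h2
  rw [D2_congr h, D2_add ((diffD2 hf).fun_mul (diff0 hg)) ((diff0 hf).fun_mul (diffD2 hg)),
    D2_mul (diffD2 hf) (diff0 hg), D2_mul (diff0 hf) (diffD2 hg)]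
  ring

end second_order

/-- bounding a function by its derivative, polynomial version -/
lemma int_bound {g : ℝ → ℝ} {g' : ℝ → ℝ} {t C : ℝ} {n : ℕ} (ht : 0 ≤ t)
    (hg : ∀ s ∈ Icc 0 t, HasDerivAt g (g' s) s) (h0 : g 0 = 0)
    (hb : ∀ s ∈ Icc 0 t, g' s ≤ C * s ^ n) : g t ≤ C * t ^ (n + 1) / (n + 1) := by
  have hanti : AntitoneOn (fun s => g s - C * s ^ (n + 1) / (n + 1)) (Icc 0 t) := by
    apply antitoneOn_of_deriv_nonpos (convex_Icc 0 t)
    · intro s hs
      have h1 := (hg s hs).continuousAt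
      apply ContinuousAt.continuousWithinAt
      fun_prop
    · intro s hs
      rw [interior_Icc] at hs
      have h1 := hg s ⟨hs.1.le, hs.2.le⟩
      have h2 : DifferentiableAt ℝ (fun s : ℝ => C * s ^ (n + 1) / (n + 1)) s := by fun_prop
      exact (h1.differentiableAt.sub h2).differentiableWithinAt
    · intro s hs
      rw [interior_Icc] at hs
      have hs' : s ∈ Icc 0 t := ⟨hs.1.le, hs.2.le⟩
      have h1 := hg s hs'
      have h2 : HasDerivAt (fun s : ℝ => C * s ^ (n + 1) / (n + 1)) (C * s ^ n) s := by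
        have h3 := ((hasDerivAt_pow (n + 1) s).const_mul C).div_const ((n : ℝ) + 1)
        have hn : ((n : ℝ) + 1) ≠ 0 := by positivity
        have e : C * ((((n + 1 : ℕ)) : ℝ) * s ^ (n + 1 - 1)) / ((n : ℝ) + 1) = C * s ^ n := by
          rw [Nat.add_sub_cancel]
          push_cast
          field_simp
        rw [e] at h3
        exact h3
      rw [(h1.fun_sub h2).deriv]
      linarith [hb s hs']
  have := hanti (left_mem_Icc.2 ht) (right_mem_Icc.2 ht) ht
  simp only [h0] at this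
  simp at this
  linarith

end AP
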