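import Pool.Agent.Lib_helper42.AP.Nondeg2

/-! The three cases for the boundary maximum of `u_22`: algebra. -/

namespace AP

open Set Filter Topology Metric

/-- the second tangential derivative in terms of the data -/
lemma Sol.Mhat (φ u w : ℝ × ℝ → ℝ) {Ω : Set (ℝ × ℝ)} {c₀ : ℝ} (hD : Dom w Ω c₀) (hS : Sol φ u Ω)
    {P : ℝ × ℝ} (hP : P ∈ frontier Ω) {lam : ℝ}
    (hu1 : D1 u P = D1 φ P + lam * D1 w P) (hu2 : D2 u P = D2 φ P + lam * D2 w P) :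
    D2 w P ^ 2 * D1 (D1 u) P - 2 * D1 w P * D2 w P * D1 (D2 u) P + D1 w P ^ 2 * D2 (D2 u) P
    = D2 w P ^ 2 * (D1 (D1 φ) P + lam * D1 (D1 w) P)
      - 2 * D1 w P * D2 w P * (D1 (D2 φ) P + lam * D1 (D2 w) P)
      + D1 w P ^ 2 * (D2 (D2 φ) P + lam * D2 (D2 w) P) := by
  set z : ℝ × ℝ → ℝ := fun x => u x - φ x with hz
  have hz3 : ContDiff ℝ 3 z := hS.su.sub hS.sφ
  have hz0 : ∀ x ∈ frontier Ω, z x = 0 := fun x hx => by simp only [hz, hS.bc x hx, sub_self]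
  obtain ⟨e1, e2, e11, e12, e22, -, -, -, -⟩ := z_derivs hS.su hS.sφ P
  rw [← hz] at e1 e2 e11 e12 e22
  have hT2 := T2_zero hD hz3 hz0 P hP
  rw [e1, e2, e11, e12, e22, hu1, hu2] at hT2
  linear_combination hT2

lemma M_bound {w1 w2 G11 G12 G22 W K' : ℝ} (hw1 : |w1| ≤ W) (hw2 : |w2| ≤ W)
    (h11 : |G11| ≤ K') (h12 : |G12| ≤ K') (h22 : |G22| ≤ K') :
    |w2 ^ 2 * G11 - 2 * w1 * w2 * G12 + w1 ^ 2 * G22| ≤ 4 * W ^ 2 * K' := by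
  have sq2 : |w2 ^ 2| ≤ W ^ 2 := by rw [abs_pow]; exact pow_le_pow_left₀ (abs_nonneg _) hw2 2
  have sq1 : |w1 ^ 2| ≤ W ^ 2 := by rw [abs_pow]; exact pow_le_pow_left₀ (abs_nonneg _) hw1 2
  have h2 : |(2 : ℝ)| ≤ 2 := by rw [abs_two]
  have := abs_add_le' (abs_sub_le' (abs_mul_le sq2 h11)
    (abs_mul_le (abs_mul3_le h2 hw1 hw2) h12)) (abs_mul_le sq1 h22)
  linarith

lemma M_lower {w1 w2 G11 G12 G22 W K' μ₁ m₁ δ : ℝ} (hμ₁ : 0 < μ₁) (hm₁ : 0 ≤ m₁)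
    (hw1 : |w1| ≤ W) (hw2 : |w2| ≤ W) (hδ : |w1| ≤ δ) (hμ : μ₁ ≤ |w2|) (hG : m₁ ≤ G11)
    (h12 : |G12| ≤ K') (h22 : |G22| ≤ K') :
    μ₁ ^ 2 * m₁ - 3 * δ * W * K' ≤ w2 ^ 2 * G11 - 2 * w1 * w2 * G12 + w1 ^ 2 * G22 := by
  have h1 : μ₁ ^ 2 ≤ w2 ^ 2 := by
    rw [← sq_abs w2]; exact pow_le_pow_left₀ hμ₁.le hμ 2
  have h2 : μ₁ ^ 2 * m₁ ≤ w2 ^ 2 * G11 := mul_le_mul h1 hG hm₁ (sq_nonneg _)
  have h3 : |w1 * w2 * G12| ≤ δ * W * K' := abs_mul3_le hδ hw2 h12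
  have h4 : |w1 * w1 * G22| ≤ δ * W * K' := abs_mul3_le hδ hw1 h22
  have h5 := (abs_le.1 h3).2
  have h6 := (abs_le.1 h4).1
  nlinarith

lemma H_lower {w1 w2 w11 w12 w22 W c₀ μ₁ δ : ℝ} (hc₀ : 0 < c₀) (hμ₁ : 0 < μ₁)
    (hw2 : |w2| ≤ W) (hw12 : |w12| ≤ W) (hδ : |w1| ≤ δ) (hμ : μ₁ ≤ |w2|)
    (h11 : c₀ ≤ w11) (h22 : 0 ≤ w22) (h : 2 * δ * W ^ 2 ≤ μ₁ ^ 2 * c₀ / 2) :
    μ₁ ^ 2 * c₀ / 2 ≤ w2 ^ 2 * w11 - 2 * w1 * w2 * w12 + w1 ^ 2 * w22 := by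
  have h1 : μ₁ ^ 2 ≤ w2 ^ 2 := by
    rw [← sq_abs w2]; exact pow_le_pow_left₀ hμ₁.le hμ 2
  have h2 : μ₁ ^ 2 * c₀ ≤ w2 ^ 2 * w11 := mul_le_mul h1 h11 hc₀.le (sq_nonneg _)
  have h3 : |w1 * w2 * w12| ≤ δ * W * W := abs_mul3_le hδ hw2 hw12
  have h4 : 0 ≤ w1 ^ 2 * w22 := by positivity
  have h5 := (abs_le.1 h3).2
  nlinarith

/-- the case of a horizontal tangent -/
lemma case_one {w1 w2 w11 w12 w22 a b c W c₀ μ₁ δ CR M₀ mh : ℝ} (hc₀ : 0 < c₀) (hμ₁ : 0 < μ₁)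
    (hw1 : |w1| ≤ W) (hw2 : |w2| ≤ W) (hw12 : |w12| ≤ W) (hw22 : |w22| ≤ W)
    (hδ : |w1| ≤ δ) (hμ : μ₁ ≤ |w2|) (h11 : c₀ ≤ w11) (h22 : 0 ≤ w22)
    (h : 2 * δ * W ^ 2 ≤ μ₁ ^ 2 * c₀ / 2) (hb : 0 ≤ b) (hCR : 0 ≤ CR) (hmh : 0 < mh)
    (hM : |w2 ^ 2 * a - 2 * w1 * w2 * c + w1 ^ 2 * b| ≤ M₀)
    (hMl : mh ≤ w2 ^ 2 * a - 2 * w1 * w2 * c + w1 ^ 2 * b)
    (hstar : 3 / 2 * ((w2 ^ 2 * w11 - 2 * w1 * w2 * w12 + w1 ^ 2 * w22)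
        * (w1 ^ 2 * b - w2 ^ 2 * a)
      + (w2 ^ 2 * w11 - w1 ^ 2 * w22) * (w2 ^ 2 * a - 2 * w1 * w2 * c + w1 ^ 2 * b))
      ≤ |w1| * |w2| * CR)
    (hsmall : δ * (W * CR + 4 * W ^ 2 * M₀) < μ₁ ^ 2 * c₀ / 2 * (mh / 2)) :
    mh / 2 ≤ w2 ^ 2 * a := by
  have hH := H_lower hc₀ hμ₁ hw2 hw12 hδ hμ h11 h22 h
  set H := w2 ^ 2 * w11 - 2 * w1 * w2 * w12 + w1 ^ 2 * w22 with hHdef
  set M := w2 ^ 2 * a - 2 * w1 * w2 * c + w1 ^ 2 * b with hMdef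
  by_contra hcon
  push Not at hcon
  have hW : 0 ≤ W := le_trans (abs_nonneg _) hw1
  have hδ0 : 0 ≤ δ := le_trans (abs_nonneg _) hδ
  have hM0 : 0 ≤ M₀ := le_trans (abs_nonneg _) hM
  have e1 : |w1| * |w2| * CR ≤ δ * W * CR := by
    apply mul_le_mul_of_nonneg_right _ hCR
    exact mul_le_mul hδ hw2 (abs_nonneg _) hδ0
  have e2 : |(2 * w1 * w2 * w12 - 2 * w1 ^ 2 * w22) * M| ≤ (2 * δ * W * W + 2 * δ * W * W) * M₀ := by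
    have t1 : |w1 * w2 * w12| ≤ δ * W * W := abs_mul3_le hδ hw2 hw12
    have t2 : |w1 * w1 * w22| ≤ δ * W * W := abs_mul3_le hδ hw1 hw22
    have t3 : |2 * w1 * w2 * w12 - 2 * w1 ^ 2 * w22| ≤ 2 * δ * W * W + 2 * δ * W * W := by
      rw [abs_le] at t1 t2 ⊢
      constructor <;> nlinarith [t1.1, t1.2, t2.1, t2.2]
    exact abs_mul_le t3 hM
  have e3 := (abs_le.1 e2).1
  have e4 : (w2 ^ 2 * w11 - w1 ^ 2 * w22) * M = H * M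
      + (2 * w1 * w2 * w12 - 2 * w1 ^ 2 * w22) * M := by rw [hHdef]; ring
  rw [e4] at hstar
  have hX : mh / 2 ≤ w1 ^ 2 * b - w2 ^ 2 * a + M := by
    have : 0 ≤ w1 ^ 2 * b := by positivity
    linarith
  have hHX : μ₁ ^ 2 * c₀ / 2 * (mh / 2) ≤ H * (w1 ^ 2 * b - w2 ^ 2 * a + M) := by
    apply mul_le_mul hH hX (by linarith)
    exact le_trans (by positivity) hH
  have hWCR : 0 ≤ δ * W * CR := by positivity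
  nlinarith

/-- the case of a vertical tangent -/
lemma case_two {w1 w2 w11 w12 w22 a b c W c₀ μ₁ δ CR M₀ : ℝ} (hc₀ : 0 < c₀) (hμ₁ : 0 < μ₁)
    (hw1 : |w1| ≤ W) (hw2 : |w2| ≤ W) (hw12 : |w12| ≤ W) (hw11 : |w11| ≤ W)
    (hδ : |w2| ≤ δ) (hμ : μ₁ ≤ |w1|) (h11 : 0 ≤ w11) (h22 : c₀ ≤ w22)
    (h : 2 * δ * W ^ 2 ≤ μ₁ ^ 2 * c₀ / 2) (ha : 0 < a) (hb : 0 < b) (hab : a * b = 1)
    (hCR : 0 ≤ CR)
    (hM : |w2 ^ 2 * a - 2 * w1 * w2 * c + w1 ^ 2 * b| ≤ M₀)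
    (hstar : 3 / 2 * ((w2 ^ 2 * w11 - 2 * w1 * w2 * w12 + w1 ^ 2 * w22)
        * (w1 ^ 2 * b - w2 ^ 2 * a)
      + (w2 ^ 2 * w11 - w1 ^ 2 * w22) * (w2 ^ 2 * a - 2 * w1 * w2 * c + w1 ^ 2 * b))
      ≤ |w1| * |w2| * CR) :
    b ≤ 1 + (W ^ 2 + M₀ + δ * (W * CR + 4 * W ^ 2 * M₀) / (μ₁ ^ 2 * c₀ / 2)) / μ₁ ^ 2 := by
  have hH := H_lower (w1 := w2) (w2 := w1) (w11 := w22) (w12 := w12) (w22 := w11)
    hc₀ hμ₁ hw1 hw12 hδ hμ h22 h11 h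
  have eH : w1 ^ 2 * w22 - 2 * w2 * w1 * w12 + w2 ^ 2 * w11
      = w2 ^ 2 * w11 - 2 * w1 * w2 * w12 + w1 ^ 2 * w22 := by ring
  rw [eH] at hH
  set H := w2 ^ 2 * w11 - 2 * w1 * w2 * w12 + w1 ^ 2 * w22 with hHdef
  set M := w2 ^ 2 * a - 2 * w1 * w2 * c + w1 ^ 2 * b with hMdef
  set h₀ := μ₁ ^ 2 * c₀ / 2 with hh₀
  have hh₀pos : 0 < h₀ := by positivity
  have hW : 0 ≤ W := le_trans (abs_nonneg _) hw1
  have hδ0 : 0 ≤ δ := le_trans (abs_nonneg _) hδ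
  have hM0 : 0 ≤ M₀ := le_trans (abs_nonneg _) hM
  set C1 := δ * (W * CR + 4 * W ^ 2 * M₀) with hC1
  have hC10 : 0 ≤ C1 := by positivity
  have hfrac : 0 ≤ (W ^ 2 + M₀ + C1 / h₀) / μ₁ ^ 2 := by positivity
  rcases le_total b 1 with hb1 | hb1
  · linarith
  have ha1 : a ≤ 1 := by nlinarith
  have e1 : |w1| * |w2| * CR ≤ W * δ * CR := by
    apply mul_le_mul_of_nonneg_right _ hCR
    exact mul_le_mul hw1 hδ (abs_nonneg _) hW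
  have e2 : |(2 * w2 ^ 2 * w11 - 2 * w1 * w2 * w12) * M| ≤ (2 * δ * W * W + 2 * δ * W * W) * M₀ := by
    have t1 : |w2 * w1 * w12| ≤ δ * W * W := abs_mul3_le hδ hw1 hw12
    have t2 : |w2 * w2 * w11| ≤ δ * W * W := abs_mul3_le hδ hw2 hw11
    have t3 : |2 * w2 ^ 2 * w11 - 2 * w1 * w2 * w12| ≤ 2 * δ * W * W + 2 * δ * W * W := by
      rw [abs_le] at t1 t2 ⊢
      constructor <;> nlinarith [t1.1, t1.2, t2.1, t2.2]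
    exact abs_mul_le t3 hM
  have e3 := (abs_le.1 e2).1
  have e4 : (w2 ^ 2 * w11 - w1 ^ 2 * w22) * M = -(H * M)
      + (2 * w2 ^ 2 * w11 - 2 * w1 * w2 * w12) * M := by rw [hHdef]; ring
  rw [e4] at hstar
  have hWCR : 0 ≤ W * δ * CR := by positivity
  have hHX : H * (w1 ^ 2 * b - w2 ^ 2 * a - M) ≤ C1 := by
    rw [hC1]; nlinarith
  have hY : w1 ^ 2 * b - w2 ^ 2 * a - M ≤ C1 / h₀ := by
    by_contra hcon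
    push Not at hcon
    have hp : 0 < w1 ^ 2 * b - w2 ^ 2 * a - M := lt_of_le_of_lt (by positivity) hcon
    have h5 : h₀ * (w1 ^ 2 * b - w2 ^ 2 * a - M) ≤ C1 :=
      (mul_le_mul_of_nonneg_right hH hp.le).trans hHX
    have h6 : C1 < h₀ * (w1 ^ 2 * b - w2 ^ 2 * a - M) := by
      rw [div_lt_iff₀ hh₀pos] at hcon
      linarith
    linarith
  have hw2a : w2 ^ 2 * a ≤ W ^ 2 := by
    have : w2 ^ 2 ≤ W ^ 2 := by rw [← sq_abs w2]; exact pow_le_pow_left₀ (abs_nonneg _) hw2 2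
    nlinarith [sq_nonneg w2]
  have hM1 := (abs_le.1 hM).2
  have hfin : w1 ^ 2 * b ≤ W ^ 2 + M₀ + C1 / h₀ := by linarith
  have h1 : μ₁ ^ 2 ≤ w1 ^ 2 := by
    rw [← sq_abs w1]; exact pow_le_pow_left₀ hμ₁.le hμ 2
  have h2 : b * μ₁ ^ 2 ≤ W ^ 2 + M₀ + C1 / h₀ := by nlinarith
  have h3 : b ≤ (W ^ 2 + M₀ + C1 / h₀) / μ₁ ^ 2 := by
    rw [le_div_iff₀ (by positivity)]; exact h2
  linarith

/-- the case of an oblique tangent -/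
lemma case_three {w1 w2 a b c W δ Q : ℝ} (hδ : 0 < δ)
    (hw1 : |w1| ≤ W) (hw2 : |w2| ≤ W) (h1 : δ ≤ |w1|)
    (ha : 0 < a) (hb : 0 < b) (hab : a * b = 1)
    (e1 : |w2 * a - w1 * c| ≤ Q) (e2 : |w2 * c - w1 * b| ≤ Q) :
    b ≤ 1 + (W ^ 2 + 2 * W * Q) / δ ^ 2 := by
  have hW : 0 ≤ W := le_trans (abs_nonneg _) hw1
  have hQ : 0 ≤ Q := le_trans (abs_nonneg _) e1
  have hfrac : 0 ≤ (W ^ 2 + 2 * W * Q) / δ ^ 2 := by positivity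
  rcases le_total b 1 with hb1 | hb1
  · linarith
  have ha1 : a ≤ 1 := by nlinarith
  have t1 := abs_mul_le hw2 e1
  have t2 := abs_mul_le hw1 e2
  have t3 : w2 * (w2 * a - w1 * c) + w1 * (w2 * c - w1 * b) = w2 ^ 2 * a - w1 ^ 2 * b := by ring
  have t4 := (abs_le.1 t1).1
  have t5 := (abs_le.1 t2).1
  have hw2a : w2 ^ 2 * a ≤ W ^ 2 := by
    have : w2 ^ 2 ≤ W ^ 2 := by rw [← sq_abs w2]; exact pow_le_pow_left₀ (abs_nonneg _) hw2 2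
    nlinarith [sq_nonneg w2]
  have h5 : w1 ^ 2 * b ≤ W ^ 2 + 2 * W * Q := by linarith
  have h6 : δ ^ 2 ≤ w1 ^ 2 := by
    rw [← sq_abs w1]; exact pow_le_pow_left₀ hδ.le h1 2
  have h7 : b * δ ^ 2 ≤ W ^ 2 + 2 * W * Q := by nlinarith
  have h3 : b ≤ (W ^ 2 + 2 * W * Q) / δ ^ 2 := by
    rw [le_div_iff₀ (by positivity)]; exact h7
  linarith

end AP
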