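import Pool.Agent.Lib_helper42.AP.Apriori

/-! Connected components of sublevel sets, and `C³` boundaries. -/

namespace AP

open Set Filter Topology Metric

section component

variable {w : ℝ × ℝ → ℝ} {x₀ : ℝ × ℝ}

lemma comp_open (hw : Continuous w) : IsOpen (connectedComponentIn {x | w x < 0} x₀) :=
  (isOpen_lt hw continuous_const).connectedComponentIn

lemma comp_neg {x : ℝ × ℝ} (hx : x ∈ connectedComponentIn {x | w x < 0} x₀) : w x < 0 := by
  have := connectedComponentIn_subset {x | w x < 0} x₀ hx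
  exact this

lemma comp_extend {s : Set (ℝ × ℝ)} (hs : IsPreconnected s) (hneg : ∀ z ∈ s, w z < 0)
    {x y : ℝ × ℝ} (hx : x ∈ s) (hy : y ∈ s) (hxc : x ∈ connectedComponentIn {x | w x < 0} x₀) :
    y ∈ connectedComponentIn {x | w x < 0} x₀ := by
  have h1 : s ⊆ connectedComponentIn {x | w x < 0} x := hs.subset_connectedComponentIn hx hneg
  rw [connectedComponentIn_eq hxc]
  exact h1 hy

lemma comp_zero (hw : Continuous w) {P : ℝ × ℝ}
    (hP : P ∈ frontier (connectedComponentIn {x | w x < 0} x₀)) : w P = 0 := by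
  have ho := comp_open (x₀ := x₀) hw
  have hle : w P ≤ 0 := by
    have : closure (connectedComponentIn {x | w x < 0} x₀) ⊆ {x | w x ≤ 0} :=
      closure_minimal (fun x hx => (comp_neg hx).le) (isClosed_le hw continuous_const)
    exact this (frontier_subset_closure hP)
  rcases hle.eq_or_lt with h | h
  · exact h
  exfalso
  have hPc : P ∈ closure (connectedComponentIn {x | w x < 0} x₀) := frontier_subset_closure hP
  have hnb : {x | w x < 0} ∈ 𝓝 P := (isOpen_lt hw continuous_const).mem_nhds h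
  obtain ⟨δ, hδ, hball⟩ := Metric.mem_nhds_iff.1 hnb
  obtain ⟨y, hy, hyd⟩ := Metric.mem_closure_iff.1 hPc δ hδ
  have hPin : P ∈ connectedComponentIn {x | w x < 0} x₀ :=
    comp_extend (s := ball P δ) (convex_ball P δ).isPreconnected (fun z hz => hball hz)
      (mem_ball'.2 hyd) (mem_ball_self hδ) hy
  rw [frontier, ho.interior_eq] at hP
  exact hP.2 hPin

/-- components of sublevel sets satisfy the hypotheses of `Dom` -/
theorem Dom.of_component {c₀ : ℝ} (hw : ContDiff ℝ 3 w) (hc : 0 < c₀)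
    (h11 : ∀ x, c₀ ≤ D1 (D1 w) x) (h22 : ∀ x, c₀ ≤ D2 (D2 w) x)
    (hb : Bornology.IsBounded (connectedComponentIn {x | w x < 0} x₀))
    (hg : ∀ x ∈ frontier (connectedComponentIn {x | w x < 0} x₀), D1 w x ≠ 0 ∨ D2 w x ≠ 0) :
    Dom w (connectedComponentIn {x | w x < 0} x₀) c₀ where
  smooth := hw
  cpos := hc
  w11 := h11
  w22 := h22
  isOpen := comp_open hw.continuous
  bdd := hb
  neg := fun x hx => comp_neg hx
  zero := fun x hx => comp_zero hw.continuous hx
  grad := hg
  seg := fun x hx y hy =>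
    comp_extend (s := segment ℝ x y) (convex_segment x y).isPreconnected hy
      (left_mem_segment ℝ x y) (right_mem_segment ℝ x y) hx
  loc := fun P hP => by
    have hcw := hw.continuous
    have hw0 := comp_zero hcw hP
    set e : ℝ × ℝ := (-D1 w P, -D2 w P) with he
    have hc1 : Continuous (D1 w) := (cd_D1 (n := 2) hw).continuous
    have hc2 : Continuous (D2 w) := (cd_D2 (n := 2) hw).continuous
    have hcont : Continuous (fun x => e.1 * D1 w x + e.2 * D2 w x) := by fun_prop
    have hneg : e.1 * D1 w P + e.2 * D2 w P < 0 := by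
      simp only [he]
      rcases hg P hP with h | h
      · have := sq_pos_of_ne_zero (a := D1 w P) h
        nlinarith [sq_nonneg (D2 w P)]
      · have := sq_pos_of_ne_zero (a := D2 w P) h
        nlinarith [sq_nonneg (D1 w P)]
    obtain ⟨δ₁, hδ₁, h1⟩ := Metric.eventually_nhds_iff.1
      (hcont.continuousAt.eventually_lt_const hneg)
    -- a time step `s` such that `P + s e` stays in the ball and has `w < 0`
    have hsm : ∀ᶠ s in 𝓝[>] (0 : ℝ), s * (‖e‖ + 1) < δ₁ / 2 := by
      have hc0 : Tendsto (fun s : ℝ => s * (‖e‖ + 1)) (𝓝[>] 0) (𝓝 0) := by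
        have hc' : Continuous (fun s : ℝ => s * (‖e‖ + 1)) := by fun_prop
        have := hc'.tendsto 0
        rw [zero_mul] at this
        exact this.mono_left nhdsWithin_le_nhds
      exact hc0.eventually_lt_const (half_pos hδ₁)
    obtain ⟨s, hs, hs0⟩ := (hsm.and self_mem_nhdsWithin).exists
    have hs0' : 0 < s := hs0
    -- monotonicity of `w` along `e` near `P`
    have hmono : ∀ x, dist x P < δ₁ / 2 → w x < 0 ∨ (x = P) →
        ∀ t ∈ Icc 0 s, (w x < 0 ∨ 0 < t) → w (x + t • e) < 0 := by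
      intro x hx hwx t ht hor
      have hd : ∀ r ∈ Icc 0 t, dist (x + r • e) P < δ₁ := by
        intro r hr
        have : dist (x + r • e) P ≤ dist x P + r * ‖e‖ := by
          calc dist (x + r • e) P ≤ dist (x + r • e) x + dist x P := dist_triangle _ _ _
            _ = dist x P + r * ‖e‖ := by
              rw [dist_eq_norm, add_sub_cancel_left, norm_smul, Real.norm_of_nonneg hr.1]; ring
        have h3 : r * ‖e‖ ≤ s * (‖e‖ + 1) :=
          mul_le_mul (hr.2.trans ht.2) (by linarith) (norm_nonneg _) hs0'.le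
        linarith
      have hanti : StrictAntiOn (fun r : ℝ => w (x + r • e)) (Icc 0 t) := by
        apply strictAntiOn_of_deriv_neg (convex_Icc 0 t)
        · have : Continuous (fun r : ℝ => w (x + r • e)) := by fun_prop
          exact this.continuousOn
        · intro r hr
          rw [interior_Icc] at hr
          have hdw : DifferentiableAt ℝ w (x + r • e) := hw.differentiable (by norm_num) _
          rw [(hasDerivAt_line hdw).deriv]
          exact h1 (hd r ⟨hr.1.le, hr.2.le⟩)
      have hwx0 : w x ≤ 0 := by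
        rcases hwx with h | h
        · exact h.le
        · rw [h, hw0]
      rcases ht.1.eq_or_lt with h | h
      · rw [← h, zero_smul, add_zero]
        rcases hor with h' | h'
        · exact h'
        · rw [← h] at h'; exact absurd h' (lt_irrefl _)
      · have := hanti (left_mem_Icc.2 ht.1) (right_mem_Icc.2 ht.1) h
        simp only [zero_smul, add_zero] at this
        linarith
    have hend : w (P + s • e) < 0 :=
      hmono P (by rw [dist_self]; exact half_pos hδ₁) (Or.inr rfl) s ⟨hs0'.le, le_rfl⟩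
        (Or.inr hs0')
    obtain ⟨δ₂, hδ₂, hball⟩ := Metric.eventually_nhds_iff.1
      (hcw.continuousAt.eventually_lt_const hend)
    set δ := min (δ₁ / 2) δ₂ with hδ
    have hδ0 : 0 < δ := by positivity
    -- all points with `w < 0` in `B(P, δ)` are connected to `P + s e`
    have hconn : ∀ x, dist x P < δ → w x < 0 → ∀ y, dist y P < δ → w y < 0 →
        x ∈ connectedComponentIn {x | w x < 0} x₀ → y ∈ connectedComponentIn {x | w x < 0} x₀ := by
      intro x hx hwx y hy hwy hxc
      have step : ∀ z, dist z P < δ → w z < 0 → ∀ q ∈ segment ℝ z (z + s • e), w q < 0 := by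
        intro z hz hwz q hq
        rw [segment_eq_image'] at hq
        obtain ⟨t, ht, rfl⟩ := hq
        have e1 : z + t • (z + s • e - z) = z + (t * s) • e := by
          rw [add_sub_cancel_left, smul_smul]
        simp only [e1]
        exact hmono z (hz.trans_le (min_le_left _ _)) (Or.inl hwz) (t * s)
          ⟨mul_nonneg ht.1 hs0'.le, by nlinarith [ht.2]⟩ (Or.inl hwz)
      have a1 : x + s • e ∈ connectedComponentIn {x | w x < 0} x₀ :=
        comp_extend (convex_segment _ _).isPreconnected (step x hx hwx)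
          (left_mem_segment ℝ _ _) (right_mem_segment ℝ _ _) hxc
      have bl : ∀ z, dist z P < δ → z + s • e ∈ ball (P + s • e) δ₂ := by
        intro z hz
        rw [mem_ball, dist_add_right]
        exact hz.trans_le (min_le_right _ _)
      have a2 : y + s • e ∈ connectedComponentIn {x | w x < 0} x₀ :=
        comp_extend (convex_ball (P + s • e) δ₂).isPreconnected (fun z hz => hball hz)
          (bl x hx) (bl y hy) a1
      exact comp_extend (convex_segment _ _).isPreconnected (step y hy hwy)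
          (right_mem_segment ℝ _ _) (left_mem_segment ℝ _ _) a2
    refine ⟨δ, hδ0, fun y hy hwy => ?_⟩
    obtain ⟨x, hx, hxd⟩ := Metric.mem_closure_iff.1 (frontier_subset_closure hP) δ hδ0
    exact hconn x (by rw [dist_comm]; exact hxd) (comp_neg hx) y hy hwy hx

end component

/-- the boundary of `Ω` is locally the graph of a `C³` function, in suitable linear
coordinates -/
def C3Boundary (Ω : Set (ℝ × ℝ)) : Prop :=
  ∀ P ∈ frontier Ω, ∃ (A : (ℝ × ℝ) ≃L[ℝ] (ℝ × ℝ)) (g : ℝ → ℝ) (ε : ℝ), 0 < ε ∧ ContDiff ℝ 3 g ∧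
    ∀ x, dist x P < ε → (x ∈ frontier Ω ↔ (A x).2 = g (A x).1)

/-- one side of a graph -/
lemma side_lemma {Ω : Set (ℝ × ℝ)} (hΩ : IsOpen Ω) {P : ℝ × ℝ}
    {A : (ℝ × ℝ) ≃L[ℝ] (ℝ × ℝ)} {g : ℝ → ℝ} {ε : ℝ} (hε : 0 < ε) (hg : Continuous g)
    (h : ∀ x, dist x P < ε → (x ∈ frontier Ω ↔ (A x).2 = g (A x).1))
    (hP : (A P).2 = g (A P).1) :
    ∃ δ > 0, ∀ x y, dist x P < δ → dist y P < δ → g (A x).1 < (A x).2 → g (A y).1 < (A y).2 →
      x ∈ Ω → y ∈ Ω := by
  -- a box in the `A` coordinates
  have hsymm : ContinuousAt A.symm (A P) := A.symm.continuous.continuousAt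
  obtain ⟨ρ, hρ, hbox⟩ := Metric.continuousAt_iff.1 hsymm ε hε
  rw [A.symm_apply_apply] at hbox
  obtain ⟨ρ', hρ', hgb⟩ := Metric.continuousAt_iff.1 (hg.continuousAt (x := (A P).1)) (ρ / 2)
    (half_pos hρ)
  set ρ₁ := min ρ' (ρ / 2) with hρ₁
  have hρ₁0 : 0 < ρ₁ := by positivity
  obtain ⟨δ, hδ, hAδ⟩ := Metric.continuousAt_iff.1 (A.continuous.continuousAt (x := P)) ρ₁ hρ₁0
  refine ⟨δ, hδ, fun x y hx hy hgx hgy hxΩ => ?_⟩
  have hAx := hAδ hx
  have hAy := hAδ hy
  rw [Prod.dist_eq, max_lt_iff, Real.dist_eq, Real.dist_eq] at hAx hAy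
  -- the top height
  set Y : ℝ := (A P).2 + ρ / 2 with hY
  have hdist : ∀ q : ℝ × ℝ, |q.1 - (A P).1| < ρ → |q.2 - (A P).2| < ρ →
      dist (A.symm q) P < ε := by
    intro q h1 h2
    apply hbox
    rw [Prod.dist_eq, max_lt_iff, Real.dist_eq, Real.dist_eq]
    exact ⟨h1, h2⟩
  have hgY : ∀ X : ℝ, |X - (A P).1| < ρ₁ → g X < Y := by
    intro X hX
    have := hgb (show dist X (A P).1 < ρ' by
      rw [Real.dist_eq]; exact hX.trans_le (min_le_left _ _))
    rw [Real.dist_eq, ← hP, abs_lt] at this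
    rw [hY]; linarith [this.2]
  have hρ₁ρ : ρ₁ ≤ ρ / 2 := min_le_right _ _
  -- segments above the graph stay off the boundary
  have hoff : ∀ q : ℝ × ℝ, |q.1 - (A P).1| < ρ₁ → |q.2 - (A P).2| < ρ → g q.1 < q.2 →
      A.symm q ∉ frontier Ω := by
    intro q h1 h2 h3 hq
    rw [h _ (hdist q (by linarith) h2), A.apply_symm_apply] at hq
    linarith
  -- vertical segments
  have vert : ∀ X Y₁ Y₂ : ℝ, |X - (A P).1| < ρ₁ → g X < Y₁ → g X < Y₂ →
      |Y₁ - (A P).2| < ρ → |Y₂ - (A P).2| < ρ → A.symm (X, Y₁) ∈ Ω → A.symm (X, Y₂) ∈ Ω := by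
    intro X Y₁ Y₂ hX h1 h2 h3 h4 hin
    have hc : IsPreconnected (A.symm '' ((fun t : ℝ => (X, t)) '' (uIcc Y₁ Y₂))) := by
      apply IsPreconnected.image _ _ A.symm.continuous.continuousOn
      apply isPreconnected_uIcc.image
      fun_prop
    refine stay_inside hΩ hc ?_ (x := A.symm (X, Y₁)) (y := A.symm (X, Y₂))
      ⟨_, ⟨Y₁, left_mem_uIcc, rfl⟩, rfl⟩ ⟨_, ⟨Y₂, right_mem_uIcc, rfl⟩, rfl⟩ hin
    rintro z ⟨q, ⟨t, ht, rfl⟩, rfl⟩
    have ht' := mem_uIcc.1 ht
    rw [abs_lt] at h3 h4
    apply hoff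
    · exact hX
    · simp only; rw [abs_lt]
      rcases ht' with h | h <;> constructor <;> linarith [h.1, h.2, h3.1, h3.2, h4.1, h4.2]
    · simp only
      rcases ht' with h | h <;> linarith [h.1, h.2]
  have horiz : ∀ X₁ X₂ : ℝ, |X₁ - (A P).1| < ρ₁ → |X₂ - (A P).1| < ρ₁ →
      A.symm (X₁, Y) ∈ Ω → A.symm (X₂, Y) ∈ Ω := by
    intro X₁ X₂ h1 h2 hin
    have hc : IsPreconnected (A.symm '' ((fun t : ℝ => (t, Y)) '' (uIcc X₁ X₂))) := by
      apply IsPreconnected.image _ _ A.symm.continuous.continuousOn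
      apply isPreconnected_uIcc.image
      fun_prop
    refine stay_inside hΩ hc ?_ (x := A.symm (X₁, Y)) (y := A.symm (X₂, Y))
      ⟨_, ⟨X₁, left_mem_uIcc, rfl⟩, rfl⟩ ⟨_, ⟨X₂, right_mem_uIcc, rfl⟩, rfl⟩ hin
    rintro z ⟨q, ⟨t, ht, rfl⟩, rfl⟩
    have ht' := mem_uIcc.1 ht
    have h3 : |t - (A P).1| < ρ₁ := by
      rw [abs_lt] at h1 h2 ⊢
      rcases ht' with h | h <;> constructor <;> linarith [h.1, h.2, h1.1, h1.2, h2.1, h2.2]
    apply hoff
    · exact h3
    · simp only [hY]; rw [add_sub_cancel_left, abs_of_pos (half_pos hρ)]; linarith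
    · exact hgY t h3
  have hYb : |Y - (A P).2| < ρ := by
    rw [hY, add_sub_cancel_left, abs_of_pos (half_pos hρ)]; linarith
  have ex : A.symm ((A x).1, (A x).2) = x := by
    rw [show ((A x).1, (A x).2) = A x from rfl, A.symm_apply_apply]
  have ey : A.symm ((A y).1, (A y).2) = y := by
    rw [show ((A y).1, (A y).2) = A y from rfl, A.symm_apply_apply]
  have s1 : A.symm ((A x).1, Y) ∈ Ω :=
    vert _ _ _ hAx.1 hgx (hgY _ hAx.1) (by linarith [hAx.2]) hYb (by rw [ex]; exact hxΩ)
  have s2 := horiz _ _ hAx.1 hAy.1 s1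
  have s3 := vert _ _ _ hAy.1 (hgY _ hAy.1) hgy hYb (by linarith [hAy.2]) s2
  rwa [ey] at s3

/-- on a `C³` boundary the gradient of the defining function does not vanish -/
theorem grad_ne_zero {w : ℝ × ℝ → ℝ} {x₀ : ℝ × ℝ} {c₀ : ℝ} (hw : ContDiff ℝ 3 w) (hc : 0 < c₀)
    (h11 : ∀ x, c₀ ≤ D1 (D1 w) x) (h22 : ∀ x, c₀ ≤ D2 (D2 w) x)
    (hC : C3Boundary (connectedComponentIn {x | w x < 0} x₀)) :
    ∀ x ∈ frontier (connectedComponentIn {x | w x < 0} x₀), D1 w x ≠ 0 ∨ D2 w x ≠ 0 := by
  intro P hP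
  by_contra hcon
  push Not at hcon
  obtain ⟨g1, g2⟩ := hcon
  set Ω := connectedComponentIn {x | w x < 0} x₀ with hΩ
  have hΩo : IsOpen Ω := comp_open hw.continuous
  have hw0 : w P = 0 := comp_zero hw.continuous hP
  obtain ⟨A, g, ε, hε, hg, h⟩ := hC P hP
  have hPA : (A P).2 = g (A P).1 := (h P (by rw [dist_self]; exact hε)).1 hP
  have w1c : ContDiff ℝ 1 w := hw.of_le (by norm_num)
  have hD1w1 : ContDiff ℝ 1 (D1 w) := (cd_D1 (n := 2) hw).of_le (by norm_num)
  have hD2w1 : ContDiff ℝ 1 (D2 w) := (cd_D2 (n := 2) hw).of_le (by norm_num)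
  -- positivity of `w` on the coordinate cross
  have cross1 : ∀ t : ℝ, t ≠ 0 → 0 < w (P + t • ((1 : ℝ), (0 : ℝ))) := by
    intro t ht
    have := taylor2_ge (f := fun s => w (P.1 + s, P.2)) (f1 := fun s => D1 w (P.1 + s, P.2))
      (f2 := fun s => D1 (D1 w) (P.1 + s, P.2)) (t := t) (m := c₀)
      (fun s _ => by
        have := (sl1 w1c (P.1 + s) P.2).comp_const_add P.1 s
        exact this)
      (fun s _ => by
        have := (sl1 hD1w1 (P.1 + s) P.2).comp_const_add P.1 s
        exact this)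
      (fun s _ => h11 _)
    simp only [add_zero] at this
    rw [show (P.1, P.2) = P from rfl, hw0, g1] at this
    have e : P + t • ((1 : ℝ), (0 : ℝ)) = (P.1 + t, P.2) := by ext <;> simp
    rw [e]
    have : 0 < t ^ 2 := by positivity
    nlinarith
  have cross2 : ∀ t : ℝ, t ≠ 0 → 0 < w (P + t • ((0 : ℝ), (1 : ℝ))) := by
    intro t ht
    have := taylor2_ge (f := fun s => w (P.1, P.2 + s)) (f1 := fun s => D2 w (P.1, P.2 + s))
      (f2 := fun s => D2 (D2 w) (P.1, P.2 + s)) (t := t) (m := c₀)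
      (fun s _ => by
        have := (sl2 w1c P.1 (P.2 + s)).comp_const_add P.2 s
        exact this)
      (fun s _ => by
        have := (sl2 hD2w1 P.1 (P.2 + s)).comp_const_add P.2 s
        exact this)
      (fun s _ => h22 _)
    simp only [add_zero] at this
    rw [show (P.1, P.2) = P from rfl, hw0, g2] at this
    have e : P + t • ((0 : ℝ), (1 : ℝ)) = (P.1, P.2 + t) := by ext <;> simp
    rw [e]
    have : 0 < t ^ 2 := by positivity
    nlinarith
  -- the defining function of the graph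
  set F : ℝ × ℝ → ℝ := fun x => (A x).2 - g (A x).1 with hF
  have hFd : DifferentiableAt ℝ F P := by
    have hgd : Differentiable ℝ g := hg.differentiable (by norm_num)
    have hA : Differentiable ℝ (fun x => A x) := A.differentiable
    have : Differentiable ℝ F := by
      simp only [hF]
      exact (differentiable_snd.comp hA).sub (hgd.comp (differentiable_fst.comp hA))
    exact this P
  have hF0 : F P = 0 := by simp only [hF, hPA, sub_self]
  have hFne : D1 F P ≠ 0 ∨ D2 F P ≠ 0 := by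
    by_contra hcon
    push Not at hcon
    set v := A.symm ((0 : ℝ), (1 : ℝ)) with hv
    have hd := hasDerivAt_line (f := F) (x := P) (e := v) (t := 0) (by simpa using hFd)
    simp only [zero_smul, add_zero, hcon.1, hcon.2, mul_zero] at hd
    have he : (fun s : ℝ => F (P + s • v)) = fun s => s := by
      ext s
      simp only [hF]
      rw [map_add, map_smul, hv, A.apply_symm_apply]
      simp only [Prod.snd_add, Prod.smul_snd, Prod.fst_add, Prod.smul_fst, smul_eq_mul, mul_one,
        mul_zero, add_zero, hPA]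
      ring
    rw [he] at hd
    have := hd.unique (hasDerivAt_id 0)
    norm_num at this
  -- a coordinate direction transversal to the graph
  obtain ⟨e, hde, hcross⟩ : ∃ e : ℝ × ℝ, e.1 * D1 F P + e.2 * D2 F P ≠ 0 ∧
      ∀ t : ℝ, t ≠ 0 → 0 < w (P + t • e) := by
    rcases hFne with h1 | h1
    · exact ⟨(1, 0), by simpa using h1, cross1⟩
    · exact ⟨(0, 1), by simpa using h1, cross2⟩
  -- both sides are reached
  have hsides : ∀ σ : ℝ, σ * (e.1 * D1 F P + e.2 * D2 F P) < 0 →
      ∀ᶠ t in 𝓝[>] (0 : ℝ), F (P + t • (σ • e)) < 0 := by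
    intro σ hσ
    have hd := hasDerivAt_line (f := F) (x := P) (e := σ • e) (t := 0) (by simpa using hFd)
    simp only [zero_smul, add_zero] at hd
    apply neg_of_deriv_neg hd (by simp [hF0])
    simp only [Prod.smul_fst, Prod.smul_snd, smul_eq_mul]
    linarith
  have hsides' : ∀ σ : ℝ, 0 < σ * (e.1 * D1 F P + e.2 * D2 F P) →
      ∀ᶠ t in 𝓝[>] (0 : ℝ), 0 < F (P + t • (σ • e)) := by
    intro σ hσ
    have hd := (hasDerivAt_line (f := F) (x := P) (e := σ • e) (t := 0) (by simpa using hFd)).neg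
    simp only [zero_smul, add_zero] at hd
    have := neg_of_deriv_neg (g := fun t : ℝ => -F (P + t • (σ • e))) hd (by simp [hF0]) (by
      simp only [Prod.smul_fst, Prod.smul_snd, smul_eq_mul]
      linarith)
    filter_upwards [this] with t ht
    linarith
  have hclose : ∀ δ > 0, ∀ σ : ℝ, ∀ᶠ t in 𝓝[>] (0 : ℝ), dist (P + t • (σ • e)) P < δ := by
    intro δ hδ σ
    have hc : ContinuousAt (fun t : ℝ => dist (P + t • (σ • e)) P) 0 := by fun_prop
    have h3 : Tendsto (fun t : ℝ => dist (P + t • (σ • e)) P) (𝓝[>] 0) (𝓝 0) := by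
      have := hc.tendsto
      simp only [zero_smul, add_zero, dist_self] at this
      exact this.mono_left nhdsWithin_le_nhds
    exact h3.eventually_lt_const hδ
  have hcl : P ∈ closure Ω := frontier_subset_closure hP
  -- upper side
  obtain ⟨δ₁, hδ₁, up⟩ := side_lemma hΩo hε hg.continuous h hPA
  -- lower side, by reflection
  set R : (ℝ × ℝ) ≃L[ℝ] (ℝ × ℝ) :=
    (ContinuousLinearEquiv.refl ℝ ℝ).prodCongr (ContinuousLinearEquiv.neg ℝ) with hR
  have hRx : ∀ x : ℝ × ℝ, (A.trans R) x = ((A x).1, -(A x).2) := fun x => rfl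
  obtain ⟨δ₂, hδ₂, down⟩ := side_lemma (A := A.trans R) (g := fun s => -g s) hΩo hε
    hg.continuous.neg (fun x hx => by rw [h x hx, hRx]; simp)
    (by rw [hRx]; simp [hPA])
  simp only [hRx, neg_lt_neg_iff] at down
  set δ := min (min δ₁ δ₂) ε with hδ
  have hδ0 : 0 < δ := by positivity
  obtain ⟨x, hx, hxd⟩ := Metric.mem_closure_iff.1 hcl δ hδ0
  rw [dist_comm] at hxd
  have hxn : x ∉ frontier Ω := by rw [frontier, hΩo.interior_eq]; exact fun hh => hh.2 hx
  have hFx : F x ≠ 0 := by
    intro h0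
    apply hxn
    rw [h x (hxd.trans_le (min_le_right _ _))]
    simp only [hF] at h0; linarith
  have fin : ∀ σ : ℝ, σ ≠ 0 → (∀ᶠ t in 𝓝[>] (0 : ℝ), P + t • (σ • e) ∈ Ω) → False := by
    intro σ hσ hev
    obtain ⟨t, ht, ht0⟩ := (hev.and self_mem_nhdsWithin).exists
    have ht0' : (0 : ℝ) < t := ht0
    have h1 : w (P + t • (σ • e)) < 0 := comp_neg ht
    rw [smul_smul] at h1
    have h2 := hcross (t * σ) (mul_ne_zero ht0'.ne' hσ)
    linarith
  rcases lt_or_gt_of_ne hFx with hneg | hpos
  · -- lower side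
    rcases lt_or_gt_of_ne hde with hd | hd
    · apply fin 1 one_ne_zero
      filter_upwards [hsides 1 (by linarith), hclose δ₂ hδ₂ 1] with t h1 h2
      refine down x _ (hxd.trans_le ((min_le_left _ _).trans (min_le_right _ _))) h2 ?_ ?_ hx
      · simp only [hF] at hneg; linarith
      · simp only [hF] at h1; linarith
    · apply fin (-1) (by norm_num)
      filter_upwards [hsides (-1) (by linarith), hclose δ₂ hδ₂ (-1)] with t h1 h2
      refine down x _ (hxd.trans_le ((min_le_left _ _).trans (min_le_right _ _))) h2 ?_ ?_ hx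
      · simp only [hF] at hneg; linarith
      · simp only [hF] at h1; linarith
  · rcases lt_or_gt_of_ne hde with hd | hd
    · apply fin (-1) (by norm_num)
      filter_upwards [hsides' (-1) (by linarith), hclose δ₁ hδ₁ (-1)] with t h1 h2
      refine up x _ (hxd.trans_le ((min_le_left _ _).trans (min_le_left _ _))) h2 ?_ ?_ hx
      · simp only [hF] at hpos; linarith
      · simp only [hF] at h1; linarith
    · apply fin 1 one_ne_zero
      filter_upwards [hsides' 1 (by linarith), hclose δ₁ hδ₁ 1] with t h1 h2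
      refine up x _ (hxd.trans_le ((min_le_left _ _).trans (min_le_left _ _))) h2 ?_ ?_ hx
      · simp only [hF] at hpos; linarith
      · simp only [hF] at h1; linarith

end AP
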