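import Pool.Agent.Lib_helper42.AP.Taylor

/-! The class of domains, the maximum principle and the Lagrange multiplier lemma. -/

namespace AP

open Set Filter Topology Metric

/-- `Ω` is a bounded uniformly coordinate-convex domain with nondegenerate defining function. -/
structure Dom (w : ℝ × ℝ → ℝ) (Ω : Set (ℝ × ℝ)) (c₀ : ℝ) : Prop where
  smooth : ContDiff ℝ 3 w
  cpos : 0 < c₀
  w11 : ∀ x, c₀ ≤ D1 (D1 w) x
  w22 : ∀ x, c₀ ≤ D2 (D2 w) x
  isOpen : IsOpen Ω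
  bdd : Bornology.IsBounded Ω
  neg : ∀ x ∈ Ω, w x < 0
  zero : ∀ x ∈ frontier Ω, w x = 0
  grad : ∀ x ∈ frontier Ω, D1 w x ≠ 0 ∨ D2 w x ≠ 0
  seg : ∀ x ∈ Ω, ∀ y, (∀ z ∈ segment ℝ x y, w z < 0) → y ∈ Ω
  loc : ∀ P ∈ frontier Ω, ∃ δ > 0, ∀ x, dist x P < δ → w x < 0 → x ∈ Ω

section maxprinciple

lemma contDiff_sq1 : ContDiff ℝ 2 (fun x : ℝ × ℝ => x.1 ^ 2) := by fun_prop

lemma D1_fst (x : ℝ × ℝ) : D1 (fun y : ℝ × ℝ => y.1) x = 1 := by
  simp only [D1]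
  have : fderiv ℝ (fun y : ℝ × ℝ => y.1) x = ContinuousLinearMap.fst ℝ ℝ ℝ := fderiv_fst
  rw [this]; rfl

lemma D2_fst (x : ℝ × ℝ) : D2 (fun y : ℝ × ℝ => y.1) x = 0 := by
  simp only [D2]
  have : fderiv ℝ (fun y : ℝ × ℝ => y.1) x = ContinuousLinearMap.fst ℝ ℝ ℝ := fderiv_fst
  rw [this]; rfl

lemma D1_snd (x : ℝ × ℝ) : D1 (fun y : ℝ × ℝ => y.2) x = 0 := by
  simp only [D1]
  have : fderiv ℝ (fun y : ℝ × ℝ => y.2) x = ContinuousLinearMap.snd ℝ ℝ ℝ := fderiv_snd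
  rw [this]; rfl

lemma D2_snd (x : ℝ × ℝ) : D2 (fun y : ℝ × ℝ => y.2) x = 1 := by
  simp only [D2]
  have : fderiv ℝ (fun y : ℝ × ℝ => y.2) x = ContinuousLinearMap.snd ℝ ℝ ℝ := fderiv_snd
  rw [this]; rfl

lemma D1_sq1 (a : ℝ) (x : ℝ × ℝ) : D1 (fun y : ℝ × ℝ => (y.1 - a) ^ 2) x = 2 * (x.1 - a) := by
  have h : (fun y : ℝ × ℝ => (y.1 - a) ^ 2) = fun y => (y.1 - a) * (y.1 - a) := by
    ext y; ring
  have hd : DifferentiableAt ℝ (fun y : ℝ × ℝ => y.1 - a) x := by fun_prop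
  rw [h, D1_mul hd hd, D1_sub (by fun_prop) (by fun_prop), D1_fst, D1_const]
  ring

lemma D2_sq1 (a : ℝ) (x : ℝ × ℝ) : D2 (fun y : ℝ × ℝ => (y.1 - a) ^ 2) x = 0 := by
  have h : (fun y : ℝ × ℝ => (y.1 - a) ^ 2) = fun y => (y.1 - a) * (y.1 - a) := by
    ext y; ring
  have hd : DifferentiableAt ℝ (fun y : ℝ × ℝ => y.1 - a) x := by fun_prop
  rw [h, D2_mul hd hd, D2_sub (by fun_prop) (by fun_prop), D2_fst, D2_const]
  ring

lemma D1_sq2 (a : ℝ) (x : ℝ × ℝ) : D1 (fun y : ℝ × ℝ => (y.2 - a) ^ 2) x = 0 := by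
  have h : (fun y : ℝ × ℝ => (y.2 - a) ^ 2) = fun y => (y.2 - a) * (y.2 - a) := by
    ext y; ring
  have hd : DifferentiableAt ℝ (fun y : ℝ × ℝ => y.2 - a) x := by fun_prop
  rw [h, D1_mul hd hd, D1_sub (by fun_prop) (by fun_prop), D1_snd, D1_const]
  ring

lemma D2_sq2 (a : ℝ) (x : ℝ × ℝ) : D2 (fun y : ℝ × ℝ => (y.2 - a) ^ 2) x = 2 * (x.2 - a) := by
  have h : (fun y : ℝ × ℝ => (y.2 - a) ^ 2) = fun y => (y.2 - a) * (y.2 - a) := by
    ext y; ring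
  have hd : DifferentiableAt ℝ (fun y : ℝ × ℝ => y.2 - a) x := by fun_prop
  rw [h, D2_mul hd hd, D2_sub (by fun_prop) (by fun_prop), D2_snd, D2_const]
  ring

lemma D11_sq1 (a : ℝ) (x : ℝ × ℝ) : D1 (D1 (fun y : ℝ × ℝ => (y.1 - a) ^ 2)) x = 2 := by
  have h : D1 (fun y : ℝ × ℝ => (y.1 - a) ^ 2) = fun y => 2 * (y.1 - a) := by
    ext y; exact D1_sq1 a y
  rw [h, D1_const_mul _ (by fun_prop), D1_sub (by fun_prop) (by fun_prop), D1_fst, D1_const]
  ring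

lemma D22_sq1 (a : ℝ) (x : ℝ × ℝ) : D2 (D2 (fun y : ℝ × ℝ => (y.1 - a) ^ 2)) x = 0 := by
  have h : D2 (fun y : ℝ × ℝ => (y.1 - a) ^ 2) = fun y => 0 := by
    ext y; exact D2_sq1 a y
  rw [h, D2_const]

lemma D11_sq2 (a : ℝ) (x : ℝ × ℝ) : D1 (D1 (fun y : ℝ × ℝ => (y.2 - a) ^ 2)) x = 0 := by
  have h : D1 (fun y : ℝ × ℝ => (y.2 - a) ^ 2) = fun y => 0 := by
    ext y; exact D1_sq2 a y
  rw [h, D1_const]

lemma D22_sq2 (a : ℝ) (x : ℝ × ℝ) : D2 (D2 (fun y : ℝ × ℝ => (y.2 - a) ^ 2)) x = 2 := by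
  have h : D2 (fun y : ℝ × ℝ => (y.2 - a) ^ 2) = fun y => 2 * (y.2 - a) := by
    ext y; exact D2_sq2 a y
  rw [h, D2_const_mul _ (by fun_prop), D2_sub (by fun_prop) (by fun_prop), D2_snd, D2_const]
  ring

/-- the weak maximum principle -/
lemma max_principle {U : Set (ℝ × ℝ)} (hU : IsOpen U) (hb : Bornology.IsBounded U)
    {g : ℝ × ℝ → ℝ} (hc : ContinuousOn g (closure U)) (h2 : ∀ x ∈ U, ContDiffAt ℝ 2 g x)
    (hL : ∀ x ∈ U, ∃ α β : ℝ, 0 < α ∧ 0 < β ∧ 0 ≤ α * D1 (D1 g) x + β * D2 (D2 g) x)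
    {m : ℝ} (hm : ∀ x ∈ frontier U, g x ≤ m) : ∀ x ∈ closure U, g x ≤ m := by
  intro x₀ hx₀
  by_contra hcon
  push Not at hcon
  have hcomp : IsCompact (closure U) := hb.isCompact_closure
  have hq : ContinuousOn (fun x : ℝ × ℝ => (x.1 - 0) ^ 2) (closure U) := by fun_prop
  obtain ⟨Q, hQ⟩ := hcomp.exists_bound_of_continuousOn hq
  have hQ0 : 0 ≤ Q := le_trans (norm_nonneg _) (hQ x₀ hx₀)
  set ε : ℝ := (g x₀ - m) / (2 * (Q + 1)) with hε
  have hε0 : 0 < ε := by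
    apply div_pos (by linarith) (by linarith)
  have hεQ : ε * Q < g x₀ - m := by
    have : ε * (2 * (Q + 1)) = g x₀ - m := by
      rw [hε]; field_simp
    nlinarith
  have hcg : ContinuousOn (fun x => g x + ε * (x.1 - 0) ^ 2) (closure U) :=
    hc.add (continuousOn_const.mul hq)
  obtain ⟨y, hy, hmax⟩ := hcomp.exists_isMaxOn ⟨x₀, hx₀⟩ hcg
  have hval : g x₀ ≤ g y + ε * (y.1 - 0) ^ 2 := by
    have h1 : g x₀ + ε * (x₀.1 - 0) ^ 2 ≤ g y + ε * (y.1 - 0) ^ 2 := hmax hx₀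
    have h3 : 0 ≤ ε * (x₀.1 - 0) ^ 2 := mul_nonneg hε0.le (sq_nonneg _)
    linarith
  have hyQ : (y.1 - 0) ^ 2 ≤ Q := by
    have := hQ y hy
    rw [Real.norm_of_nonneg (sq_nonneg _)] at this
    exact this
  have hyU : y ∈ U := by
    by_contra hyU
    have hyf : y ∈ frontier U := by
      rw [frontier, hU.interior_eq]; exact ⟨hy, hyU⟩
    have h1 := hm y hyf
    have h2 := mul_le_mul_of_nonneg_left hyQ hε0.le
    linarith
  have hloc : IsLocalMax (fun x : ℝ × ℝ => g x + ε * (x.1 - 0) ^ 2) y := by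
    filter_upwards [hU.mem_nhds hyU] with z hz
    exact hmax (subset_closure hz)
  have hcd : ContDiffAt ℝ 2 (fun x : ℝ × ℝ => ε * (x.1 - 0) ^ 2) y := by fun_prop
  have hcd0 : ContDiffAt ℝ 2 (fun x : ℝ × ℝ => (x.1 - 0) ^ 2) y := by fun_prop
  have hg2 := h2 y hyU
  have e1 := D11_nonpos_of_isLocalMax (hg2.add hcd) hloc
  have e2 := D22_nonpos_of_isLocalMax (hg2.add hcd) hloc
  have f1 := D11_add hg2 hcd
  have f2 := D22_add hg2 hcd
  rw [D11_const_mul ε hcd0, D11_sq1] at f1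
  rw [D22_const_mul ε hcd0, D22_sq1] at f2
  rw [f1] at e1
  rw [f2] at e2
  obtain ⟨α, β, hα, hβ, hαβ⟩ := hL y hyU
  have h3 : α * D1 (D1 g) y ≤ -(2 * ε) * α := by nlinarith
  have h4 : β * D2 (D2 g) y ≤ 0 := by nlinarith
  nlinarith [mul_pos hε0 hα]

end maxprinciple

section domfacts

variable {w : ℝ × ℝ → ℝ} {Ω : Set (ℝ × ℝ)} {c₀ : ℝ}

lemma Dom.cont (hD : Dom w Ω c₀) : Continuous w := hD.smooth.continuous

lemma Dom.diff (hD : Dom w Ω c₀) (x : ℝ × ℝ) : DifferentiableAt ℝ w x :=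
  hD.smooth.differentiable (by norm_num) x

lemma Dom.mem_or (hD : Dom w Ω c₀) {x : ℝ × ℝ} (hx : x ∈ closure Ω) : x ∈ Ω ∨ x ∈ frontier Ω := by
  by_cases h : x ∈ Ω
  · exact Or.inl h
  · right; rw [frontier, hD.isOpen.interior_eq]; exact ⟨hx, h⟩

lemma Dom.not_mem (hD : Dom w Ω c₀) {x : ℝ × ℝ} (hx : x ∈ frontier Ω) : x ∉ Ω := by
  rw [frontier, hD.isOpen.interior_eq] at hx; exact hx.2

lemma Dom.compact (hD : Dom w Ω c₀) : IsCompact (closure Ω) := hD.bdd.isCompact_closure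

lemma Dom.compactΓ (hD : Dom w Ω c₀) : IsCompact (frontier Ω) :=
  hD.compact.of_isClosed_subset isClosed_frontier frontier_subset_closure

lemma Dom.le (hD : Dom w Ω c₀) {x : ℝ × ℝ} (hx : x ∈ closure Ω) : w x ≤ 0 := by
  rcases hD.mem_or hx with h | h
  · exact (hD.neg x h).le
  · exact (hD.zero x h).le

/-- derivative of `w` in an arbitrary direction -/
lemma Dom.line (hD : Dom w Ω c₀) (x e : ℝ × ℝ) :
    HasDerivAt (fun s : ℝ => w (x + s • e)) (e.1 * D1 w x + e.2 * D2 w x) 0 := by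
  have := hasDerivAt_line (f := w) (x := x) (e := e) (t := 0) (by simpa using hD.diff x)
  simpa using this

lemma neg_of_deriv_neg {g : ℝ → ℝ} {d : ℝ} (h : HasDerivAt g d 0) (h0 : g 0 = 0) (hd : d < 0) :
    ∀ᶠ t in 𝓝[>] (0 : ℝ), g t < 0 := by
  have h1 : Tendsto (fun t => t⁻¹ * (g (0 + t) - g 0)) (𝓝[≠] 0) (𝓝 d) := by
    have := h.tendsto_slope_zero
    simpa [smul_eq_mul] using this
  have h2 : ∀ᶠ t in 𝓝[≠] (0 : ℝ), t⁻¹ * (g (0 + t) - g 0) < 0 := h1.eventually_lt_const hd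
  have h3 : ∀ᶠ t in 𝓝[>] (0 : ℝ), t⁻¹ * (g (0 + t) - g 0) < 0 :=
    h2.filter_mono (nhdsWithin_mono _ (fun t ht => ne_of_gt ht))
  filter_upwards [h3, self_mem_nhdsWithin] with t ht ht0
  simp only [zero_add, h0, sub_zero] at ht
  have ht0' : (0 : ℝ) < t := ht0
  by_contra hcon
  push Not at hcon
  have : 0 ≤ t⁻¹ * g t := mul_nonneg (inv_nonneg.2 ht0'.le) hcon
  linarith

/-- moving inwards from a boundary point -/
lemma Dom.inward (hD : Dom w Ω c₀) {P e : ℝ × ℝ} (hP : P ∈ frontier Ω)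
    (he : e.1 * D1 w P + e.2 * D2 w P < 0) : ∀ᶠ t in 𝓝[>] (0 : ℝ), P + t • e ∈ Ω := by
  obtain ⟨δ, hδ, hloc⟩ := hD.loc P hP
  have h1 := neg_of_deriv_neg (hD.line P e) (by simpa using hD.zero P hP) he
  have h2 : ∀ᶠ t in 𝓝[>] (0 : ℝ), dist (P + t • e) P < δ := by
    have hc : ContinuousAt (fun t : ℝ => dist (P + t • e) P) 0 := by fun_prop
    have h3 : Tendsto (fun t : ℝ => dist (P + t • e) P) (𝓝[>] 0) (𝓝 0) := by
      have := hc.tendsto
      simp only [zero_smul, add_zero, dist_self] at this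
      exact this.mono_left nhdsWithin_le_nhds
    exact h3.eventually_lt_const hδ
  filter_upwards [h1, h2] with t h3 h4 using hloc _ h4 h3

lemma Dom.grad_sq_pos (hD : Dom w Ω c₀) {P : ℝ × ℝ} (hP : P ∈ frontier Ω) :
    0 < D1 w P ^ 2 + D2 w P ^ 2 := by
  rcases hD.grad P hP with h | h
  · have := sq_pos_of_ne_zero (a := D1 w P) h
    nlinarith [sq_nonneg (D2 w P)]
  · have := sq_pos_of_ne_zero (a := D2 w P) h
    nlinarith [sq_nonneg (D1 w P)]

/-- near a boundary point, the zero set of `w` is the boundary -/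
lemma Dom.zero_mem (hD : Dom w Ω c₀) {P : ℝ × ℝ} (hP : P ∈ frontier Ω) :
    ∀ᶠ x in 𝓝 P, w x = 0 → x ∈ frontier Ω := by
  obtain ⟨δ, hδ, hloc⟩ := hD.loc P hP
  set e : ℝ × ℝ := (-D1 w P, -D2 w P) with he
  have hc1 : Continuous (D1 w) := (cd_D1 (n := 2) hD.smooth).continuous
  have hc2 : Continuous (D2 w) := (cd_D2 (n := 2) hD.smooth).continuous
  have hcont : Continuous (fun x => e.1 * D1 w x + e.2 * D2 w x) := by fun_prop
  have hneg : e.1 * D1 w P + e.2 * D2 w P < 0 := by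
    have := hD.grad_sq_pos hP
    simp only [he]; nlinarith
  have h1 : ∀ᶠ x in 𝓝 P, e.1 * D1 w x + e.2 * D2 w x < 0 :=
    hcont.continuousAt.eventually_lt_const hneg
  have h2 : ∀ᶠ x in 𝓝 P, dist x P < δ := Metric.ball_mem_nhds P hδ
  filter_upwards [h1, h2] with x hx1 hx2 hx0
  have h3 := neg_of_deriv_neg (hD.line x e) (by simpa using hx0) hx1
  have h4 : ∀ᶠ t in 𝓝[>] (0 : ℝ), dist (x + t • e) P < δ := by
    have hc : ContinuousAt (fun t : ℝ => dist (x + t • e) P) 0 := by fun_prop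
    have h5 : Tendsto (fun t : ℝ => dist (x + t • e) P) (𝓝[>] 0) (𝓝 (dist x P)) := by
      have := hc.tendsto
      simp only [zero_smul, add_zero] at this
      exact this.mono_left nhdsWithin_le_nhds
    exact h5.eventually_lt_const hx2
  have h6 : ∀ᶠ t in 𝓝[>] (0 : ℝ), x + t • e ∈ Ω := by
    filter_upwards [h3, h4] with t h7 h8 using hloc _ h8 h7
  have h7 : Tendsto (fun t : ℝ => x + t • e) (𝓝[>] 0) (𝓝 x) := by
    have hc : ContinuousAt (fun t : ℝ => x + t • e) 0 := by fun_prop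
    have := hc.tendsto
    simp only [zero_smul, add_zero] at this
    exact this.mono_left nhdsWithin_le_nhds
  have h8 : x ∈ closure Ω := mem_closure_of_tendsto h7 h6
  rw [frontier, hD.isOpen.interior_eq]
  refine ⟨h8, fun hxΩ => ?_⟩
  have := hD.neg x hxΩ
  linarith

/-- Lagrange multipliers on the boundary curve -/
lemma Dom.multiplier (hD : Dom w Ω c₀) {P : ℝ × ℝ} (hP : P ∈ frontier Ω) {ζ : ℝ × ℝ → ℝ}
    (hζ : ContDiffAt ℝ 1 ζ P) (hmax : ∀ x ∈ frontier Ω, ζ x ≤ ζ P) :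
    ∃ μ : ℝ, D1 ζ P = μ * D1 w P ∧ D2 ζ P = μ * D2 w P := by
  have hex : IsLocalExtrOn ζ {x | w x = w P} P := by
    right
    have h0 := hD.zero_mem hP
    have : ∀ᶠ x in 𝓝[{x | w x = w P}] P, ζ x ≤ ζ P := by
      filter_upwards [h0.filter_mono nhdsWithin_le_nhds, self_mem_nhdsWithin] with x hx hx1
      apply hmax
      apply hx
      rw [← hD.zero P hP]; exact hx1
    exact this
  have hw' : HasStrictFDerivAt w (fderiv ℝ w P) P :=
    (hD.smooth.contDiffAt).hasStrictFDerivAt (by norm_num)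
  have hζ' : HasStrictFDerivAt ζ (fderiv ℝ ζ P) P := hζ.hasStrictFDerivAt (by norm_num)
  obtain ⟨a, b, hab, heq⟩ := hex.exists_multipliers_of_hasStrictFDerivAt_1d hw' hζ'
  have e1 : a * D1 w P + b * D1 ζ P = 0 := by
    have := congrArg (fun L => L ((1 : ℝ), (0 : ℝ))) heq
    simpa [D1] using this
  have e2 : a * D2 w P + b * D2 ζ P = 0 := by
    have := congrArg (fun L => L ((0 : ℝ), (1 : ℝ))) heq
    simpa [D2] using this
  have hb : b ≠ 0 := by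
    intro hb
    subst hb
    have ha : a ≠ 0 := by
      rintro rfl; exact hab rfl
    simp only [zero_mul, add_zero, mul_eq_zero] at e1 e2
    rcases hD.grad P hP with h | h
    · exact h (e1.resolve_left ha)
    · exact h (e2.resolve_left ha)
  refine ⟨-(a / b), ?_, ?_⟩
  · field_simp; linarith
  · field_simp; linarith

/-- Lagrange multipliers for functions vanishing on the boundary -/
lemma Dom.multiplier0 (hD : Dom w Ω c₀) {P : ℝ × ℝ} (hP : P ∈ frontier Ω) {ζ : ℝ × ℝ → ℝ}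
    (hζ : ContDiffAt ℝ 1 ζ P) (h0 : ∀ x ∈ frontier Ω, ζ x = 0) :
    ∃ μ : ℝ, D1 ζ P = μ * D1 w P ∧ D2 ζ P = μ * D2 w P :=
  hD.multiplier hP hζ (fun x hx => by rw [h0 x hx, h0 P hP])

/-- first order information at a boundary minimum -/
lemma Dom.inner_sign (hD : Dom w Ω c₀) {P : ℝ × ℝ} (hP : P ∈ frontier Ω) {h : ℝ × ℝ → ℝ}
    (hh : DifferentiableAt ℝ h P) (hpos : ∀ᶠ x in 𝓝 P, x ∈ Ω → h P ≤ h x) :
    D1 h P * D1 w P + D2 h P * D2 w P ≤ 0 := by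
  by_contra hcon
  push Not at hcon
  set e : ℝ × ℝ := (-D1 w P, -D2 w P) with he
  have hneg : e.1 * D1 w P + e.2 * D2 w P < 0 := by
    have := hD.grad_sq_pos hP
    simp only [he]; nlinarith
  have h1 := hD.inward hP hneg
  have h2 : HasDerivAt (fun s : ℝ => h (P + s • e) - h P) (e.1 * D1 h P + e.2 * D2 h P) 0 := by
    have := (hasDerivAt_line (f := h) (x := P) (e := e) (t := 0) (by simpa using hh)).sub_const
      (h P)
    simpa using this
  have h3 := neg_of_deriv_neg h2 (by simp) (by simp only [he]; nlinarith)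
  have h7 : Tendsto (fun t : ℝ => P + t • e) (𝓝[>] 0) (𝓝 P) := by
    have hc : ContinuousAt (fun t : ℝ => P + t • e) 0 := by fun_prop
    have := hc.tendsto
    simp only [zero_smul, add_zero] at this
    exact this.mono_left nhdsWithin_le_nhds
  have h4 := h7.eventually hpos
  obtain ⟨t, ht⟩ := (h1.and (h3.and h4)).exists
  have h5 := ht.2.2 ht.1
  linarith [ht.2.1]

end domfacts

end AP
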