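import Pool.Agent.Lib_helper42.AP.Sol

/-! Step 2, preparatory estimates. -/

namespace AP

open Set Filter Topology Metric

lemma taylor1_abs {f f1 : ℝ → ℝ} {t M : ℝ}
    (hf : ∀ s, |s| ≤ |t| → HasDerivAt f (f1 s) s)
    (hM : ∀ s, |s| ≤ |t| → |f1 s| ≤ M) : |f t - f 0| ≤ M * |t| := by
  have hconv : Convex ℝ (Icc (-|t|) |t|) := convex_Icc _ _
  have := hconv.norm_image_sub_le_of_norm_hasDerivWithin_le (f := f) (f' := f1) (C := M)
    (x := 0) (y := t)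
    (fun s hs => (hf s (abs_le.2 hs)).hasDerivWithinAt)
    (fun s hs => hM s (abs_le.2 hs))
    (mem_Icc.2 ⟨by linarith [abs_nonneg t], abs_nonneg t⟩)
    (mem_Icc.2 ⟨neg_abs_le t, le_abs_self t⟩)
  simpa using this

section slices

variable {f : ℝ × ℝ → ℝ}

/-- derivative of slices, globally smooth functions -/
lemma sl1 (hf : ContDiff ℝ 1 f) (t y : ℝ) : HasDerivAt (fun s => f (s, y)) (D1 f (t, y)) t :=
  hasDerivAt_slice1 (hf.differentiable (by norm_num) _)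

lemma sl2 (hf : ContDiff ℝ 1 f) (t y : ℝ) : HasDerivAt (fun s => f (t, s)) (D2 f (t, y)) y :=
  hasDerivAt_slice2 (hf.differentiable (by norm_num) _)

lemma convexOn_slice1 (hf : ContDiff ℝ 2 f) {a b y : ℝ}
    (h : ∀ s ∈ Ioo a b, 0 ≤ D1 (D1 f) (s, y)) :
    ConvexOn ℝ (Icc a b) (fun s => f (s, y)) := by
  have h1 : ContDiff ℝ 1 (D1 f) := cd_D1 (n := 1) hf
  have hd : deriv (fun s => f (s, y)) = fun s => D1 f (s, y) := by
    ext s; exact (sl1 (hf.of_le (by norm_num)) s y).deriv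
  have hdd : deriv (deriv (fun s => f (s, y))) = fun s => D1 (D1 f) (s, y) := by
    rw [hd]; ext s; exact (sl1 h1 s y).deriv
  apply convexOn_of_deriv2_nonneg (convex_Icc a b)
  · have := hf.continuous; fun_prop
  · intro s _
    exact (sl1 (hf.of_le (by norm_num)) s y).differentiableAt.differentiableWithinAt
  · rw [hd]; intro s _; exact (sl1 h1 s y).differentiableAt.differentiableWithinAt
  · intro s hs
    rw [interior_Icc] at hs
    have : deriv^[2] (fun s => f (s, y)) = deriv (deriv (fun s => f (s, y))) := rfl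
    rw [this, hdd]
    exact h s hs

end slices

/-- position of the boundary point at height `y` -/
lemma expand_w {A p t y κ w12 w2t wt0 W r : ℝ} (hW : 0 ≤ W) (hr : 0 < r) (hr1 : r ≤ 1)
    (ht : |t| ≤ r) (hy0 : 0 ≤ y) (hy : y ≤ r ^ 2 / 8)
    (h1 : |0 - (wt0 + w2t * y)| ≤ W / 2 * y ^ 2)
    (h2 : |w2t - (-A + w12 * t)| ≤ W / 2 * t ^ 2) (h12 : |w12| ≤ W)
    (h3 : |wt0 - (0 + p * t + κ / 2 * t ^ 2 + 0 / 6 * t ^ 3)| ≤ W / 6 * |t| ^ 3) :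
    |A * y - p * t - κ / 2 * t ^ 2| ≤ 3 * W * r ^ 3 := by
  have ht2 : t ^ 2 ≤ r ^ 2 := by rw [← sq_abs t]; exact pow_le_pow_left₀ (abs_nonneg _) ht 2
  have ht3 : |t| ^ 3 ≤ r ^ 3 := pow_le_pow_left₀ (abs_nonneg _) ht 3
  have hy2 : y ^ 2 ≤ r ^ 3 := by
    have : y ^ 2 ≤ (r ^ 2 / 8) ^ 2 := pow_le_pow_left₀ hy0 hy 2
    have h5 : r ^ 4 ≤ r ^ 3 := pow_le_pow_of_le_one hr.le hr1 (by norm_num)
    nlinarith [pow_pos hr 3]
  have e : A * y - p * t - κ / 2 * t ^ 2 =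
      (0 - (wt0 + w2t * y)) + (w2t - (-A + w12 * t)) * y + w12 * t * y
      + (wt0 - (0 + p * t + κ / 2 * t ^ 2 + 0 / 6 * t ^ 3)) := by ring
  have b2 : |(w2t - (-A + w12 * t)) * y| ≤ (W / 2 * t ^ 2) * y := by
    rw [abs_mul, abs_of_nonneg hy0]; exact mul_le_mul_of_nonneg_right h2 hy0
  have b2' : (W / 2 * t ^ 2) * y ≤ W / 2 * r ^ 3 := by
    have : t ^ 2 * y ≤ r ^ 2 * (r ^ 2 / 8) := mul_le_mul ht2 hy hy0 (by positivity)
    have h5 : r ^ 4 ≤ r ^ 3 := pow_le_pow_of_le_one hr.le hr1 (by norm_num)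
    have h6 : t ^ 2 * y ≤ r ^ 3 := by nlinarith [pow_pos hr 3]
    nlinarith
  have b3 : |w12 * t * y| ≤ W * r ^ 3 := by
    rw [abs_mul, abs_mul, abs_of_nonneg hy0]
    have : |w12| * |t| ≤ W * r := mul_le_mul h12 ht (abs_nonneg _) hW
    have h7 : |w12| * |t| * y ≤ W * r * (r ^ 2 / 8) := mul_le_mul this hy hy0 (by positivity)
    have : 0 ≤ W * r ^ 3 := by positivity
    nlinarith
  rw [e]
  have s1 := abs_add_le ((0 - (wt0 + w2t * y)) + (w2t - (-A + w12 * t)) * y + w12 * t * y)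
    (wt0 - (0 + p * t + κ / 2 * t ^ 2 + 0 / 6 * t ^ 3))
  have s2 := abs_add_le ((0 - (wt0 + w2t * y)) + (w2t - (-A + w12 * t)) * y) (w12 * t * y)
  have s3 := abs_add_le (0 - (wt0 + w2t * y)) ((w2t - (-A + w12 * t)) * y)
  have h8 : W / 2 * y ^ 2 ≤ W / 2 * r ^ 3 := mul_le_mul_of_nonneg_left hy2 (by positivity)
  have h9 : W / 6 * |t| ^ 3 ≤ W / 6 * r ^ 3 := mul_le_mul_of_nonneg_left ht3 (by positivity)
  have h10 : 0 ≤ W * r ^ 3 := by positivity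
  linarith

/-- the data minus the bilinear correction on the boundary -/
lemma expand_G {A p t y κ G11 G12 G111 G2t Gt0 Gty W K c₀ r ε : ℝ} (hW : 0 ≤ W) (hK : 0 ≤ K)
    (hc : 0 < c₀) (hκ : c₀ ≤ κ) (hr : 0 < r) (hr1 : r ≤ 1)
    (ht : |t| ≤ r) (hy0 : 0 ≤ y) (hy : y ≤ r ^ 2 / 8)
    (hyt : |A * y - p * t - κ / 2 * t ^ 2| ≤ 3 * W * r ^ 3)
    (h1 : |Gty - (Gt0 + G2t * y)| ≤ K / 2 * y ^ 2)
    (h2 : |G2t - (0 + G12 * t)| ≤ K / 2 * t ^ 2) (h111 : |G111| ≤ K)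
    (h3 : |Gt0 - (0 + 0 * t + G11 / 2 * t ^ 2 + G111 / 6 * t ^ 3)| ≤ ε / 6 * |t| ^ 3)
    (hε : 0 ≤ ε) :
    Gty - (G12 + G111 * A / (3 * κ)) * t * y ≤
      r ^ 2 * max (G11 / 2 - G111 * p / (3 * κ)) 0 + (K + K * W / c₀) * r ^ 4
        + ε / 6 * r ^ 3 := by
  have hκ0 : 0 < κ := lt_of_lt_of_le hc hκ
  have ht2 : t ^ 2 ≤ r ^ 2 := by rw [← sq_abs t]; exact pow_le_pow_left₀ (abs_nonneg _) ht 2
  have ht3 : |t| ^ 3 ≤ r ^ 3 := pow_le_pow_left₀ (abs_nonneg _) ht 3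
  set e := A * y - p * t - κ / 2 * t ^ 2 with he
  have hid : Gty - (G12 + G111 * A / (3 * κ)) * t * y =
      (Gty - (Gt0 + G2t * y)) + (G2t - (0 + G12 * t)) * y
      + (Gt0 - (0 + 0 * t + G11 / 2 * t ^ 2 + G111 / 6 * t ^ 3))
      + (G11 / 2 - G111 * p / (3 * κ)) * t ^ 2 - G111 / (3 * κ) * t * e := by
    rw [he]; field_simp; ring
  have b1 : Gty - (Gt0 + G2t * y) ≤ K / 2 * r ^ 4 := by
    have : y ^ 2 ≤ (r ^ 2 / 8) ^ 2 := pow_le_pow_left₀ hy0 hy 2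
    have h4 : y ^ 2 ≤ r ^ 4 := by nlinarith [pow_pos hr 4]
    have h5 := mul_le_mul_of_nonneg_left h4 (by positivity : 0 ≤ K / 2)
    linarith [(abs_le.1 h1).2]
  have b2 : (G2t - (0 + G12 * t)) * y ≤ K / 2 * r ^ 4 := by
    have h4 := mul_le_mul_of_nonneg_right (abs_le.1 h2).2 hy0
    have h5 : t ^ 2 * y ≤ r ^ 2 * (r ^ 2 / 8) := mul_le_mul ht2 hy hy0 (by positivity)
    have h6 : t ^ 2 * y ≤ r ^ 4 := by nlinarith [pow_pos hr 4]
    have h7 := mul_le_mul_of_nonneg_left h6 (by positivity : 0 ≤ K / 2)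
    nlinarith
  have b3 : Gt0 - (0 + 0 * t + G11 / 2 * t ^ 2 + G111 / 6 * t ^ 3) ≤ ε / 6 * r ^ 3 := by
    have := mul_le_mul_of_nonneg_left ht3 (by positivity : 0 ≤ ε / 6)
    linarith [(abs_le.1 h3).2]
  have b4 : (G11 / 2 - G111 * p / (3 * κ)) * t ^ 2 ≤
      r ^ 2 * max (G11 / 2 - G111 * p / (3 * κ)) 0 := by
    calc (G11 / 2 - G111 * p / (3 * κ)) * t ^ 2
        ≤ max (G11 / 2 - G111 * p / (3 * κ)) 0 * t ^ 2 :=
          mul_le_mul_of_nonneg_right (le_max_left _ _) (sq_nonneg _)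
      _ ≤ max (G11 / 2 - G111 * p / (3 * κ)) 0 * r ^ 2 :=
          mul_le_mul_of_nonneg_left ht2 (le_max_right _ _)
      _ = _ := by ring
  have b5 : -(G111 / (3 * κ) * t * e) ≤ K * W / c₀ * r ^ 4 := by
    have h4 : |G111 / (3 * κ)| ≤ K / (3 * c₀) := by
      rw [abs_div, abs_of_pos (by positivity : 0 < 3 * κ)]
      exact div_le_div₀ hK h111 (by positivity) (by linarith)
    have h5 : |G111 / (3 * κ) * t| ≤ K / (3 * c₀) * r := abs_mul_le' h4 ht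
    have h6 : |G111 / (3 * κ) * t * e| ≤ K / (3 * c₀) * r * (3 * W * r ^ 3) :=
      abs_mul_le' h5 hyt
    have h7 : K / (3 * c₀) * r * (3 * W * r ^ 3) = K * W / c₀ * r ^ 4 := by
      field_simp
    have := neg_abs_le (G111 / (3 * κ) * t * e)
    linarith
  rw [hid]
  linarith
where
  abs_mul_le' {p q A B : ℝ} (hp : |p| ≤ A) (hq : |q| ≤ B) : |p * q| ≤ A * B := by
    rw [abs_mul]
    exact mul_le_mul hp hq (abs_nonneg _) (le_trans (abs_nonneg _) hp)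

end AP
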