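import Pool.Agent.Lib_helper42.AP.Loc1

/-! Step 2: the local nondegeneracy lemma. -/

namespace AP

open Set Filter Topology Metric

/-- if the slice is negative at `0` and at `t`, then it is negative in between; stated for a
convex function on an interval containing everything -/
lemma slice_neg {f : ℝ → ℝ} {a b : ℝ} (hf : ConvexOn ℝ (Icc a b) f) {s t : ℝ}
    (h0 : (0 : ℝ) ∈ Icc a b) (hb : t ∈ Icc a b) (hs0 : 0 ≤ s) (hst : s < t) (hf0 : f 0 < 0)
    (hft : f t ≤ 0) : f s < 0 := by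
  have ht : 0 < t := lt_of_le_of_lt hs0 hst
  have h1 := hf.2 h0 hb
    (show (0 : ℝ) ≤ 1 - s / t by rw [sub_nonneg, div_le_one ht]; exact hst.le)
    (show (0 : ℝ) ≤ s / t by positivity) (by ring)
  have h2 : (1 - s / t) • (0 : ℝ) + (s / t) • t = s := by
    simp only [smul_eq_mul]; field_simp; ring
  rw [h2] at h1
  simp only [smul_eq_mul] at h1
  have h3 : 0 < 1 - s / t := by rw [sub_pos, div_lt_one ht]; exact hst
  have h4 : 0 ≤ s / t := by positivity
  nlinarith

lemma slice_neg' {f : ℝ → ℝ} {a b : ℝ} (hf : ConvexOn ℝ (Icc a b) f) {s t : ℝ}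
    (h0 : (0 : ℝ) ∈ Icc a b) (hb : t ∈ Icc a b) (hs0 : s ≤ 0) (hst : t < s) (hf0 : f 0 < 0)
    (hft : f t ≤ 0) : f s < 0 := by
  have ht : t < 0 := lt_of_lt_of_le hst hs0
  have h5 : 0 ≤ s / t := div_nonneg_of_nonpos hs0 ht.le
  have h6 : s / t < 1 := by rw [div_lt_one_of_neg ht]; exact hst
  have h1 := hf.2 h0 hb (show (0 : ℝ) ≤ 1 - s / t by linarith) h5 (by ring)
  have h2 : (1 - s / t) • (0 : ℝ) + (s / t) • t = s := by
    have htn : t ≠ 0 := ht.ne
    simp only [smul_eq_mul, mul_zero, zero_add]; field_simp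
  rw [h2] at h1
  simp only [smul_eq_mul] at h1
  nlinarith

/-- the slice argument: convexity in the horizontal direction -/
lemma slice_bound {w v : ℝ × ℝ → ℝ} (hw : ContDiff ℝ 2 w) (hv : ContDiff ℝ 2 v) {r y c E : ℝ}
    (hr : 0 < r) (hw11 : ∀ x, 0 ≤ D1 (D1 w) x)
    (h0 : w (0, y) < 0) (hp : 0 < w (r, y)) (hm : 0 < w (-r, y))
    (hv11 : ∀ t, |t| ≤ r → w (t, y) < 0 → 0 < D1 (D1 v) (t, y))
    (hE : ∀ t, |t| ≤ r → w (t, y) = 0 → v (t, y) - c * t * y ≤ E)
    {t : ℝ} (ht : |t| ≤ r) (hwt : w (t, y) < 0) : v (t, y) - c * t * y ≤ E := by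
  have hwc : Continuous (fun s => w (s, y)) := by have := hw.continuous; fun_prop
  have hconv : ConvexOn ℝ (Icc (-r) r) (fun s => w (s, y)) :=
    convexOn_slice1 hw (fun s _ => hw11 _)
  have h0m : (0 : ℝ) ∈ Icc (-r) r := ⟨by linarith, hr.le⟩
  obtain ⟨tp, htp, htp0⟩ := intermediate_value_Icc hr.le hwc.continuousOn
    (show (0 : ℝ) ∈ Icc (w (0, y)) (w (r, y)) from ⟨h0.le, hp.le⟩)
  obtain ⟨tm, htm, htm0⟩ := intermediate_value_Icc' (by linarith : -r ≤ (0 : ℝ)) hwc.continuousOn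
    (show (0 : ℝ) ∈ Icc (w (0, y)) (w (-r, y)) from ⟨h0.le, hm.le⟩)
  simp only at htp0 htm0
  have htp_pos : 0 < tp := by
    rcases htp.1.eq_or_lt with h | h
    · rw [← h] at htp0; linarith
    · exact h
  have htm_neg : tm < 0 := by
    rcases htm.2.eq_or_lt with h | h
    · rw [h] at htm0; linarith
    · exact h
  have mtp : tp ∈ Icc (-r) r := ⟨by linarith, htp.2⟩
  have mtm : tm ∈ Icc (-r) r := ⟨htm.1, by linarith⟩
  have mt : t ∈ Icc (-r) r := abs_le.1 ht
  -- negativity strictly between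
  have hneg : ∀ s ∈ Ioo tm tp, w (s, y) < 0 := by
    intro s hs
    rcases le_total 0 s with h | h
    · exact slice_neg hconv h0m mtp h hs.2 h0 htp0.le
    · exact slice_neg' hconv h0m mtm h hs.1 h0 htm0.le
  have htI : t ∈ Icc tm tp := by
    constructor
    · by_contra hcon
      push Not at hcon
      have := slice_neg' hconv h0m mt htm_neg.le hcon h0 hwt.le
      linarith
    · by_contra hcon
      push Not at hcon
      have := slice_neg hconv h0m mt htp_pos.le hcon h0 hwt.le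
      linarith
  -- convexity of the corrected solution
  have hv' : ContDiff ℝ 2 (fun x : ℝ × ℝ => v x - c * x.1 * y) := by fun_prop
  have hconv2 : ConvexOn ℝ (Icc tm tp) (fun s => v (s, y) - c * s * y) := by
    apply convexOn_slice1 hv'
    intro s hs
    have h1 : D1 (D1 (fun x : ℝ × ℝ => v x - c * x.1 * y)) (s, y) = D1 (D1 v) (s, y) := by
      rw [D11_sub hv.contDiffAt (by fun_prop)]
      have h2 : D1 (fun x : ℝ × ℝ => c * x.1 * y) = fun _ => c * y := by
        ext x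
        have : (fun x : ℝ × ℝ => c * x.1 * y) = fun x => (c * y) * x.1 := by ext x; ring
        rw [this, D1_const_mul _ (by fun_prop), D1_fst]; ring
      rw [h2, D1_const]; ring
    rw [h1]
    have hsr : |s| ≤ r := by
      rw [abs_le]; exact ⟨by linarith [hs.1, htm.1], by linarith [hs.2, htp.2]⟩
    exact (hv11 s hsr (hneg s hs)).le
  have hmax := hconv2.le_max_of_mem_Icc (left_mem_Icc.2 (by linarith)) (right_mem_Icc.2 (by linarith))
    htI
  have e1 := hE tm (abs_le.2 mtm) htm0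
  have e2 := hE tp (abs_le.2 mtp) htp0
  exact hmax.trans (max_le e1 e2)

/-- the barrier in the rectangle -/
lemma rect_bound {v : ℝ × ℝ → ℝ} (hv : ContDiff ℝ 2 v) {ρ η c E : ℝ} (hρ : 0 < ρ) (hη : 0 < η)
    (hsol : ∀ t y, |t| ≤ ρ → η / 4 ≤ y → y ≤ 3 * η / 4 →
      0 < D1 (D1 v) (t, y) ∧ 0 < D2 (D2 v) (t, y) ∧ D1 (D1 v) (t, y) * D2 (D2 v) (t, y) = 1)
    (hE : ∀ t y, |t| ≤ ρ → η / 4 ≤ y → y ≤ 3 * η / 4 → v (t, y) - c * t * y ≤ E) :
    v (0, η / 2) ≤ E - ρ * η / 16 := by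
  set C := ρ * η / 16 with hC
  set α := 2 * C / ρ ^ 2 with hα
  set β := 32 * C / η ^ 2 with hβ
  have hαβ : α * β = 1 / 4 := by
    rw [hα, hβ, hC]; field_simp; norm_num
  set q1 : ℝ × ℝ → ℝ := fun x => (x.1 - 0) ^ 2 with hq1
  set q2 : ℝ × ℝ → ℝ := fun x => (x.2 - η / 2) ^ 2 with hq2
  have cq1 : ContDiff ℝ 2 q1 := by simp only [hq1]; fun_prop
  have cq2 : ContDiff ℝ 2 q2 := by simp only [hq2]; fun_prop
  have c1 : ContDiff ℝ 2 (fun x : ℝ × ℝ => c * x.1 * x.2) := by fun_prop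
  have c2 : ContDiff ℝ 2 (fun x : ℝ × ℝ => v x - c * x.1 * x.2) := hv.sub c1
  have c3 : ContDiff ℝ 2 (fun x : ℝ × ℝ => α / 2 * q1 x) := contDiff_const.mul cq1
  have c4 : ContDiff ℝ 2 (fun x : ℝ × ℝ => β / 2 * q2 x) := contDiff_const.mul cq2
  have c5 : ContDiff ℝ 2 (fun x : ℝ × ℝ => α / 2 * q1 x + β / 2 * q2 x) := c3.add c4
  have c6 : ContDiff ℝ 2 (fun x : ℝ × ℝ =>
      (v x - c * x.1 * x.2) - (α / 2 * q1 x + β / 2 * q2 x)) := c2.sub c5
  set R : Set (ℝ × ℝ) := Ioo (-ρ) ρ ×ˢ Ioo (η / 4) (3 * η / 4) with hR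
  have hRo : IsOpen R := isOpen_Ioo.prod isOpen_Ioo
  have hRb : Bornology.IsBounded R := (isBounded_Ioo _ _).prod (isBounded_Ioo _ _)
  have hcl : closure R = Icc (-ρ) ρ ×ˢ Icc (η / 4) (3 * η / 4) := by
    rw [hR, closure_prod_eq, closure_Ioo (by linarith), closure_Ioo (by linarith)]
  have bil : ∀ x : ℝ × ℝ, D1 (D1 (fun x : ℝ × ℝ => c * x.1 * x.2)) x = 0 ∧
      D2 (D2 (fun x : ℝ × ℝ => c * x.1 * x.2)) x = 0 := by
    intro x
    constructor
    · have h2 : D1 (fun x : ℝ × ℝ => c * x.1 * x.2) = fun x => c * x.2 := by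
        ext x
        rw [D1_mul (by fun_prop) (by fun_prop), D1_const_mul _ (by fun_prop), D1_fst, D1_snd]
        ring
      rw [h2, D1_const_mul _ (by fun_prop), D1_snd]; ring
    · have h2 : D2 (fun x : ℝ × ℝ => c * x.1 * x.2) = fun x => c * x.1 := by
        ext x
        rw [D2_mul (by fun_prop) (by fun_prop), D2_const_mul _ (by fun_prop), D2_fst, D2_snd]
        ring
      rw [h2, D2_const_mul _ (by fun_prop), D2_fst]; ring
  have key := max_principle0 hRo hRb
    (g := fun x => (v x - c * x.1 * x.2) - (α / 2 * q1 x + β / 2 * q2 x))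
    c6.continuous.continuousOn (fun x _ => c6.contDiffAt)
    (fun x hx => by
      obtain ⟨t, y⟩ := x
      have hx1 : |t| ≤ ρ := abs_le.2 ⟨hx.1.1.le, hx.1.2.le⟩
      obtain ⟨s1, s2, s3⟩ := hsol t y hx1 hx.2.1.le hx.2.2.le
      rw [D11_sub c2.contDiffAt c5.contDiffAt, D22_sub c2.contDiffAt c5.contDiffAt,
        D11_sub hv.contDiffAt c1.contDiffAt, D22_sub hv.contDiffAt c1.contDiffAt,
        D11_add c3.contDiffAt c4.contDiffAt, D22_add c3.contDiffAt c4.contDiffAt,
        D11_const_mul _ cq1.contDiffAt, D22_const_mul _ cq1.contDiffAt,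
        D11_const_mul _ cq2.contDiffAt, D22_const_mul _ cq2.contDiffAt,
        (bil (t, y)).1, (bil (t, y)).2, hq1, hq2, D11_sq1, D11_sq2, D22_sq1, D22_sq2]
      by_contra hcon
      push Not at hcon
      have h1 : D1 (D1 v) (t, y) ≤ α := by linarith [hcon.1]
      have h2 : D2 (D2 v) (t, y) ≤ β := by linarith [hcon.2]
      have : D1 (D1 v) (t, y) * D2 (D2 v) (t, y) ≤ α * β :=
        mul_le_mul h1 h2 s2.le (s1.le.trans h1)
      rw [s3, hαβ] at this
      linarith) (m := E - C)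
    (fun x hx => by
      have hxc : x ∈ closure R := frontier_subset_closure hx
      have hxn : x ∉ R := by rw [frontier, hRo.interior_eq] at hx; exact hx.2
      obtain ⟨t, y⟩ := x
      rw [hcl] at hxc
      have ht : |t| ≤ ρ := abs_le.2 hxc.1
      have hy1 : η / 4 ≤ y := hxc.2.1
      have hy2 : y ≤ 3 * η / 4 := hxc.2.2
      have hEv := hE t y ht hy1 hy2
      have hCα : α / 2 * ρ ^ 2 = C := by rw [hα]; field_simp
      have hCβ : β / 2 * (η / 4) ^ 2 = C := by rw [hβ]; field_simp; ring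
      have hC0 : 0 ≤ C := by positivity
      have hα0 : 0 ≤ α := by positivity
      have hβ0 : 0 ≤ β := by positivity
      simp only [hq1, hq2, sub_zero]
      have hcase : t ^ 2 = ρ ^ 2 ∨ (y - η / 2) ^ 2 = (η / 4) ^ 2 := by
        by_cases h1 : |t| = ρ
        · left; rw [← h1, sq_abs]
        · right
          have hlt : |t| < ρ := lt_of_le_of_ne ht h1
          have hy3 : ¬ (η / 4 < y ∧ y < 3 * η / 4) := by
            intro hh
            exact hxn ⟨abs_lt.1 hlt, hh⟩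
          have : y = η / 4 ∨ y = 3 * η / 4 := by
            by_contra hcon
            push Not at hcon
            exact hy3 ⟨lt_of_le_of_ne hy1 (Ne.symm hcon.1), lt_of_le_of_ne hy2 hcon.2⟩
          rcases this with h | h
          · rw [h]; ring
          · rw [h]; ring
      rcases hcase with h | h
      · rw [h, hCα]
        have : 0 ≤ β / 2 * (y - η / 2) ^ 2 := by positivity
        linarith
      · rw [h, hCβ]
        have : 0 ≤ α / 2 * t ^ 2 := by positivity
        linarith)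
  have := key (0, η / 2) (by
    rw [hcl]; exact ⟨⟨by linarith, hρ.le⟩, ⟨by linarith, by linarith⟩⟩)
  simp only [hq1, hq2] at this
  have e : v (0, η / 2) - c * 0 * (η / 2) - (α / 2 * (0 - 0) ^ 2 + β / 2 * (η / 2 - η / 2) ^ 2)
      = v (0, η / 2) := by ring
  rw [e] at this
  linarith

end AP
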