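import Pool.Agent.Lib_helper42.AP.Loc2

/-! Step 2: the local nondegeneracy lemma, complete. -/

namespace AP

open Set Filter Topology Metric

theorem local_nondeg {w G v : ℝ × ℝ → ℝ} {c₀ W K μ₁ r ε θ α : ℝ}
    (hw : ContDiff ℝ 3 w) (hG : ContDiff ℝ 3 G) (hv : ContDiff ℝ 2 v)
    (hc₀ : 0 < c₀) (hc₀W : c₀ ≤ W) (hK : 0 ≤ K) (hμ₁ : 0 < μ₁) (hμW : μ₁ ≤ W)
    (hw11 : ∀ x, c₀ ≤ D1 (D1 w) x)
    (hwb : ∀ x : ℝ × ℝ, |x.1| ≤ 1 → |x.2| ≤ 1 → BdAt w x W)
    (hGb : ∀ x : ℝ × ℝ, |x.1| ≤ 1 → |x.2| ≤ 1 → |D2 (D2 G) x| ≤ K ∧ |D1 (D1 (D1 G)) x| ≤ K ∧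
      |D1 (D1 (D2 G)) x| ≤ K)
    (w0 : w (0, 0) = 0) (G0 : G (0, 0) = 0) (G1 : D1 G (0, 0) = 0) (G2 : D2 G (0, 0) = 0)
    (hA : D2 w (0, 0) ≤ -μ₁)
    (hθ : θ = c₀ / (8 * W)) (hα : α = μ₁ * θ / (16 * W))
    (hr : 0 < r) (hr1 : r ≤ 1 / 2) (hr2 : 4 * c₀ * r ≤ μ₁ * θ)
    (hp : |D1 w (0, 0)| ≤ μ₁ * θ / 32 * r) (hp2 : |D1 w (0, 0)| ≤ c₀ / 16 * r)
    (hmod : ∀ t, |t| ≤ r → |D1 (D1 (D1 G)) (t, 0) - D1 (D1 (D1 G)) (0, 0)| ≤ ε)
    (hε : ε ≤ 6 * (α * θ / 64)) (hr3 : (K + K * W / c₀) * r ≤ α * θ / 64)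
    (hsol : ∀ t y, |t| ≤ r → 0 < y → y ≤ θ * r ^ 2 → w (t, y) < 0 →
      0 < D1 (D1 v) (t, y) ∧ 0 < D2 (D2 v) (t, y) ∧ D1 (D1 v) (t, y) * D2 (D2 v) (t, y) = 1)
    (hbd : ∀ t y, |t| ≤ r → 0 < y → y ≤ θ * r ^ 2 → w (t, y) = 0 → v (t, y) = G (t, y))
    (v0 : v (0, 0) = 0) (v2 : D2 v (0, 0) = 0) :
    α * θ * r / 32 ≤ D1 (D1 G) (0, 0) / 2 + K * |D1 w (0, 0)| / (3 * c₀) := by
  have hW : 0 < W := lt_of_lt_of_le hc₀ hc₀W
  set A := -D2 w (0, 0) with hAdef
  set p := D1 w (0, 0) with hpdef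
  have hAμ : μ₁ ≤ A := by rw [hAdef]; linarith
  have h00 : BdAt w (0, 0) W := hwb (0, 0) (by simp) (by simp)
  have hAW : A ≤ W := by have := (abs_le.1 h00.b2).1; rw [hAdef]; linarith
  have hθ0 : 0 < θ := by rw [hθ]; positivity
  have hWθ : W * θ = c₀ / 8 := by rw [hθ]; field_simp
  have hθ1 : θ ≤ 1 / 8 := by rw [hθ, div_le_iff₀ (by positivity)]; linarith
  have hα0 : 0 < α := by rw [hα]; positivity
  have hα1 : α ≤ 1 := by
    rw [hα, div_le_one (by positivity)]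
    nlinarith
  have hα2 : 16 * W * α ^ 2 ≤ μ₁ * θ := by
    have e : 16 * W * α = μ₁ * θ := by rw [hα]; field_simp
    calc 16 * W * α ^ 2 = (16 * W * α) * α := by ring
      _ = μ₁ * θ * α := by rw [e]
      _ ≤ μ₁ * θ * 1 := mul_le_mul_of_nonneg_left hα1 (by positivity)
      _ = μ₁ * θ := by ring
  have hr1' : r ≤ 1 := by linarith
  set η := θ * r ^ 2 with hη
  have hη0 : 0 < η := by positivity
  have hηr : η ≤ r ^ 2 / 8 := by rw [hη]; nlinarith [pow_pos hr 2]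
  have hη1 : η ≤ 1 := by
    have : r ^ 2 ≤ 1 := pow_le_one₀ hr.le hr1'
    linarith
  have hWη : W * η = c₀ / 8 * r ^ 2 := by rw [hη, ← mul_assoc, hWθ]
  -- derivatives of slices
  have w1c : ContDiff ℝ 1 w := hw.of_le (by norm_num)
  have w2c : ContDiff ℝ 2 w := hw.of_le (by norm_num)
  have hD1w : ContDiff ℝ 2 (D1 w) := cd_D1 (n := 2) hw
  have hD2w : ContDiff ℝ 2 (D2 w) := cd_D2 (n := 2) hw
  have hD11w : ContDiff ℝ 1 (D1 (D1 w)) := cd_D1 (n := 1) hD1w
  have hD12w : ContDiff ℝ 1 (D1 (D2 w)) := cd_D1 (n := 1) hD2w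
  have hD1w1 : ContDiff ℝ 1 (D1 w) := hD1w.of_le (by norm_num)
  have hD2w1 : ContDiff ℝ 1 (D2 w) := hD2w.of_le (by norm_num)
  have G1c : ContDiff ℝ 1 G := hG.of_le (by norm_num)
  have hD1G : ContDiff ℝ 2 (D1 G) := cd_D1 (n := 2) hG
  have hD2G : ContDiff ℝ 2 (D2 G) := cd_D2 (n := 2) hG
  have hD11G : ContDiff ℝ 1 (D1 (D1 G)) := cd_D1 (n := 1) hD1G
  have hD12G : ContDiff ℝ 1 (D1 (D2 G)) := cd_D1 (n := 1) hD2G
  have hD1G1 : ContDiff ℝ 1 (D1 G) := hD1G.of_le (by norm_num)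
  have hD2G1 : ContDiff ℝ 1 (D2 G) := hD2G.of_le (by norm_num)
  -- (a) vertical expansion of `w` above the origin
  have F1 : ∀ y, 0 ≤ y → y ≤ η → |w (0, y) - (0 + -A * y)| ≤ W / 2 * y ^ 2 := by
    intro y hy0 hy
    have hy1 : y ≤ 1 := hy.trans hη1
    have := taylor2_abs (f := fun s => w (0, s)) (f1 := fun s => D2 w (0, s))
      (f2 := fun s => D2 (D2 w) (0, s)) (t := y) (M := W)
      (fun s _ => sl2 w1c 0 s) (fun s _ => sl2 hD2w1 0 s)
      (fun s hs => (hwb (0, s) (by simp) (by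
        simp only; rw [abs_of_nonneg hy0] at hs; linarith)).b22)
    simp only [w0] at this
    rw [hAdef, neg_neg]; exact this
  have F2 : ∀ y, 0 ≤ y → y ≤ η → |D1 w (0, y) - p| ≤ W * y := by
    intro y hy0 hy
    have hy1 : y ≤ 1 := hy.trans hη1
    have := taylor1_abs (f := fun s => D1 w (0, s)) (f1 := fun s => D2 (D1 w) (0, s))
      (t := y) (M := W) (fun s _ => sl2 hD1w1 0 s)
      (fun s hs => by
        rw [D12_comm_fun w2c]
        exact (hwb (0, s) (by simp) (by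
          simp only; rw [abs_of_nonneg hy0] at hs; linarith)).b12)
    rw [abs_of_nonneg hy0] at this
    exact this
  -- horizontal expansions of `w` at height `y`
  have F3 : ∀ t y, w (0, y) + D1 w (0, y) * t + c₀ / 2 * t ^ 2 ≤ w (t, y) := by
    intro t y
    exact taylor2_ge (f := fun s => w (s, y)) (f1 := fun s => D1 w (s, y))
      (f2 := fun s => D1 (D1 w) (s, y)) (t := t) (m := c₀)
      (fun s _ => sl1 w1c s y) (fun s _ => sl1 hD1w1 s y) (fun s _ => hw11 _)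
  have F4 : ∀ t y, |t| ≤ 1 → |y| ≤ 1 →
      w (t, y) ≤ w (0, y) + D1 w (0, y) * t + W / 2 * t ^ 2 := by
    intro t y ht hy
    exact taylor2_le (f := fun s => w (s, y)) (f1 := fun s => D1 w (s, y))
      (f2 := fun s => D1 (D1 w) (s, y)) (t := t) (M := W)
      (fun s _ => sl1 w1c s y) (fun s _ => sl1 hD1w1 s y)
      (fun s hs => (abs_le.1 (hwb (s, y) (hs.trans ht) hy).b11).2)
  -- positivity at the two ends
  have hends : ∀ t y, |t| = r → 0 < y → y ≤ η → 0 < w (t, y) := by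
    intro t y ht hy0 hy
    have f1 := (abs_le.1 (F1 y hy0.le hy)).1
    have f2 := F2 y hy0.le hy
    have f3 := F3 t y
    have ht2 : t ^ 2 = r ^ 2 := by rw [← sq_abs, ht]
    rw [ht2] at f3
    have hWy : W * y ≤ c₀ / 8 * r ^ 2 := by
      rw [← hWη]; exact mul_le_mul_of_nonneg_left hy hW.le
    have hAy : A * y ≤ c₀ / 8 * r ^ 2 := by nlinarith
    have hWy2 : W / 2 * y ^ 2 ≤ c₀ / 16 * r ^ 2 := by
      have h1 : y ≤ 1 := hy.trans hη1
      have h2 : W * y * y ≤ c₀ / 8 * r ^ 2 * 1 := mul_le_mul hWy h1 hy0.le (by positivity)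
      have h3 : W / 2 * y ^ 2 = W * y * y / 2 := by ring
      linarith
    have hd : |D1 w (0, y)| ≤ c₀ / 16 * r + c₀ / 8 * r ^ 2 := by
      have h5 := abs_add_le (D1 w (0, y) - p) p
      rw [sub_add_cancel] at h5
      linarith
    have hdt : -(D1 w (0, y) * t) ≤ (c₀ / 16 * r + c₀ / 8 * r ^ 2) * r := by
      have h6 : |D1 w (0, y) * t| ≤ (c₀ / 16 * r + c₀ / 8 * r ^ 2) * r := by
        rw [abs_mul, ht]; exact mul_le_mul_of_nonneg_right hd hr.le
      have := neg_abs_le (D1 w (0, y) * t)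
      linarith
    have hr3' : c₀ / 8 * r ^ 2 * r ≤ c₀ / 16 * r ^ 2 := by
      have : 0 ≤ c₀ / 8 * r ^ 2 := by positivity
      nlinarith
    have hpos : 0 < c₀ * r ^ 2 := by positivity
    nlinarith
  -- negativity above the origin
  have hneg0 : ∀ y, 0 < y → y ≤ η → w (0, y) ≤ -(A * y / 2) := by
    intro y hy0 hy
    have f1 := (abs_le.1 (F1 y hy0.le hy)).2
    have hWy : W * y ≤ A := by
      calc W * y ≤ W * η := mul_le_mul_of_nonneg_left hy hW.le
        _ = c₀ / 8 * r ^ 2 := hWη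
        _ ≤ μ₁ := by
          have h5 : c₀ * r ≤ μ₁ := by nlinarith
          have h6 : c₀ * r * r ≤ μ₁ * 1 := mul_le_mul h5 hr1' hr.le hμ₁.le
          have h7 : c₀ * r ^ 2 = c₀ * r * r := by ring
          nlinarith
        _ ≤ A := hAμ
    nlinarith
  have hneg0' : ∀ y, 0 < y → y ≤ η → w (0, y) < 0 := by
    intro y hy0 hy
    have := hneg0 y hy0 hy
    have : 0 < A * y / 2 := by
      have : 0 < A := lt_of_lt_of_le hμ₁ hAμ
      positivity
    linarith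
  -- (c) the rectangle
  have hrect : ∀ t y, |t| ≤ α * r → η / 4 ≤ y → y ≤ 3 * η / 4 → w (t, y) < 0 := by
    intro t y ht hy1 hy2
    have hy0 : 0 < y := by linarith
    have hyη : y ≤ η := by linarith
    have htr : |t| ≤ r := ht.trans (by nlinarith)
    have f4 := F4 t y (htr.trans hr1') (by rw [abs_of_pos hy0]; linarith)
    have f5 := hneg0 y hy0 hyη
    have h6 : A * y / 2 ≥ μ₁ * θ / 8 * r ^ 2 := by
      have : μ₁ * (η / 4) ≤ A * y := mul_le_mul hAμ hy1 (by positivity) (by linarith)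
      rw [hη] at this
      linarith
    have hd : |D1 w (0, y)| ≤ μ₁ * θ / 32 * r + c₀ / 8 * r ^ 2 := by
      have h5 := abs_add_le (D1 w (0, y) - p) p
      rw [sub_add_cancel] at h5
      have f2 := F2 y hy0.le hyη
      have hWy : W * y ≤ c₀ / 8 * r ^ 2 := by
        rw [← hWη]; exact mul_le_mul_of_nonneg_left hyη hW.le
      linarith
    have hd' : |D1 w (0, y)| ≤ μ₁ * θ / 16 * r := by
      have : c₀ / 8 * r ^ 2 ≤ μ₁ * θ / 32 * r := by nlinarith
      linarith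
    have hdt : D1 w (0, y) * t ≤ μ₁ * θ / 16 * r ^ 2 := by
      calc D1 w (0, y) * t ≤ |D1 w (0, y) * t| := le_abs_self _
        _ = |D1 w (0, y)| * |t| := abs_mul _ _
        _ ≤ (μ₁ * θ / 16 * r) * r := mul_le_mul hd' htr (abs_nonneg _) (by positivity)
        _ = _ := by ring
    have hWt : W / 2 * t ^ 2 ≤ μ₁ * θ / 32 * r ^ 2 := by
      have h7 : t ^ 2 ≤ (α * r) ^ 2 := by
        rw [← sq_abs]; exact pow_le_pow_left₀ (abs_nonneg _) ht 2
      have h8 : W / 2 * t ^ 2 ≤ W / 2 * (α * r) ^ 2 := mul_le_mul_of_nonneg_left h7 (by positivity)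
      have h9 : W / 2 * (α * r) ^ 2 = (16 * W * α ^ 2) * r ^ 2 / 32 := by ring
      have h10 := mul_le_mul_of_nonneg_right hα2 (sq_nonneg r)
      linarith
    have : 0 < μ₁ * θ * r ^ 2 := by positivity
    linarith
  -- (d) the bound on the boundary data
  set κ := D1 (D1 w) (0, 0) with hκ
  have hκc : c₀ ≤ κ := hw11 _
  have hκ0 : 0 < κ := lt_of_lt_of_le hc₀ hκc
  set c := D1 (D2 G) (0, 0) + D1 (D1 (D1 G)) (0, 0) * A / (3 * κ) with hc
  set X := D1 (D1 G) (0, 0) / 2 - D1 (D1 (D1 G)) (0, 0) * p / (3 * κ) with hX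
  set E := r ^ 2 * max X 0 + (K + K * W / c₀) * r ^ 4 + ε / 6 * r ^ 3 with hE
  have hε0 : 0 ≤ ε := le_trans (abs_nonneg _) (hmod 0 (by simpa using hr.le))
  have hbound : ∀ t y, |t| ≤ r → 0 < y → y ≤ η → w (t, y) = 0 →
      v (t, y) - c * t * y ≤ E := by
    intro t y ht hy0 hy hwt
    rw [hbd t y ht hy0 hy hwt]
    have ht1 : |t| ≤ 1 := ht.trans hr1'
    have hy1 : y ≤ 1 := hy.trans hη1
    have hys : ∀ s, |s| ≤ |y| → |s| ≤ 1 := by
      intro s hs; rw [abs_of_pos hy0] at hs; linarith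
    have hts : ∀ s, |s| ≤ |t| → |s| ≤ 1 := fun s hs => hs.trans ht1
    have t1 := taylor2_abs (f := fun s => w (t, s)) (f1 := fun s => D2 w (t, s))
      (f2 := fun s => D2 (D2 w) (t, s)) (t := y) (M := W)
      (fun s _ => sl2 w1c t s) (fun s _ => sl2 hD2w1 t s)
      (fun s hs => (hwb (t, s) ht1 (hys s hs)).b22)
    simp only [hwt] at t1
    have t2 := taylor2_abs (f := fun s => D2 w (s, 0)) (f1 := fun s => D1 (D2 w) (s, 0))
      (f2 := fun s => D1 (D1 (D2 w)) (s, 0)) (t := t) (M := W)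
      (fun s _ => sl1 hD2w1 s 0) (fun s _ => sl1 hD12w s 0)
      (fun s hs => (hwb (s, 0) (hts s hs) (by simp)).b112)
    have t3 := taylor3_abs (f := fun s => w (s, 0)) (f1 := fun s => D1 w (s, 0))
      (f2 := fun s => D1 (D1 w) (s, 0)) (f3 := fun s => D1 (D1 (D1 w)) (s, 0)) (t := t)
      (M := W) (c := 0)
      (fun s _ => sl1 w1c s 0) (fun s _ => sl1 hD1w1 s 0) (fun s _ => sl1 hD11w s 0)
      (fun s hs => by rw [sub_zero]; exact (hwb (s, 0) (hts s hs) (by simp)).b111)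
    simp only [w0] at t3
    have hyt := expand_w (A := A) (p := p) (κ := κ) hW.le hr hr1' ht hy0.le (hy.trans hηr) t1
      (by rw [hAdef, neg_neg]; exact t2) h00.b12 t3
    have s1 := taylor2_abs (f := fun s => G (t, s)) (f1 := fun s => D2 G (t, s))
      (f2 := fun s => D2 (D2 G) (t, s)) (t := y) (M := K)
      (fun s _ => sl2 G1c t s) (fun s _ => sl2 hD2G1 t s)
      (fun s hs => (hGb (t, s) ht1 (hys s hs)).1)
    have s2 := taylor2_abs (f := fun s => D2 G (s, 0)) (f1 := fun s => D1 (D2 G) (s, 0))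
      (f2 := fun s => D1 (D1 (D2 G)) (s, 0)) (t := t) (M := K)
      (fun s _ => sl1 hD2G1 s 0) (fun s _ => sl1 hD12G s 0)
      (fun s hs => (hGb (s, 0) (hts s hs) (by simp)).2.2)
    simp only [G2] at s2
    have s3 := taylor3_abs (f := fun s => G (s, 0)) (f1 := fun s => D1 G (s, 0))
      (f2 := fun s => D1 (D1 G) (s, 0)) (f3 := fun s => D1 (D1 (D1 G)) (s, 0)) (t := t)
      (M := ε) (c := D1 (D1 (D1 G)) (0, 0))
      (fun s _ => sl1 G1c s 0) (fun s _ => sl1 hD1G1 s 0) (fun s _ => sl1 hD11G s 0)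
      (fun s hs => hmod s (hs.trans ht))
    simp only [G0, G1] at s3
    exact expand_G hW.le hK hc₀ hκc hr hr1' ht hy0.le (hy.trans hηr) hyt s1 s2
      (hGb (0, 0) (by simp) (by simp)).2.1 s3 hε0
  -- (e) the bound in the rectangle
  have hslice : ∀ t y, |t| ≤ α * r → η / 4 ≤ y → y ≤ 3 * η / 4 → v (t, y) - c * t * y ≤ E := by
    intro t y ht hy1 hy2
    have hy0 : 0 < y := by linarith
    have hyη : y ≤ η := by linarith
    have htr : |t| ≤ r := ht.trans (by nlinarith)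
    exact slice_bound w2c hv hr (fun x => hc₀.le.trans (hw11 x)) (hneg0' y hy0 hyη)
      (hends r y (abs_of_pos hr) hy0 hyη) (hends (-r) y (by rw [abs_neg, abs_of_pos hr]) hy0 hyη)
      (fun s hs hws => (hsol s y hs hy0 hyη hws).1)
      (fun s hs hws => hbound s y hs hy0 hyη hws) htr (hrect t y ht hy1 hy2)
  have hfin := rect_bound hv (ρ := α * r) (η := η) (c := c) (E := E) (by positivity) hη0
    (fun t y ht hy1 hy2 => hsol t y (ht.trans (by nlinarith)) (by linarith) (by linarith)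
      (hrect t y ht hy1 hy2)) hslice
  -- (g) lower bound
  have hD2v : ContDiff ℝ 1 (D2 v) := cd_D2 (n := 1) hv
  have hD22v : Continuous (D2 (D2 v)) := (cd_D2 (n := 0) hD2v).continuous
  have hlow : 0 ≤ v (0, η / 2) := by
    have hpos : ∀ s ∈ Icc 0 (η / 2), 0 ≤ D2 (D2 v) (0, s) := by
      intro s hs
      rcases hs.1.eq_or_lt with h | h
      · rw [← h]
        have hc1 : ContinuousAt (fun s : ℝ => D2 (D2 v) (0, s)) 0 := by fun_prop
        have ht : Tendsto (fun s : ℝ => D2 (D2 v) (0, s)) (𝓝[>] 0) (𝓝 (D2 (D2 v) (0, 0))) :=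
          hc1.tendsto.mono_left nhdsWithin_le_nhds
        apply ge_of_tendsto ht
        filter_upwards [Ioo_mem_nhdsGT hη0] with y hy
        exact (hsol 0 y (by simpa using hr.le) hy.1 hy.2.le (hneg0' y hy.1 hy.2.le)).2.1.le
      · have h5 : s ≤ η := by linarith [hs.2]
        exact (hsol 0 s (by simpa using hr.le) h h5 (hneg0' s h h5)).2.1.le
    have := convex_slope_zero (f := fun s => v (0, s)) (f1 := fun s => D2 v (0, s))
      (f2 := fun s => D2 (D2 v) (0, s)) (t := η / 2) (by positivity)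
      (fun s _ => sl2 (hv.of_le (by norm_num)) 0 s) (fun s _ => sl2 hD2v 0 s) hpos v2
    simp only [v0] at this
    exact this
  -- (h) conclusion
  have hEge : α * θ * r ^ 3 / 16 ≤ E := by
    have e : α * r * η / 16 = α * θ * r ^ 3 / 16 := by rw [hη]; ring
    rw [e] at hfin
    linarith
  have e4 : (K + K * W / c₀) * r ^ 4 ≤ α * θ / 64 * r ^ 3 := by
    have := mul_le_mul_of_nonneg_right hr3 (pow_pos hr 3).le
    calc (K + K * W / c₀) * r ^ 4 = (K + K * W / c₀) * r * r ^ 3 := by ring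
      _ ≤ _ := this
  have e3 : ε / 6 * r ^ 3 ≤ α * θ / 64 * r ^ 3 :=
    mul_le_mul_of_nonneg_right (by linarith) (pow_pos hr 3).le
  have hmax : α * θ * r / 32 ≤ max X 0 := by
    have h5 : α * θ * r / 32 * r ^ 2 ≤ max X 0 * r ^ 2 := by
      rw [hE] at hEge
      nlinarith
    exact le_of_mul_le_mul_right h5 (by positivity)
  have hXpos : α * θ * r / 32 ≤ X := by
    rcases le_total X 0 with h | h
    · rw [max_eq_right h] at hmax
      have : 0 < α * θ * r / 32 := by positivity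
      linarith
    · rwa [max_eq_left h] at hmax
  have hXle : X ≤ D1 (D1 G) (0, 0) / 2 + K * |p| / (3 * c₀) := by
    have h5 : |D1 (D1 (D1 G)) (0, 0) * p / (3 * κ)| ≤ K * |p| / (3 * c₀) := by
      rw [abs_div, abs_mul, abs_of_pos (by positivity : 0 < 3 * κ)]
      apply div_le_div₀ (by positivity) _ (by positivity) (by linarith)
      exact mul_le_mul_of_nonneg_right (hGb (0, 0) (by simp) (by simp)).2.1 (abs_nonneg _)
    have := neg_abs_le (D1 (D1 (D1 G)) (0, 0) * p / (3 * κ))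
    rw [hX]; linarith
  exact hXpos.trans hXle

end AP
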