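import Pool.Agent.Lib_helper42.AP.Step4
import Pool.Agent.Lib_helper42.AP.Loc3

/-! Step 2 applied at boundary points. -/

namespace AP

open Set Filter Topology Metric

/-- translation and vertical reflection -/
def aff (P : ℝ × ℝ) (s : ℝ) (x : ℝ × ℝ) : ℝ × ℝ := (P.1 + x.1, P.2 + s * x.2)

lemma aff_zero (P : ℝ × ℝ) (s : ℝ) : aff P s (0, 0) = P := by
  simp [aff]

lemma contDiff_aff (P : ℝ × ℝ) (s : ℝ) {n : WithTop ℕ∞} : ContDiff ℝ n (aff P s) := by
  unfold aff; fun_prop

section aff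

variable {f : ℝ × ℝ → ℝ} {P : ℝ × ℝ} {s : ℝ}

lemma hasFDerivAt_aff (x : ℝ × ℝ) : HasFDerivAt (aff P s)
    ((ContinuousLinearMap.fst ℝ ℝ ℝ).prod (s • ContinuousLinearMap.snd ℝ ℝ ℝ)) x := by
  unfold aff
  have h1 : HasFDerivAt (fun x : ℝ × ℝ => P.1 + x.1) (ContinuousLinearMap.fst ℝ ℝ ℝ) x :=
    hasFDerivAt_fst.const_add P.1
  have h2 : HasFDerivAt (fun x : ℝ × ℝ => P.2 + s * x.2) (s • ContinuousLinearMap.snd ℝ ℝ ℝ) x :=
    (hasFDerivAt_snd.const_mul s).const_add P.2
  exact h1.prodMk h2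

lemma D1_aff (hf : Differentiable ℝ f) :
    D1 (fun x => f (aff P s x)) = fun x => D1 f (aff P s x) := by
  ext x
  have h := ((hf (aff P s x)).hasFDerivAt.comp x (hasFDerivAt_aff x)).fderiv
  have h' : fderiv ℝ (fun x => f (aff P s x)) x = (fderiv ℝ f (aff P s x)).comp
    ((ContinuousLinearMap.fst ℝ ℝ ℝ).prod (s • ContinuousLinearMap.snd ℝ ℝ ℝ)) := h
  unfold D1
  rw [h']
  simp

lemma D2_aff (hf : Differentiable ℝ f) :
    D2 (fun x => f (aff P s x)) = fun x => s * D2 f (aff P s x) := by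
  ext x
  have h := ((hf (aff P s x)).hasFDerivAt.comp x (hasFDerivAt_aff x)).fderiv
  have h' : fderiv ℝ (fun x => f (aff P s x)) x = (fderiv ℝ f (aff P s x)).comp
    ((ContinuousLinearMap.fst ℝ ℝ ℝ).prod (s • ContinuousLinearMap.snd ℝ ℝ ℝ)) := h
  have e : D2 (fun x => f (aff P s x)) x = fderiv ℝ (fun x => f (aff P s x)) x (0, 1) := rfl
  rw [e, h']
  have e2 : ((fderiv ℝ f (aff P s x)).comp ((ContinuousLinearMap.fst ℝ ℝ ℝ).prod
    (s • ContinuousLinearMap.snd ℝ ℝ ℝ))) (0, 1) = fderiv ℝ f (aff P s x) (0, s) := by simp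
  rw [e2, fderiv_apply_eq]
  simp

/-- all derivatives of the composition -/
lemma derivs_aff (hf : ContDiff ℝ 3 f) (hs : s * s = 1) :
    (∀ x, D1 (fun x => f (aff P s x)) x = D1 f (aff P s x)) ∧
    (∀ x, D2 (fun x => f (aff P s x)) x = s * D2 f (aff P s x)) ∧
    (∀ x, D1 (D1 (fun x => f (aff P s x))) x = D1 (D1 f) (aff P s x)) ∧
    (∀ x, D1 (D2 (fun x => f (aff P s x))) x = s * D1 (D2 f) (aff P s x)) ∧
    (∀ x, D2 (D2 (fun x => f (aff P s x))) x = D2 (D2 f) (aff P s x)) ∧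
    (∀ x, D1 (D1 (D1 (fun x => f (aff P s x)))) x = D1 (D1 (D1 f)) (aff P s x)) ∧
    (∀ x, D1 (D1 (D2 (fun x => f (aff P s x)))) x = s * D1 (D1 (D2 f)) (aff P s x)) ∧
    (∀ x, D1 (D2 (D2 (fun x => f (aff P s x)))) x = D1 (D2 (D2 f)) (aff P s x)) ∧
    (∀ x, D2 (D2 (D2 (fun x => f (aff P s x)))) x = s * D2 (D2 (D2 f)) (aff P s x)) := by
  have h0 : Differentiable ℝ f := hf.differentiable (by norm_num)
  have f1 : ContDiff ℝ 2 (D1 f) := cd_D1 (n := 2) hf
  have f2 : ContDiff ℝ 2 (D2 f) := cd_D2 (n := 2) hf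
  have f11 : ContDiff ℝ 1 (D1 (D1 f)) := cd_D1 (n := 1) f1
  have f12 : ContDiff ℝ 1 (D1 (D2 f)) := cd_D1 (n := 1) f2
  have f22 : ContDiff ℝ 1 (D2 (D2 f)) := cd_D2 (n := 1) f2
  have g1 : Differentiable ℝ (D1 f) := f1.differentiable (by norm_num)
  have g2 : Differentiable ℝ (D2 f) := f2.differentiable (by norm_num)
  have g11 : Differentiable ℝ (D1 (D1 f)) := f11.differentiable (by norm_num)
  have g12 : Differentiable ℝ (D1 (D2 f)) := f12.differentiable (by norm_num)
  have g22 : Differentiable ℝ (D2 (D2 f)) := f22.differentiable (by norm_num)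
  have ca : Differentiable ℝ (aff P s) := (contDiff_aff P s (n := 1)).differentiable (by norm_num)
  have e1 := D1_aff (P := P) (s := s) h0
  have e2 := D2_aff (P := P) (s := s) h0
  have e11 : D1 (D1 (fun x => f (aff P s x))) = fun x => D1 (D1 f) (aff P s x) := by
    rw [e1, D1_aff g1]
  have e12 : D1 (D2 (fun x => f (aff P s x))) = fun x => s * D1 (D2 f) (aff P s x) := by
    rw [e2]; ext x
    rw [D1_const_mul s (show DifferentiableAt ℝ (fun x => D2 f (aff P s x)) x from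
      (g2.comp ca) x), D1_aff g2]
  have e22 : D2 (D2 (fun x => f (aff P s x))) = fun x => D2 (D2 f) (aff P s x) := by
    rw [e2]; ext x
    rw [D2_const_mul s (show DifferentiableAt ℝ (fun x => D2 f (aff P s x)) x from
      (g2.comp ca) x), D2_aff g2]
    simp only; rw [← mul_assoc, hs, one_mul]
  refine ⟨fun x => by rw [e1], fun x => by rw [e2], fun x => by rw [e11], fun x => by rw [e12],
    fun x => by rw [e22], fun x => by rw [e11, D1_aff g11], fun x => ?_,
    fun x => by rw [e22, D1_aff g22], fun x => by rw [e22, D2_aff g22]⟩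
  rw [e12, D1_const_mul s (show DifferentiableAt ℝ (fun x => D1 (D2 f) (aff P s x)) x from
      (g12.comp ca) x), D1_aff g12]

lemma abs_s (hs : s * s = 1) : |s| = 1 := by
  have h1 : |s| * |s| = 1 := by rw [← abs_mul, hs, abs_one]
  nlinarith [abs_nonneg s]

lemma BdAt_aff (hf : ContDiff ℝ 3 f) (hs : s * s = 1) {x : ℝ × ℝ} {W : ℝ}
    (h : BdAt f (aff P s x) W) : BdAt (fun x => f (aff P s x)) x W := by
  obtain ⟨e1, e2, e11, e12, e22, e111, e112, e122, e222⟩ := derivs_aff (P := P) hf hs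
  have ha := abs_s hs
  refine ⟨h.b0, ?_, ?_, ?_, ?_, ?_, ?_, ?_, ?_, ?_⟩
  · rw [e1]; exact h.b1
  · rw [e2, abs_mul, ha, one_mul]; exact h.b2
  · rw [e11]; exact h.b11
  · rw [e12, abs_mul, ha, one_mul]; exact h.b12
  · rw [e22]; exact h.b22
  · rw [e111]; exact h.b111
  · rw [e112, abs_mul, ha, one_mul]; exact h.b112
  · rw [e122]; exact h.b122
  · rw [e222, abs_mul, ha, one_mul]; exact h.b222

lemma dist_aff (hs : s * s = 1) {x : ℝ × ℝ} {ρ : ℝ} (h1 : |x.1| ≤ ρ) (h2 : |x.2| ≤ ρ) :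
    dist (aff P s x) P ≤ ρ := by
  rw [Prod.dist_eq, max_le_iff, Real.dist_eq, Real.dist_eq]
  constructor
  · simp only [aff, add_sub_cancel_left]; exact h1
  · simp only [aff, add_sub_cancel_left]; rw [abs_mul, abs_s hs, one_mul]; exact h2

end aff

section

variable {w φ u : ℝ × ℝ → ℝ} {Ω : Set (ℝ × ℝ)} {c₀ K N : ℝ}

/-- the points above a boundary point where `w < 0` belong to `Ω` -/
lemma mem_above (hD : Dom w Ω c₀) {P : ℝ × ℝ} (hP : P ∈ frontier Ω) {s W μ₁ r η : ℝ}
    (hs : s * s = 1) (hμ₁ : 0 < μ₁) (hsw : s * D2 w P ≤ -μ₁) (hW : ∀ x, dist x P ≤ 1 → BdAt w x W)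
    (hη1 : η ≤ 1) (hWη : W * η ≤ μ₁) :
    (∀ y, 0 < y → y ≤ η → w (aff P s (0, y)) < 0) ∧
    (∀ t y, |t| ≤ r → 0 < y → y ≤ η → w (aff P s (t, y)) < 0 → aff P s (t, y) ∈ Ω) ∧
    (∀ t y, |t| ≤ r → 0 < y → y ≤ η → w (aff P s (t, y)) = 0 → aff P s (t, y) ∈ frontier Ω) := by
  have hdiff := derivs_aff (P := P) (s := s) hD.smooth hs
  obtain ⟨e1, e2, e11, e12, e22, -, -, -, -⟩ := hdiff
  set w' : ℝ × ℝ → ℝ := fun x => w (aff P s x) with hw'
  have hw'3 : ContDiff ℝ 3 w' := hD.smooth.comp (contDiff_aff P s)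
  have hw'1 : ContDiff ℝ 1 w' := hw'3.of_le (by norm_num)
  have hD2w' : ContDiff ℝ 1 (D2 w') := (cd_D2 (n := 2) hw'3).of_le (by norm_num)
  have w0 : w' (0, 0) = 0 := by simp only [hw', aff_zero]; exact hD.zero P hP
  have hneg : ∀ y, 0 < y → y ≤ η → w' (0, y) < 0 := by
    intro y hy0 hy
    have := taylor2_le (f := fun s => w' (0, s)) (f1 := fun s => D2 w' (0, s))
      (f2 := fun s => D2 (D2 w') (0, s)) (t := y) (M := W)
      (fun s _ => sl2 hw'1 0 s) (fun s _ => sl2 hD2w' 0 s)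
      (fun q hq => by
        rw [e22]
        apply (abs_le.1 (hW _ _).b22).2
        apply dist_aff hs (by simp)
        rw [abs_of_pos hy0] at hq
        simp only; linarith)
    simp only [w0, e2, aff_zero] at this
    have h3 : W * y ≤ μ₁ := by
      have hW0 : 0 ≤ W := le_trans (abs_nonneg _) (hW P (by simp)).b0
      exact (mul_le_mul_of_nonneg_left hy hW0).trans hWη
    have h4 : w' (0, y) ≤ -μ₁ * y + W / 2 * y ^ 2 := by nlinarith
    nlinarith [mul_pos hμ₁ hy0]
  have haff : ∀ t y : ℝ, aff P s (t, y) = (P.1 + t, P.2 + s * y) := fun t y => rfl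
  -- vertical
  have hvert : ∀ y, 0 < y → y ≤ η → aff P s (0, y) ∈ Ω := by
    intro y hy0 hy
    have hin := hD.inward (P := P) (e := (0, s)) hP (by simp only; linarith)
    obtain ⟨q, hq1, hq2⟩ := (hin.and (Ioo_mem_nhdsGT hy0)).exists
    have hq : P + q • ((0 : ℝ), s) = aff P s (0, q) := by
      rw [haff]; ext <;> simp [mul_comm]
    rw [hq] at hq1
    apply hD.seg _ hq1
    intro x hx
    obtain ⟨a, b, ha, hb, hab, rfl⟩ := hx
    have e : a • aff P s (0, q) + b • aff P s (0, y) = aff P s (0, a * q + b * y) := by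
      rw [haff, haff, haff]
      ext
      · simp only [Prod.fst_add, Prod.smul_fst, smul_eq_mul]
        linear_combination P.1 * hab
      · simp only [Prod.snd_add, Prod.smul_snd, smul_eq_mul]
        linear_combination P.2 * hab
    rw [e]
    apply hneg
    · have h1 : 0 ≤ a * q := mul_nonneg ha hq2.1.le
      have h2 : 0 ≤ b * y := mul_nonneg hb hy0.le
      rcases hb.eq_or_lt with h | h
      · have : a = 1 := by linarith
        rw [this, ← h]; linarith [hq2.1]
      · have : 0 < b * y := mul_pos h hy0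
        linarith
    · have : a * q ≤ a * y := mul_le_mul_of_nonneg_left hq2.2.le ha
      have h2 : a * y + b * y = y := by rw [← add_mul, hab, one_mul]
      linarith
  have hconv : ∀ y, ConvexOn ℝ (Icc (-r) r) (fun t => w' (t, y)) := fun y =>
    convexOn_slice1 (hw'3.of_le (by norm_num)) (fun t _ => by
      rw [e11]; exact hD.cpos.le.trans (hD.w11 _))
  have hmem : ∀ t y, |t| ≤ r → 0 < y → y ≤ η → w' (t, y) < 0 → aff P s (t, y) ∈ Ω := by
    intro t y ht hy0 hy hwt
    apply hD.seg _ (hvert y hy0 hy)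
    intro x hx
    obtain ⟨a, b, ha, hb, hab, rfl⟩ := hx
    have e : a • aff P s (0, y) + b • aff P s (t, y) = aff P s (a • 0 + b • t, y) := by
      rw [haff, haff, haff]
      ext
      · simp only [Prod.fst_add, Prod.smul_fst, smul_eq_mul]
        linear_combination P.1 * hab
      · simp only [Prod.snd_add, Prod.smul_snd, smul_eq_mul]
        linear_combination (P.2 + s * y) * hab
    rw [e]
    have hr0 : 0 ≤ r := le_trans (abs_nonneg _) ht
    have h1 := (hconv y).2 (show (0 : ℝ) ∈ Icc (-r) r from ⟨by linarith, hr0⟩) (abs_le.1 ht)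
      ha hb hab
    have h2 : w' (a • 0 + b • t, y) ≤ a • w' (0, y) + b • w' (t, y) := h1
    simp only [smul_eq_mul] at h2
    have h3 := hneg y hy0 hy
    change w' (a * 0 + b * t, y) < 0
    rcases ha.eq_or_lt with h | h
    · have : b = 1 := by linarith
      rw [← h, this] at h2 ⊢
      linarith
    · have h4 : a * w' (0, y) < 0 := mul_neg_of_pos_of_neg h h3
      have h5 : b * w' (t, y) ≤ 0 := mul_nonpos_of_nonneg_of_nonpos hb hwt.le
      linarith
  refine ⟨hneg, hmem, ?_⟩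
  intro t y ht hy0 hy hwt
  have hcl : aff P s (t, y) ∈ closure Ω := by
    have hr0 : 0 ≤ r := le_trans (abs_nonneg _) ht
    have h0m : (0 : ℝ) ∈ Icc (-r) r := ⟨by linarith, hr0⟩
    have hin : ∀ q ∈ Ioo (0 : ℝ) 1, aff P s (q * t, y) ∈ Ω := by
      intro q hq
      have hqt : |q * t| ≤ r := by
        rw [abs_mul, abs_of_pos hq.1]
        calc q * |t| ≤ 1 * |t| := mul_le_mul_of_nonneg_right hq.2.le (abs_nonneg _)
          _ ≤ r := by linarith
      apply hmem _ y hqt hy0 hy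
      have h1 := (hconv y).2 h0m (abs_le.1 ht) (show (0 : ℝ) ≤ 1 - q by linarith [hq.2]) hq.1.le
        (by ring)
      simp only [smul_eq_mul, mul_zero, zero_add] at h1
      have h3 := hneg y hy0 hy
      have hwt' : w' (t, y) = 0 := hwt
      have h1' : w' (q * t, y) ≤ (1 - q) * w' (0, y) + q * w' (t, y) := h1
      rw [hwt'] at h1'
      have : (1 - q) * w' (0, y) < 0 := mul_neg_of_pos_of_neg (by linarith [hq.2]) h3
      linarith
    have htend : Tendsto (fun q : ℝ => aff P s (q * t, y)) (𝓝[<] 1) (𝓝 (aff P s (t, y))) := by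
      have hc : Continuous (fun q : ℝ => aff P s (q * t, y)) := by unfold aff; fun_prop
      have := hc.tendsto 1
      rw [one_mul] at this
      exact this.mono_left nhdsWithin_le_nhds
    apply mem_closure_of_tendsto htend
    filter_upwards [Ioo_mem_nhdsLT (show (0 : ℝ) < 1 by norm_num)] with q hq using hin q hq
  rw [frontier, hD.isOpen.interior_eq]
  refine ⟨hcl, fun hx => ?_⟩
  have := hD.neg _ hx
  rw [hwt] at this
  exact lt_irrefl _ this

end

end AP
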