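import Pool.Agent.Lib_helper42.AP.Nondeg

/-! Step 2 applied at boundary points: main statement. -/

namespace AP

open Set Filter Topology Metric

/-- affine functions -/
def lin (P : ℝ × ℝ) (a b c : ℝ) (y : ℝ × ℝ) : ℝ := a + b * (y.1 - P.1) + c * (y.2 - P.2)

lemma lin_cd (P : ℝ × ℝ) (a b c : ℝ) {n : WithTop ℕ∞} : ContDiff ℝ n (lin P a b c) := by
  unfold lin; fun_prop

lemma D1_lin (P : ℝ × ℝ) (a b c : ℝ) : D1 (lin P a b c) = fun _ => b := by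
  ext x
  have h : lin P a b c = fun y : ℝ × ℝ => (a + b * (y.1 - P.1)) + c * (y.2 - P.2) := rfl
  rw [h, D1_add (by fun_prop) (by fun_prop), D1_add (by fun_prop) (by fun_prop), D1_const,
    D1_const_mul _ (by fun_prop), D1_const_mul _ (by fun_prop), D1_sub (by fun_prop) (by fun_prop),
    D1_sub (by fun_prop) (by fun_prop), D1_fst, D1_snd, D1_const, D1_const]
  ring

lemma D2_lin (P : ℝ × ℝ) (a b c : ℝ) : D2 (lin P a b c) = fun _ => c := by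
  ext x
  have h : lin P a b c = fun y : ℝ × ℝ => (a + b * (y.1 - P.1)) + c * (y.2 - P.2) := rfl
  rw [h, D2_add (by fun_prop) (by fun_prop), D2_add (by fun_prop) (by fun_prop), D2_const,
    D2_const_mul _ (by fun_prop), D2_const_mul _ (by fun_prop), D2_sub (by fun_prop) (by fun_prop),
    D2_sub (by fun_prop) (by fun_prop), D2_fst, D2_snd, D2_const, D2_const]
  ring

lemma D1_constf (c : ℝ) : D1 (fun _ : ℝ × ℝ => c) = fun _ => 0 := by
  ext x; exact D1_const c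

lemma D2_constf (c : ℝ) : D2 (fun _ : ℝ × ℝ => c) = fun _ => 0 := by
  ext x; exact D2_const c

lemma cm_D1 {f : ℝ × ℝ → ℝ} (c : ℝ) (hf : ContDiff ℝ 1 f) :
    D1 (fun x => c * f x) = fun x => c * D1 f x := by
  ext x; exact D1_const_mul c (hf.differentiable (by norm_num) x)

lemma cm_D2 {f : ℝ × ℝ → ℝ} (c : ℝ) (hf : ContDiff ℝ 1 f) :
    D2 (fun x => c * f x) = fun x => c * D2 f x := by
  ext x; exact D2_const_mul c (hf.differentiable (by norm_num) x)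

lemma cm_derivs {f : ℝ × ℝ → ℝ} (c : ℝ) (hf : ContDiff ℝ 3 f) (x : ℝ × ℝ) :
    D1 (fun x => c * f x) x = c * D1 f x ∧
    D2 (fun x => c * f x) x = c * D2 f x ∧
    D1 (D1 (fun x => c * f x)) x = c * D1 (D1 f) x ∧
    D1 (D2 (fun x => c * f x)) x = c * D1 (D2 f) x ∧
    D2 (D2 (fun x => c * f x)) x = c * D2 (D2 f) x ∧
    D1 (D1 (D1 (fun x => c * f x))) x = c * D1 (D1 (D1 f)) x ∧
    D1 (D1 (D2 (fun x => c * f x))) x = c * D1 (D1 (D2 f)) x ∧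
    D1 (D2 (D2 (fun x => c * f x))) x = c * D1 (D2 (D2 f)) x ∧
    D2 (D2 (D2 (fun x => c * f x))) x = c * D2 (D2 (D2 f)) x := by
  have u1 : ContDiff ℝ 2 (D1 f) := cd_D1 (n := 2) hf
  have u2 : ContDiff ℝ 2 (D2 f) := cd_D2 (n := 2) hf
  have u11 : ContDiff ℝ 1 (D1 (D1 f)) := cd_D1 (n := 1) u1
  have u12 : ContDiff ℝ 1 (D1 (D2 f)) := cd_D1 (n := 1) u2
  have u22 : ContDiff ℝ 1 (D2 (D2 f)) := cd_D2 (n := 1) u2
  rw [cm_D1 c (hf.of_le (by norm_num)), cm_D2 c (hf.of_le (by norm_num)),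
    cm_D1 c (u1.of_le (by norm_num)), cm_D1 c (u2.of_le (by norm_num)),
    cm_D2 c (u2.of_le (by norm_num)), cm_D1 c u11, cm_D1 c u12, cm_D1 c u22, cm_D2 c u22]
  exact ⟨rfl, rfl, rfl, rfl, rfl, rfl, rfl, rfl, rfl⟩

lemma lin_derivs (P : ℝ × ℝ) (a b c : ℝ) (x : ℝ × ℝ) :
    D1 (lin P a b c) x = b ∧ D2 (lin P a b c) x = c ∧
    D1 (D1 (lin P a b c)) x = 0 ∧ D1 (D2 (lin P a b c)) x = 0 ∧ D2 (D2 (lin P a b c)) x = 0 ∧
    D1 (D1 (D1 (lin P a b c))) x = 0 ∧ D1 (D1 (D2 (lin P a b c))) x = 0 ∧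
    D1 (D2 (D2 (lin P a b c))) x = 0 ∧ D2 (D2 (D2 (lin P a b c))) x = 0 := by
  simp only [D1_lin, D2_lin, D1_constf, D2_constf, and_self]

variable {w φ u : ℝ × ℝ → ℝ} {Ω : Set (ℝ × ℝ)} {c₀ K N : ℝ}

theorem nondeg (hD : Dom w Ω c₀) (hS : Sol φ u Ω) {W μ₁ r ε1 ε2 θ α lam : ℝ}
    {P : ℝ × ℝ} (hP : P ∈ frontier Ω)
    (hφ : ∀ x, BdAt φ x K) (hW : ∀ x, dist x P ≤ 1 → BdAt w x W)
    (hN0 : 0 ≤ N) (hlam : |lam| ≤ N)
    (hu1 : D1 u P = D1 φ P + lam * D1 w P) (hu2 : D2 u P = D2 φ P + lam * D2 w P)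
    (hc₀W : c₀ ≤ W) (hμ₁ : 0 < μ₁) (hμ : μ₁ ≤ |D2 w P|)
    (hθ : θ = c₀ / (8 * W)) (hα : α = μ₁ * θ / (16 * W))
    (hr : 0 < r) (hr1 : r ≤ 1 / 2) (hr2 : 4 * c₀ * r ≤ μ₁ * θ)
    (hp : |D1 w P| ≤ μ₁ * θ / 32 * r) (hp2 : |D1 w P| ≤ c₀ / 16 * r)
    (hmod1 : ∀ x, dist x P ≤ r → |D1 (D1 (D1 φ)) x - D1 (D1 (D1 φ)) P| ≤ ε1)
    (hmod2 : ∀ x, dist x P ≤ r → |D1 (D1 (D1 w)) x - D1 (D1 (D1 w)) P| ≤ ε2)
    (hε : ε1 + N * ε2 ≤ 6 * (α * θ / 64))
    (hr3 : ((K + N * W) + (K + N * W) * W / c₀) * r ≤ α * θ / 64) :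
    α * θ * r / 32 ≤ (D1 (D1 φ) P + lam * D1 (D1 w) P) / 2
      + (K + N * W) * |D1 w P| / (3 * c₀) := by
  -- the reflection
  have hWP : BdAt w P W := hW P (by simp)
  have hW0 : 0 ≤ W := le_trans (abs_nonneg _) hWP.b0
  have hW' : 0 < W := lt_of_lt_of_le hD.cpos hc₀W
  have hK0 : 0 ≤ K := le_trans (abs_nonneg _) (hφ P).b0
  have hμW : μ₁ ≤ W := hμ.trans hWP.b2
  obtain ⟨s, hs, hsw⟩ : ∃ s : ℝ, s * s = 1 ∧ s * D2 w P ≤ -μ₁ := by
    rcases le_total (D2 w P) 0 with h | h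
    · refine ⟨1, by norm_num, ?_⟩
      rw [abs_of_nonpos h] at hμ; linarith
    · refine ⟨-1, by norm_num, ?_⟩
      rw [abs_of_nonneg h] at hμ; linarith
  have hθ0 : 0 < θ := by rw [hθ]; have := hD.cpos; positivity
  have hθ1 : θ ≤ 1 / 8 := by rw [hθ, div_le_iff₀ (by positivity)]; linarith
  have hWθ : W * θ = c₀ / 8 := by rw [hθ]; field_simp
  have hr1' : r ≤ 1 := by linarith
  have hη1 : θ * r ^ 2 ≤ 1 := by
    have : r ^ 2 ≤ 1 := pow_le_one₀ hr.le hr1'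
    nlinarith
  have hWη : W * (θ * r ^ 2) ≤ μ₁ := by
    rw [← mul_assoc, hWθ]
    have h5 : c₀ * r ≤ μ₁ := by nlinarith
    have h6 : c₀ * r * r ≤ μ₁ * 1 := mul_le_mul h5 hr1' hr.le hμ₁.le
    nlinarith
  obtain ⟨m1, m2, m3⟩ := mem_above hD hP hs hμ₁ hsw hW hη1 hWη (r := r)
  -- the functions
  set l := lin P (u P) (D1 u P) (D2 u P) with hl
  set ψ : ℝ × ℝ → ℝ := fun x => φ x - (-lam) * w x with hψ
  have hw3 := hD.smooth
  have hmw : ContDiff ℝ 3 (fun x => (-lam) * w x) := contDiff_const.mul hw3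
  have hψ3 : ContDiff ℝ 3 ψ := hS.sφ.sub hmw
  have hl3 : ContDiff ℝ 3 l := lin_cd _ _ _ _
  set G0 : ℝ × ℝ → ℝ := fun x => ψ x - l x with hG0
  set v0 : ℝ × ℝ → ℝ := fun x => u x - l x with hv0
  have hG03 : ContDiff ℝ 3 G0 := hψ3.sub hl3
  have hv03 : ContDiff ℝ 3 v0 := hS.su.sub hl3
  have dG : ∀ x, _ := fun x => z_derivs hψ3 hl3 x
  have dψ : ∀ x, _ := fun x => z_derivs hS.sφ hmw x
  have dm : ∀ x, _ := fun x => cm_derivs (-lam) hw3 x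
  have dl : ∀ x, _ := fun x => lin_derivs P (u P) (D1 u P) (D2 u P) x
  have dv : ∀ x, _ := fun x => z_derivs hS.su hl3 x
  -- bounds for G0
  have bG : ∀ x, dist x P ≤ 1 → |D2 (D2 G0) x| ≤ K + N * W ∧ |D1 (D1 (D1 G0)) x| ≤ K + N * W ∧
      |D1 (D1 (D2 G0)) x| ≤ K + N * W := by
    intro x hx
    obtain ⟨-, -, -, -, g22, g111, g112, -, -⟩ := dG x
    obtain ⟨-, -, -, -, p22, p111, p112, -, -⟩ := dψ x
    obtain ⟨-, -, -, -, q22, q111, q112, -, -⟩ := dm x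
    obtain ⟨-, -, -, -, l22, l111, l112, -, -⟩ := dl x
    have hb := hW x hx
    have hf := hφ x
    have key : ∀ {f g : ℝ}, |f| ≤ K → |g| ≤ W → |f - -lam * g - 0| ≤ K + N * W := by
      intro f g h1 h2
      rw [sub_zero]
      exact abs_sub_le' h1 (abs_mul_le (by rwa [abs_neg]) h2)
    rw [g22, g111, g112, p22, p111, p112, q22, q111, q112, l22, l111, l112]
    exact ⟨key hf.b22 hb.b22, key hf.b111 hb.b111, key hf.b112 hb.b112⟩
  obtain ⟨e1, e2, e11, e12, e22, e111, e112, e122, e222⟩ := derivs_aff (P := P) (s := s) hw3 hs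
  obtain ⟨f1, f2, f11, f12, f22, f111, f112, f122, f222⟩ := derivs_aff (P := P) (s := s) hG03 hs
  obtain ⟨v1, v2, v11, v12, v22, -, -, -, -⟩ := derivs_aff (P := P) (s := s) hv03 hs
  have key := local_nondeg (w := fun x => w (aff P s x)) (G := fun x => G0 (aff P s x))
    (v := fun x => v0 (aff P s x)) (c₀ := c₀) (W := W) (K := K + N * W) (μ₁ := μ₁) (r := r)
    (ε := ε1 + N * ε2) (θ := θ) (α := α)
    (hw3.comp (contDiff_aff P s)) (hG03.comp (contDiff_aff P s))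
    ((hv03.comp (contDiff_aff P s)).of_le (by norm_num))
    hD.cpos hc₀W (by positivity) hμ₁ hμW
    (fun x => by rw [e11]; exact hD.w11 _)
    (fun x h1 h2 => BdAt_aff hw3 hs (hW _ (dist_aff hs h1 h2)))
    (fun x h1 h2 => by
      obtain ⟨b22, b111, b112⟩ := bG _ (dist_aff (P := P) hs h1 h2)
      rw [f22, f111, f112]
      refine ⟨b22, b111, ?_⟩
      rw [abs_mul, abs_s hs, one_mul]; exact b112)
    (by simp only [aff_zero]; exact hD.zero P hP)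
    (by
      simp only [aff_zero, hG0, hψ, hl, lin, hD.zero P hP, hS.bc P hP]; ring)
    (by
      rw [f1, aff_zero, (dG P).1, (dψ P).1, (dm P).1, (dl P).1, hu1]; ring)
    (by
      rw [f2, aff_zero, (dG P).2.1, (dψ P).2.1, (dm P).2.1, (dl P).2.1, hu2]; ring)
    (by rw [e2, aff_zero]; exact hsw)
    hθ hα hr hr1 hr2 (by rw [e1, aff_zero]; exact hp) (by rw [e1, aff_zero]; exact hp2)
    (fun t ht => by
      rw [f111, f111, aff_zero]
      have hd : dist (aff P s (t, 0)) P ≤ r := dist_aff hs ht (by simp; exact hr.le)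
      obtain ⟨-, -, -, -, -, g111, -, -, -⟩ := dG (aff P s (t, 0))
      obtain ⟨-, -, -, -, -, p111, -, -, -⟩ := dψ (aff P s (t, 0))
      obtain ⟨-, -, -, -, -, q111, -, -, -⟩ := dm (aff P s (t, 0))
      obtain ⟨-, -, -, -, -, l111, -, -, -⟩ := dl (aff P s (t, 0))
      obtain ⟨-, -, -, -, -, g111', -, -, -⟩ := dG P
      obtain ⟨-, -, -, -, -, p111', -, -, -⟩ := dψ P
      obtain ⟨-, -, -, -, -, q111', -, -, -⟩ := dm P
      obtain ⟨-, -, -, -, -, l111', -, -, -⟩ := dl P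
      rw [g111, p111, q111, l111, g111', p111', q111', l111']
      have e : D1 (D1 (D1 φ)) (aff P s (t, 0)) - -lam * D1 (D1 (D1 w)) (aff P s (t, 0)) - 0
          - (D1 (D1 (D1 φ)) P - -lam * D1 (D1 (D1 w)) P - 0)
          = (D1 (D1 (D1 φ)) (aff P s (t, 0)) - D1 (D1 (D1 φ)) P)
            + lam * (D1 (D1 (D1 w)) (aff P s (t, 0)) - D1 (D1 (D1 w)) P) := by ring
      rw [e]
      exact abs_add_le' (hmod1 _ hd) (abs_mul_le hlam (hmod2 _ hd)))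
    hε hr3
    (fun t y ht hy0 hy hwt => by
      have hm := m2 t y ht hy0 hy hwt
      rw [v11, v22, (dv _).2.2.1, (dv _).2.2.2.2.1, (dl _).2.2.1, (dl _).2.2.2.2.1, sub_zero,
        sub_zero]
      exact ⟨hS.p1 _ hm, hS.p2 _ hm, hS.eq _ hm⟩)
    (fun t y ht hy0 hy hwt => by
      have hm := m3 t y ht hy0 hy hwt
      simp only [hv0, hG0, hψ]
      rw [hS.bc _ hm, hD.zero _ hm]; ring)
    (by simp only [aff_zero, hv0, hl, lin]; ring)
    (by rw [v2, aff_zero, (dv P).2.1, (dl P).2.1]; ring)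
  rw [f11, e1, aff_zero, (dG P).2.2.1, (dψ P).2.2.1, (dm P).2.2.1, (dl P).2.2.1] at key
  have e : D1 (D1 φ) P - -lam * D1 (D1 w) P - 0 = D1 (D1 φ) P + lam * D1 (D1 w) P := by ring
  rw [e] at key
  exact key

end AP
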