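import Pool.Agent.Lib_helper42.AP.Sol

/-! Pure second derivatives attain their maximum on the boundary (via second differences). -/

namespace AP

open Set Filter Topology Metric

/-- staying inside along a connected set that avoids the boundary -/
lemma stay_inside {Ω s : Set (ℝ × ℝ)} (hΩ : IsOpen Ω) (hs : IsPreconnected s)
    (hd : ∀ z ∈ s, z ∉ frontier Ω) {x y : ℝ × ℝ} (hx : x ∈ s) (hy : y ∈ s) (hxΩ : x ∈ Ω) :
    y ∈ Ω := by
  have h1 : s ⊆ Ω ∪ (closure Ω)ᶜ := by
    intro z hz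
    by_cases hzc : z ∈ closure Ω
    · left
      by_contra hzΩ
      apply hd z hz
      rw [frontier, hΩ.interior_eq]; exact ⟨hzc, hzΩ⟩
    · right; exact hzc
  have h2 : Disjoint Ω (closure Ω)ᶜ := by
    rw [Set.disjoint_left]
    intro z hz hzc
    exact hzc (subset_closure hz)
  exact (hs.subset_left_of_subset_union hΩ isClosed_closure.isOpen_compl h2 h1 ⟨x, hx, hxΩ⟩) hy

lemma D1_shift {f : ℝ × ℝ → ℝ} (v x : ℝ × ℝ) : D1 (fun y => f (y + v)) x = D1 f (x + v) := by
  simp only [D1]; rw [fderiv_comp_add_right]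

lemma D2_shift {f : ℝ × ℝ → ℝ} (v x : ℝ × ℝ) : D2 (fun y => f (y + v)) x = D2 f (x + v) := by
  simp only [D2]; rw [fderiv_comp_add_right]

lemma D11_shift {f : ℝ × ℝ → ℝ} (v x : ℝ × ℝ) :
    D1 (D1 (fun y => f (y + v))) x = D1 (D1 f) (x + v) := by
  have h : D1 (fun y => f (y + v)) = fun y => D1 f (y + v) := by ext y; exact D1_shift v y
  rw [h, D1_shift]

lemma D22_shift {f : ℝ × ℝ → ℝ} (v x : ℝ × ℝ) :
    D2 (D2 (fun y => f (y + v))) x = D2 (D2 f) (x + v) := by
  have h : D2 (fun y => f (y + v)) = fun y => D2 f (y + v) := by ext y; exact D2_shift v y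
  rw [h, D2_shift]

/-- the second derivative in the direction `e` -/
noncomputable def Qe (u : ℝ × ℝ → ℝ) (e : ℝ × ℝ) (x : ℝ × ℝ) : ℝ :=
  e.1 ^ 2 * D1 (D1 u) x + 2 * e.1 * e.2 * D1 (D2 u) x + e.2 ^ 2 * D2 (D2 u) x

section

variable {u : ℝ × ℝ → ℝ}

lemma line_first (hu : ContDiff ℝ 2 u) (x e : ℝ × ℝ) (s : ℝ) :
    HasDerivAt (fun s : ℝ => u (x + s • e))
      (e.1 * D1 u (x + s • e) + e.2 * D2 u (x + s • e)) s :=
  hasDerivAt_line (hu.differentiable (by norm_num) _)

lemma line_second (hu : ContDiff ℝ 2 u) (x e : ℝ × ℝ) (s : ℝ) :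
    HasDerivAt (fun s : ℝ => e.1 * D1 u (x + s • e) + e.2 * D2 u (x + s • e))
      (Qe u e (x + s • e)) s := by
  have h1 := (hasDerivAt_line (f := D1 u) (x := x) (e := e) (t := s)
    (diffD1 hu.contDiffAt)).const_mul e.1
  have h2 := (hasDerivAt_line (f := D2 u) (x := x) (e := e) (t := s)
    (diffD2 hu.contDiffAt)).const_mul e.2
  have h3 := h1.fun_add h2
  rw [D12_comm_fun hu] at h3
  have e1 : e.1 * (e.1 * D1 (D1 u) (x + s • e) + e.2 * D1 (D2 u) (x + s • e)) +
      e.2 * (e.1 * D1 (D2 u) (x + s • e) + e.2 * D2 (D2 u) (x + s • e)) = Qe u e (x + s • e) := by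
    unfold Qe; ring
  rw [e1] at h3
  exact h3

lemma second_diff_bound (hu : ContDiff ℝ 2 u) {x e : ℝ × ℝ} {h ε : ℝ}
    (hQ : ∀ s, |s| ≤ |h| → |Qe u e (x + s • e) - Qe u e x| ≤ ε) :
    |u (x + h • e) + u (x + (-h) • e) - 2 * u x - h ^ 2 * Qe u e x| ≤ ε * h ^ 2 := by
  have hneg : |(-h)| = |h| := abs_neg h
  have up : ∀ t : ℝ, |t| = |h| → u (x + t • e) ≤ u x + (e.1 * D1 u x + e.2 * D2 u x) * t
      + (Qe u e x + ε) / 2 * t ^ 2 := by
    intro t ht
    have := taylor2_le (f := fun s : ℝ => u (x + s • e)) (t := t) (M := Qe u e x + ε)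
      (fun s _ => line_first hu x e s) (fun s _ => line_second hu x e s)
      (fun s hs => by
        have := (abs_le.1 (hQ s (hs.trans ht.le))).2
        linarith)
    simpa using this
  have lo : ∀ t : ℝ, |t| = |h| → u x + (e.1 * D1 u x + e.2 * D2 u x) * t
      + (Qe u e x - ε) / 2 * t ^ 2 ≤ u (x + t • e) := by
    intro t ht
    have := taylor2_ge (f := fun s : ℝ => u (x + s • e)) (t := t) (m := Qe u e x - ε)
      (fun s _ => line_first hu x e s) (fun s _ => line_second hu x e s)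
      (fun s hs => by
        have := (abs_le.1 (hQ s (hs.trans ht.le))).1
        linarith)
    simpa using this
  have u1 := up h rfl
  have u2 := up (-h) hneg
  have l1 := lo h rfl
  have l2 := lo (-h) hneg
  rw [abs_le]
  constructor <;> nlinarith

end

lemma amgm {a b a' b' : ℝ} (ha : 0 < a) (hb : 0 < b) (hab : a * b = 1) (ha' : 0 < a')
    (hb' : 0 < b') (hab' : a' * b' = 1) : 2 ≤ b * a' + a * b' := by
  have h1 : (b * a') * (a * b') = 1 := by
    calc (b * a') * (a * b') = (a * b) * (a' * b') := by ring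
      _ = 1 := by rw [hab, hab', one_mul]
  have h2 : 0 < b * a' := mul_pos hb ha'
  have h3 : 0 < a * b' := mul_pos ha hb'
  nlinarith [sq_nonneg (b * a' - a * b')]

section

variable {w φ u : ℝ × ℝ → ℝ} {Ω : Set (ℝ × ℝ)} {c₀ : ℝ}

lemma Dom.frontier_nonempty (hD : Dom w Ω c₀) (hne : Ω.Nonempty) : (frontier Ω).Nonempty := by
  rw [nonempty_frontier_iff]
  refine ⟨hne, fun h => ?_⟩
  have h1 := hD.compact
  rw [h, closure_univ] at h1
  exact noncompact_univ (ℝ × ℝ) h1

/-- pure second derivatives are bounded by their boundary values -/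
theorem Sol.max_second (hD : Dom w Ω c₀) (hS : Sol φ u Ω) (e : ℝ × ℝ) {m : ℝ}
    (hm : ∀ x ∈ frontier Ω, e.1 ^ 2 * D1 (D1 u) x + 2 * e.1 * e.2 * D1 (D2 u) x
      + e.2 ^ 2 * D2 (D2 u) x ≤ m) :
    ∀ x ∈ closure Ω, e.1 ^ 2 * D1 (D1 u) x + 2 * e.1 * e.2 * D1 (D2 u) x
      + e.2 ^ 2 * D2 (D2 u) x ≤ m := by
  intro x₀ hx₀
  by_contra hcon
  push Not at hcon
  have hcon' : m < Qe u e x₀ := hcon
  have hm' : ∀ x ∈ frontier Ω, Qe u e x ≤ m := hm
  have hx₀Ω : x₀ ∈ Ω := by
    rcases hD.mem_or hx₀ with h | h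
    · exact h
    · exact absurd (hm' x₀ h) (not_le.2 hcon')
  have hfne := hD.frontier_nonempty ⟨x₀, hx₀Ω⟩
  have hu2 := hS.u_cd2
  have u1 : ContDiff ℝ 2 (D1 u) := cd_D1 (n := 2) hS.su
  have u2 : ContDiff ℝ 2 (D2 u) := cd_D2 (n := 2) hS.su
  have c11 : Continuous (D1 (D1 u)) := (cd_D1 (n := 1) u1).continuous
  have c12 : Continuous (D1 (D2 u)) := (cd_D1 (n := 1) u2).continuous
  have c22 : Continuous (D2 (D2 u)) := (cd_D2 (n := 1) u2).continuous
  have cQ : Continuous (Qe u e) := by unfold Qe; fun_prop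
  set ε := (Qe u e x₀ - m) / 5 with hε
  have hε0 : 0 < ε := by rw [hε]; linarith
  -- uniform continuity
  obtain ⟨ρ, hρ, hunif⟩ : ∃ ρ : ℝ, 0 < ρ ∧ ∀ x y, y ∈ closure Ω → dist x y ≤ ρ →
      |Qe u e x - Qe u e y| ≤ ε := by
    have hcomp : IsCompact (cthickening 1 (closure Ω)) := hD.compact.cthickening
    have huc := hcomp.uniformContinuousOn_of_continuous cQ.continuousOn
    rw [Metric.uniformContinuousOn_iff] at huc
    obtain ⟨ρ, hρ, h⟩ := huc ε hε0
    refine ⟨min (ρ / 2) 1, by positivity, fun x P hP hx => ?_⟩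
    have hPm : P ∈ cthickening 1 (closure Ω) := self_subset_cthickening _ hP
    have hxm : x ∈ cthickening 1 (closure Ω) := by
      rw [mem_cthickening_iff]
      have h1 : infEDist x (closure Ω) ≤ edist x P := infEDist_le_edist_of_mem hP
      rw [edist_dist] at h1
      exact h1.trans (ENNReal.ofReal_le_ofReal (hx.trans (min_le_right _ _)))
    have := h x hxm P hPm (by
      have : dist x P ≤ ρ / 2 := hx.trans (min_le_left _ _)
      linarith)
    rw [Real.dist_eq] at this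
    exact this.le
  -- the smaller domain
  have hd₀ : 0 < infDist x₀ (frontier Ω) := by
    have h1 : x₀ ∉ frontier Ω := fun h => hD.not_mem h hx₀Ω
    exact (isClosed_frontier.notMem_iff_infDist_pos hfne).1 h1
  set δ := min ρ (infDist x₀ (frontier Ω) / 2) with hδ
  have hδ0 : 0 < δ := by positivity
  have hδρ : δ ≤ ρ := min_le_left _ _
  have hδd : δ < infDist x₀ (frontier Ω) := by
    have : δ ≤ infDist x₀ (frontier Ω) / 2 := min_le_right _ _
    linarith
  set U : Set (ℝ × ℝ) := {x | x ∈ Ω ∧ δ < infDist x (frontier Ω)} with hU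
  have hUo : IsOpen U := hD.isOpen.inter (isOpen_lt continuous_const (continuous_infDist_pt _))
  have hUb : Bornology.IsBounded U := hD.bdd.subset (fun x hx => hx.1)
  have hx₀U : x₀ ∈ U := ⟨hx₀Ω, hδd⟩
  -- the step
  set h : ℝ := δ / (‖e‖ + 1) with hh
  have hh0 : 0 < h := by positivity
  have hhe : h * ‖e‖ ≤ δ := by
    rw [hh, div_mul_eq_mul_div, div_le_iff₀ (by positivity)]
    nlinarith [norm_nonneg e]
  have hstep : ∀ s : ℝ, |s| ≤ |h| → ∀ x : ℝ × ℝ, dist (x + s • e) x ≤ δ := by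
    intro s hs x
    rw [dist_eq_norm, add_sub_cancel_left, norm_smul, Real.norm_eq_abs]
    rw [abs_of_pos hh0] at hs
    calc |s| * ‖e‖ ≤ h * ‖e‖ := mul_le_mul_of_nonneg_right hs (norm_nonneg _)
      _ ≤ δ := hhe
  have hin : ∀ x ∈ U, ∀ s : ℝ, |s| ≤ |h| → x + s • e ∈ Ω := by
    intro x hx s hs
    refine stay_inside hD.isOpen (convex_segment x (x + s • e)).isPreconnected ?_
      (left_mem_segment ℝ _ _) (right_mem_segment ℝ _ _) hx.1
    intro z hz hzf
    rw [segment_eq_image'] at hz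
    obtain ⟨t, ht, rfl⟩ := hz
    simp only [add_sub_cancel_left, smul_smul] at hzf
    have h1 : |t * s| ≤ |h| := by
      rw [abs_mul, abs_of_nonneg ht.1]
      calc t * |s| ≤ 1 * |s| := mul_le_mul_of_nonneg_right ht.2 (abs_nonneg _)
        _ ≤ |h| := by linarith
    have h2 := hstep (t * s) h1 x
    have h3 : infDist x (frontier Ω) ≤ dist x (x + (t * s) • e) := infDist_le_dist_of_mem hzf
    rw [dist_comm] at h3
    linarith [hx.2]
  have hbd : ∀ x ∈ closure Ω,
      |u (x + h • e) + u (x + (-h) • e) - 2 * u x - h ^ 2 * Qe u e x| ≤ ε * h ^ 2 := by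
    intro x hx
    apply second_diff_bound hu2
    intro s hs
    exact hunif _ _ hx ((hstep s hs x).trans hδρ)
  -- the second difference
  have cd1 : ContDiff ℝ 2 (fun x => u (x + h • e)) := hu2.comp (contDiff_id.add contDiff_const)
  have cd2 : ContDiff ℝ 2 (fun x => u (x + (-h) • e)) := hu2.comp (contDiff_id.add contDiff_const)
  have cd3 : ContDiff ℝ 2 (fun x => 2 * u x) := contDiff_const.mul hu2
  have key := max_principle hUo hUb
    (g := fun x => (u (x + h • e) + u (x + (-h) • e)) - 2 * u x)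
    (((cd1.add cd2).sub cd3).continuous.continuousOn)
    (fun x _ => ((cd1.add cd2).sub cd3).contDiffAt)
    (fun x hx => by
      have p1 := hin x hx h le_rfl
      have p2 := hin x hx (-h) (by rw [abs_neg])
      refine ⟨_, _, hS.p2 x hx.1, hS.p1 x hx.1, ?_⟩
      rw [D11_sub (cd1.add cd2).contDiffAt cd3.contDiffAt,
        D22_sub (cd1.add cd2).contDiffAt cd3.contDiffAt,
        D11_add cd1.contDiffAt cd2.contDiffAt, D22_add cd1.contDiffAt cd2.contDiffAt,
        D11_const_mul _ hu2.contDiffAt, D22_const_mul _ hu2.contDiffAt,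
        D11_shift, D11_shift, D22_shift, D22_shift]
      have e0 := hS.eq x hx.1
      have a1 := amgm (hS.p1 x hx.1) (hS.p2 x hx.1) e0 (hS.p1 _ p1) (hS.p2 _ p1) (hS.eq _ p1)
      have a2 := amgm (hS.p1 x hx.1) (hS.p2 x hx.1) e0 (hS.p1 _ p2) (hS.p2 _ p2) (hS.eq _ p2)
      nlinarith) (m := h ^ 2 * (m + 2 * ε))
    (fun x hx => by
      have hxc : x ∈ closure Ω := closure_mono (fun y hy => hy.1) (frontier_subset_closure hx)
      have hxn : x ∉ U := by rw [frontier, hUo.interior_eq] at hx; exact hx.2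
      have hdist : infDist x (frontier Ω) ≤ δ := by
        rcases hD.mem_or hxc with h1 | h1
        · by_contra h2
          push Not at h2
          exact hxn ⟨h1, h2⟩
        · rw [infDist_zero_of_mem h1]; exact hδ0.le
      obtain ⟨y, hy, hyd⟩ := hD.compactΓ.exists_infDist_eq_dist hfne x
      have h1 : Qe u e x ≤ m + ε := by
        have := hunif x y (frontier_subset_closure hy) (by rw [← hyd]; linarith)
        have h2 := hm' y hy
        linarith [(abs_le.1 this).2]
      have h3 := (abs_le.1 (hbd x hxc)).2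
      have h4 : h ^ 2 * Qe u e x ≤ h ^ 2 * (m + ε) := mul_le_mul_of_nonneg_left h1 (sq_nonneg _)
      nlinarith)
    x₀ (subset_closure hx₀U)
  have h5 := (abs_le.1 (hbd x₀ hx₀)).1
  have h6 : h ^ 2 * (m + 5 * ε) = h ^ 2 * Qe u e x₀ := by rw [hε]; ring
  have h7 : 0 < h ^ 2 * ε := by positivity
  nlinarith

end

end AP
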