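import Pool.Agent.Lib_helper42.AP.Dom

/-! Solutions, the differentiated equations, and Step 1 (bounds for `u` and `Du`). -/

namespace AP

open Set Filter Topology Metric

section comm

variable {f : ℝ × ℝ → ℝ} {x : ℝ × ℝ}

lemma D12_comm_fun (h : ContDiff ℝ 2 f) : D2 (D1 f) = D1 (D2 f) := by
  ext x; exact (D12_comm h.contDiffAt).symm

lemma ev_comm (h : ContDiffAt ℝ 2 f x) : D2 (D1 f) =ᶠ[𝓝 x] D1 (D2 f) := by
  have h1 : ∀ᶠ y in 𝓝 x, ContDiffAt ℝ 2 f y := h.eventually (by simp)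
  filter_upwards [h1] with y hy using (D12_comm hy).symm

lemma comm211 (h : ContDiffAt ℝ 3 f x) : D2 (D1 (D1 f)) x = D1 (D1 (D2 f)) x := by
  have h2 : ContDiffAt ℝ 2 f x := h.of_le (by norm_num)
  have h1 : ContDiffAt ℝ 2 (D1 f) x := cda_D1 (n := 2) (by simpa using h)
  rw [← D12_comm h1]
  exact D1_congr (ev_comm h2)

lemma comm221 (h : ContDiffAt ℝ 3 f x) : D2 (D2 (D1 f)) x = D1 (D2 (D2 f)) x := by
  have h2 : ContDiffAt ℝ 2 f x := h.of_le (by norm_num)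
  have h1 : ContDiffAt ℝ 2 (D2 f) x := cda_D2 (n := 2) (by simpa using h)
  rw [D2_congr (ev_comm h2), ← D12_comm h1]

lemma comm121 (h : ContDiffAt ℝ 3 f x) : D1 (D2 (D1 f)) x = D1 (D1 (D2 f)) x := by
  have h2 : ContDiffAt ℝ 2 f x := h.of_le (by norm_num)
  exact D1_congr (ev_comm h2)

lemma comm212 (h : ContDiffAt ℝ 3 f x) : D2 (D1 (D2 f)) x = D1 (D2 (D2 f)) x := by
  have h1 : ContDiffAt ℝ 2 (D2 f) x := cda_D2 (n := 2) (by simpa using h)
  exact (D12_comm h1).symm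

end comm

/-- all partial derivatives of order at most three are bounded by `K` at `x` -/
structure BdAt (f : ℝ × ℝ → ℝ) (x : ℝ × ℝ) (K : ℝ) : Prop where
  b0 : |f x| ≤ K
  b1 : |D1 f x| ≤ K
  b2 : |D2 f x| ≤ K
  b11 : |D1 (D1 f) x| ≤ K
  b12 : |D1 (D2 f) x| ≤ K
  b22 : |D2 (D2 f) x| ≤ K
  b111 : |D1 (D1 (D1 f)) x| ≤ K
  b112 : |D1 (D1 (D2 f)) x| ≤ K
  b122 : |D1 (D2 (D2 f)) x| ≤ K
  b222 : |D2 (D2 (D2 f)) x| ≤ K

/-- classical solutions that are `C³` up to the boundary -/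
structure Sol (φ u : ℝ × ℝ → ℝ) (Ω : Set (ℝ × ℝ)) : Prop where
  su : ContDiff ℝ 3 u
  sφ : ContDiff ℝ 3 φ
  p1 : ∀ x ∈ Ω, 0 < D1 (D1 u) x
  p2 : ∀ x ∈ Ω, 0 < D2 (D2 u) x
  eq : ∀ x ∈ Ω, D1 (D1 u) x * D2 (D2 u) x = 1
  bc : ∀ x ∈ frontier Ω, u x = φ x

lemma max_principle0 {U : Set (ℝ × ℝ)} (hU : IsOpen U) (hb : Bornology.IsBounded U)
    {g : ℝ × ℝ → ℝ} (hc : ContinuousOn g (closure U)) (h2 : ∀ x ∈ U, ContDiffAt ℝ 2 g x)
    (hL : ∀ x ∈ U, 0 < D1 (D1 g) x ∨ 0 < D2 (D2 g) x)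
    {m : ℝ} (hm : ∀ x ∈ frontier U, g x ≤ m) : ∀ x ∈ closure U, g x ≤ m := by
  intro x₀ hx₀
  obtain ⟨y, hy, hmax⟩ := hb.isCompact_closure.exists_isMaxOn ⟨x₀, hx₀⟩ hc
  have h1 : g x₀ ≤ g y := hmax hx₀
  by_cases hyU : y ∈ U
  · exfalso
    have hloc : IsLocalMax g y := by
      filter_upwards [hU.mem_nhds hyU] with z hz
      exact hmax (subset_closure hz)
    have e1 := D11_nonpos_of_isLocalMax (h2 y hyU) hloc
    have e2 := D22_nonpos_of_isLocalMax (h2 y hyU) hloc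
    rcases hL y hyU with h | h <;> linarith
  · have hyf : y ∈ frontier U := by
      rw [frontier, hU.interior_eq]; exact ⟨hy, hyU⟩
    exact h1.trans (hm y hyf)

section step1

variable {w φ u : ℝ × ℝ → ℝ} {Ω : Set (ℝ × ℝ)} {c₀ K N : ℝ}

lemma Sol.u_cd2 (hS : Sol φ u Ω) : ContDiff ℝ 2 u := hS.su.of_le (by norm_num)
lemma Sol.φ_cd2 (hS : Sol φ u Ω) : ContDiff ℝ 2 φ := hS.sφ.of_le (by norm_num)
lemma Dom.w_cd2 (hD : Dom w Ω c₀) : ContDiff ℝ 2 w := hD.smooth.of_le (by norm_num)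

/-- upper barrier -/
lemma upper_barrier (hD : Dom w Ω c₀) (hS : Sol φ u Ω) (hN0 : 0 ≤ N) (hN : K + 2 ≤ N * c₀)
    (h1 : ∀ x ∈ Ω, D1 (D1 φ) x ≤ K) :
    ∀ x ∈ closure Ω, u x - φ x ≤ -N * w x := by
  have hcd : ContDiff ℝ 2 (fun x => (u x - φ x) + N * w x) :=
    (hS.u_cd2.sub hS.φ_cd2).add (contDiff_const.mul hD.w_cd2)
  have key := max_principle0 hD.isOpen hD.bdd (g := fun x => (u x - φ x) + N * w x)
    hcd.continuous.continuousOn (fun x _ => hcd.contDiffAt)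
    (fun x hx => by
      left
      have ha : ContDiffAt ℝ 2 (fun x => u x - φ x) x :=
        (hS.u_cd2.sub hS.φ_cd2).contDiffAt
      have hb : ContDiffAt ℝ 2 (fun x => N * w x) x := (contDiff_const.mul hD.w_cd2).contDiffAt
      rw [D11_add ha hb, D11_sub hS.u_cd2.contDiffAt hS.φ_cd2.contDiffAt,
        D11_const_mul N hD.w_cd2.contDiffAt]
      have := hS.p1 x hx
      have := h1 x hx
      have := mul_le_mul_of_nonneg_left (hD.w11 x) hN0
      linarith) (m := 0)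
    (fun x hx => by rw [hS.bc x hx, hD.zero x hx]; simp)
  intro x hx
  have := key x hx
  linarith

/-- lower barrier -/
lemma lower_barrier (hD : Dom w Ω c₀) (hS : Sol φ u Ω) (hN0 : 0 ≤ N) (hN : K + 2 ≤ N * c₀)
    (h1 : ∀ x ∈ Ω, -K ≤ D1 (D1 φ) x) (h2 : ∀ x ∈ Ω, -K ≤ D2 (D2 φ) x) :
    ∀ x ∈ closure Ω, N * w x ≤ u x - φ x := by
  have hcd : ContDiff ℝ 2 (fun x => (φ x - u x) + N * w x) :=
    (hS.φ_cd2.sub hS.u_cd2).add (contDiff_const.mul hD.w_cd2)
  have key := max_principle0 hD.isOpen hD.bdd (g := fun x => (φ x - u x) + N * w x)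
    hcd.continuous.continuousOn (fun x _ => hcd.contDiffAt)
    (fun x hx => by
      have ha : ContDiffAt ℝ 2 (fun x => φ x - u x) x :=
        (hS.φ_cd2.sub hS.u_cd2).contDiffAt
      have hb : ContDiffAt ℝ 2 (fun x => N * w x) x := (contDiff_const.mul hD.w_cd2).contDiffAt
      rw [D11_add ha hb, D11_sub hS.φ_cd2.contDiffAt hS.u_cd2.contDiffAt,
        D11_const_mul N hD.w_cd2.contDiffAt, D22_add ha hb,
        D22_sub hS.φ_cd2.contDiffAt hS.u_cd2.contDiffAt,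
        D22_const_mul N hD.w_cd2.contDiffAt]
      have e1 := hS.p1 x hx
      have e2 := hS.p2 x hx
      have e3 := hS.eq x hx
      have e4 := h1 x hx
      have e5 := h2 x hx
      have e6 := mul_le_mul_of_nonneg_left (hD.w11 x) hN0
      have e7 := mul_le_mul_of_nonneg_left (hD.w22 x) hN0
      by_contra hcon
      push Not at hcon
      have f1 : 2 ≤ D1 (D1 u) x := by linarith [hcon.1]
      have f2 : 2 ≤ D2 (D2 u) x := by linarith [hcon.2]
      nlinarith) (m := 0)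
    (fun x hx => by rw [hS.bc x hx, hD.zero x hx]; simp)
  intro x hx
  have := key x hx
  linarith

/-- the normal derivative on the boundary -/
lemma normal_deriv (hD : Dom w Ω c₀) (hS : Sol φ u Ω) (hN0 : 0 ≤ N) (hN : K + 2 ≤ N * c₀)
    (hφ : ∀ x, BdAt φ x K) {P : ℝ × ℝ} (hP : P ∈ frontier Ω) :
    ∃ lam : ℝ, |lam| ≤ N ∧ D1 u P = D1 φ P + lam * D1 w P ∧
      D2 u P = D2 φ P + lam * D2 w P := by
  have hup := upper_barrier hD hS hN0 hN (fun x _ => (abs_le.1 (hφ x).b11).2)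
  have hlo := lower_barrier hD hS hN0 hN (fun x _ => (abs_le.1 (hφ x).b11).1)
    (fun x _ => (abs_le.1 (hφ x).b22).1)
  have du : DifferentiableAt ℝ u P := diff0 hS.u_cd2.contDiffAt
  have dφ : DifferentiableAt ℝ φ P := diff0 hS.φ_cd2.contDiffAt
  have dw : DifferentiableAt ℝ w P := diff0 hD.w_cd2.contDiffAt
  have hcd : ContDiffAt ℝ 1 (fun x => u x - φ x) P :=
    ((hS.su.sub hS.sφ).of_le (by norm_num)).contDiffAt
  obtain ⟨lam, e1, e2⟩ := hD.multiplier0 hP hcd (fun x hx => by rw [hS.bc x hx]; ring)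
  rw [D1_sub du dφ] at e1
  rw [D2_sub du dφ] at e2
  have hpos := hD.grad_sq_pos hP
  refine ⟨lam, ?_, by linarith, by linarith⟩
  have s1 := hD.inner_sign hP (h := fun x => (u x - φ x) - N * w x)
    ((du.fun_sub dφ).fun_sub (dw.const_mul N))
    (Eventually.of_forall (fun x hx => by
      have := hlo x (subset_closure hx)
      simp only [hS.bc P hP, hD.zero P hP]; linarith))
  have s2 := hD.inner_sign hP (h := fun x => -(N * w x) - (u x - φ x))
    (((dw.const_mul N).fun_neg).fun_sub (du.fun_sub dφ))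
    (Eventually.of_forall (fun x hx => by
      have := hup x (subset_closure hx)
      simp only [hS.bc P hP, hD.zero P hP]; linarith))
  rw [D1_sub (du.fun_sub dφ) (dw.const_mul N), D2_sub (du.fun_sub dφ) (dw.const_mul N),
    D1_sub du dφ, D2_sub du dφ, D1_const_mul N dw, D2_const_mul N dw, e1, e2] at s1
  rw [D1_sub ((dw.const_mul N).fun_neg) (du.fun_sub dφ),
    D2_sub ((dw.const_mul N).fun_neg) (du.fun_sub dφ), D1_neg, D2_neg,
    D1_sub du dφ, D2_sub du dφ, D1_const_mul N dw, D2_const_mul N dw, e1, e2] at s2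
  rw [abs_le]
  constructor
  · by_contra hcon
    push Not at hcon
    nlinarith
  · by_contra hcon
    push Not at hcon
    nlinarith

/-- first differentiated equations -/
lemma Sol.diff1 (hΩ : IsOpen Ω) (hS : Sol φ u Ω) {x : ℝ × ℝ} (hx : x ∈ Ω) :
    D1 (D1 (D1 u)) x * D2 (D2 u) x + D1 (D1 u) x * D1 (D2 (D2 u)) x = 0 := by
  have h3 : ContDiffAt ℝ 3 u x := hS.su.contDiffAt
  have a1 : ContDiffAt ℝ 2 (D1 u) x := cda_D1 (n := 2) (by simpa using h3)
  have a2 : ContDiffAt ℝ 2 (D2 u) x := cda_D2 (n := 2) (by simpa using h3)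
  have h : (fun y => D1 (D1 u) y * D2 (D2 u) y) =ᶠ[𝓝 x] fun _ => 1 := by
    filter_upwards [hΩ.mem_nhds hx] with y hy using hS.eq y hy
  have := D1_congr h
  rw [D1_mul (diffD1 a1) (diffD2 a2), D1_const] at this
  exact this

lemma Sol.diff2 (hΩ : IsOpen Ω) (hS : Sol φ u Ω) {x : ℝ × ℝ} (hx : x ∈ Ω) :
    D1 (D1 (D2 u)) x * D2 (D2 u) x + D1 (D1 u) x * D2 (D2 (D2 u)) x = 0 := by
  have h3 : ContDiffAt ℝ 3 u x := hS.su.contDiffAt
  have a1 : ContDiffAt ℝ 2 (D1 u) x := cda_D1 (n := 2) (by simpa using h3)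
  have a2 : ContDiffAt ℝ 2 (D2 u) x := cda_D2 (n := 2) (by simpa using h3)
  have h : (fun y => D1 (D1 u) y * D2 (D2 u) y) =ᶠ[𝓝 x] fun _ => 1 := by
    filter_upwards [hΩ.mem_nhds hx] with y hy using hS.eq y hy
  have := D2_congr h
  rw [D2_mul (diffD1 a1) (diffD2 a2), D2_const, comm211 h3] at this
  exact this

/-- `D1 u` solves the linearised equation -/
lemma Sol.lin1 (hΩ : IsOpen Ω) (hS : Sol φ u Ω) {x : ℝ × ℝ} (hx : x ∈ Ω) :
    D2 (D2 u) x * D1 (D1 (D1 u)) x + D1 (D1 u) x * D2 (D2 (D1 u)) x = 0 := by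
  have h3 : ContDiffAt ℝ 3 u x := hS.su.contDiffAt
  rw [comm221 h3]
  linarith [hS.diff1 hΩ hx]

lemma Sol.lin2 (hΩ : IsOpen Ω) (hS : Sol φ u Ω) {x : ℝ × ℝ} (hx : x ∈ Ω) :
    D2 (D2 u) x * D1 (D1 (D2 u)) x + D1 (D1 u) x * D2 (D2 (D2 u)) x = 0 := by
  linarith [hS.diff2 hΩ hx]

/-- a function solving the linearised (in)equality is bounded by its boundary values -/
lemma Sol.max_lin (hD : Dom w Ω c₀) (hS : Sol φ u Ω) {g : ℝ × ℝ → ℝ}
    (hc : ContinuousOn g (closure Ω)) (h2 : ∀ x ∈ Ω, ContDiffAt ℝ 2 g x)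
    (hL : ∀ x ∈ Ω, 0 ≤ D2 (D2 u) x * D1 (D1 g) x + D1 (D1 u) x * D2 (D2 g) x)
    {m : ℝ} (hm : ∀ x ∈ frontier Ω, g x ≤ m) : ∀ x ∈ closure Ω, g x ≤ m :=
  max_principle hD.isOpen hD.bdd hc h2
    (fun x hx => ⟨_, _, hS.p2 x hx, hS.p1 x hx, hL x hx⟩) hm

/-- global gradient bound -/
lemma grad_bound (hD : Dom w Ω c₀) (hS : Sol φ u Ω) (hN0 : 0 ≤ N) (hN : K + 2 ≤ N * c₀)
    (hφ : ∀ x, BdAt φ x K) {W : ℝ} (hW : ∀ x ∈ closure Ω, BdAt w x W) :
    ∀ x ∈ closure Ω, |D1 u x| ≤ K + N * W ∧ |D2 u x| ≤ K + N * W := by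
  have hb : ∀ x ∈ frontier Ω, |D1 u x| ≤ K + N * W ∧ |D2 u x| ≤ K + N * W := by
    intro x hx
    obtain ⟨lam, h1, h2, h3⟩ := normal_deriv hD hS hN0 hN hφ hx
    have hWx := hW x (frontier_subset_closure hx)
    rw [h2, h3]
    constructor
    · calc |D1 φ x + lam * D1 w x| ≤ |D1 φ x| + |lam * D1 w x| := abs_add_le _ _
        _ ≤ K + N * W := by
          rw [abs_mul]
          exact add_le_add (hφ x).b1 (mul_le_mul h1 hWx.b1 (abs_nonneg _) hN0)
    · calc |D2 φ x + lam * D2 w x| ≤ |D2 φ x| + |lam * D2 w x| := abs_add_le _ _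
        _ ≤ K + N * W := by
          rw [abs_mul]
          exact add_le_add (hφ x).b2 (mul_le_mul h1 hWx.b2 (abs_nonneg _) hN0)
  have c1 : ContDiff ℝ 2 (D1 u) := cd_D1 (n := 2) hS.su
  have c2 : ContDiff ℝ 2 (D2 u) := cd_D2 (n := 2) hS.su
  intro x hx
  constructor
  · rw [abs_le]
    constructor
    · have := hS.max_lin hD (g := fun y => -D1 u y) (c1.neg.continuous.continuousOn)
        (fun y _ => c1.neg.contDiffAt)
        (fun y hy => by
          rw [D11_neg, D22_neg]; have := hS.lin1 hD.isOpen hy; linarith)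
        (m := K + N * W) (fun y hy => by have := (abs_le.1 (hb y hy).1).1; linarith) x hx
      linarith
    · exact hS.max_lin hD (g := fun y => D1 u y) (c1.continuous.continuousOn)
        (fun y _ => c1.contDiffAt)
        (fun y hy => by
          have := hS.lin1 hD.isOpen hy; linarith)
        (m := K + N * W) (fun y hy => (abs_le.1 (hb y hy).1).2) x hx
  · rw [abs_le]
    constructor
    · have := hS.max_lin hD (g := fun y => -D2 u y) (c2.neg.continuous.continuousOn)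
        (fun y _ => c2.neg.contDiffAt)
        (fun y hy => by
          rw [D11_neg, D22_neg]; have := hS.lin2 hD.isOpen hy; linarith)
        (m := K + N * W) (fun y hy => by have := (abs_le.1 (hb y hy).2).1; linarith) x hx
      linarith
    · exact hS.max_lin hD (g := fun y => D2 u y) (c2.continuous.continuousOn)
        (fun y _ => c2.contDiffAt)
        (fun y hy => by
          have := hS.lin2 hD.isOpen hy; linarith)
        (m := K + N * W) (fun y hy => (abs_le.1 (hb y hy).2).2) x hx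

end step1

end AP
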