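import Pool.Agent.Lib_helper42.AP.Third
import Pool.Agent.Lib_helper42.AP.SecondDiff

/-! Step 4: the boundary maximum of the second derivative. -/

namespace AP

open Set Filter Topology Metric

lemma abs_mul3_le {p q s A B C : ℝ} (hp : |p| ≤ A) (hq : |q| ≤ B) (hs : |s| ≤ C) :
    |p * q * s| ≤ A * B * C := abs_mul_le (abs_mul_le hp hq) hs

lemma abs_sub_le' {p q A B : ℝ} (hp : |p| ≤ A) (hq : |q| ≤ B) : |p - q| ≤ A + B :=
  (abs_sub p q).trans (add_le_add hp hq)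

lemma abs_add_le' {p q A B : ℝ} (hp : |p| ≤ A) (hq : |q| ≤ B) : |p + q| ≤ A + B :=
  (abs_add_le p q).trans (add_le_add hp hq)

lemma rem_bound {w1 w2 w11 w12 w22 w111 w112 w122 w222 z1 z2 f11 f12 f22 f111 f112 f122
    f222 W K Z : ℝ}
    (hw1 : |w1| ≤ W) (hw2 : |w2| ≤ W) (hw11 : |w11| ≤ W) (hw12 : |w12| ≤ W) (hw22 : |w22| ≤ W)
    (hw111 : |w111| ≤ W) (hw112 : |w112| ≤ W) (hw122 : |w122| ≤ W) (hw222 : |w222| ≤ W)
    (hz1 : |z1| ≤ Z) (hz2 : |z2| ≤ Z)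
    (hf11 : |f11| ≤ K) (hf12 : |f12| ≤ K) (hf22 : |f22| ≤ K)
    (hf111 : |f111| ≤ K) (hf112 : |f112| ≤ K) (hf122 : |f122| ≤ K) (hf222 : |f222| ≤ K) :
    |(w2 ^ 3 * f111 - 3 * w2 ^ 2 * w1 * f112 + 3 * w2 * w1 ^ 2 * f122 - w1 ^ 3 * f222
        + 3 * ((w2 * w12 - w1 * w22) * w2 * f11
          - ((w2 * w12 - w1 * w22) * w1 + (w2 * w11 - w1 * w12) * w2) * f12
          + (w2 * w11 - w1 * w12) * w1 * f22))
      - (w2 * (w12 * w12 + w2 * w112 - w11 * w22 - w1 * w122)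
          - w1 * (w22 * w12 + w2 * w122 - w12 * w22 - w1 * w222)) * z1
      + (w2 * (w12 * w11 + w2 * w111 - w11 * w12 - w1 * w112)
          - w1 * (w22 * w11 + w2 * w112 - w12 * w12 - w1 * w122)) * z2|
    ≤ 32 * W ^ 3 * K + 16 * W ^ 3 * Z := by
  have h3 : |(3 : ℝ)| ≤ 3 := by rw [abs_of_pos]; norm_num
  have sq2 : |w2 ^ 2| ≤ W ^ 2 := by rw [abs_pow]; exact pow_le_pow_left₀ (abs_nonneg _) hw2 2
  have sq1 : |w1 ^ 2| ≤ W ^ 2 := by rw [abs_pow]; exact pow_le_pow_left₀ (abs_nonneg _) hw1 2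
  have cu2 : |w2 ^ 3| ≤ W ^ 3 := by rw [abs_pow]; exact pow_le_pow_left₀ (abs_nonneg _) hw2 3
  have cu1 : |w1 ^ 3| ≤ W ^ 3 := by rw [abs_pow]; exact pow_le_pow_left₀ (abs_nonneg _) hw1 3
  have hα : |w2 * w12 - w1 * w22| ≤ W * W + W * W :=
    abs_sub_le' (abs_mul_le hw2 hw12) (abs_mul_le hw1 hw22)
  have hβ : |w2 * w11 - w1 * w12| ≤ W * W + W * W :=
    abs_sub_le' (abs_mul_le hw2 hw11) (abs_mul_le hw1 hw12)
  have p1 := abs_mul_le cu2 hf111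
  have p2 := abs_mul_le (abs_mul3_le h3 sq2 hw1) hf112
  have p3 := abs_mul_le (abs_mul3_le h3 hw2 sq1) hf122
  have p4 := abs_mul_le cu1 hf222
  have q1 := abs_mul3_le hα hw2 hf11
  have q2 := abs_mul_le (abs_add_le' (abs_mul_le hα hw1) (abs_mul_le hβ hw2)) hf12
  have q3 := abs_mul3_le hβ hw1 hf22
  have q := abs_mul_le h3 (abs_add_le' (abs_sub_le' q1 q2) q3)
  have four : ∀ {a b c d e f g h : ℝ}, |a| ≤ W → |b| ≤ W → |c| ≤ W → |d| ≤ W → |e| ≤ W →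
      |f| ≤ W → |g| ≤ W → |h| ≤ W →
      |a * b + c * d - e * f - g * h| ≤ W * W + W * W + W * W + W * W := by
    intro a b c d e f g h ha hb hc hd he hf hg hh
    exact abs_sub_le' (abs_sub_le' (abs_add_le' (abs_mul_le ha hb) (abs_mul_le hc hd))
      (abs_mul_le he hf)) (abs_mul_le hg hh)
  have r1 := abs_mul_le (abs_sub_le' (abs_mul_le hw2 (four hw12 hw12 hw2 hw112 hw11 hw22 hw1 hw122))
    (abs_mul_le hw1 (four hw22 hw12 hw2 hw122 hw12 hw22 hw1 hw222))) hz1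
  have r2 := abs_mul_le (abs_sub_le' (abs_mul_le hw2 (four hw12 hw11 hw2 hw111 hw11 hw12 hw1 hw112))
    (abs_mul_le hw1 (four hw22 hw11 hw2 hw112 hw12 hw12 hw1 hw122))) hz2
  have total := abs_add_le' (abs_sub_le' (abs_add_le' (abs_sub_le' (abs_add_le'
    (abs_sub_le' p1 p2) p3) p4) q) r1) r2
  refine total.trans (le_of_eq ?_)
  ring

section

variable {w φ u : ℝ × ℝ → ℝ} {Ω : Set (ℝ × ℝ)} {c₀ K N : ℝ}

/-- the equation and its first derivatives hold up to the boundary -/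
lemma Sol.closure_eqs (hD : Dom w Ω c₀) (hS : Sol φ u Ω) {x : ℝ × ℝ} (hx : x ∈ closure Ω) :
    0 < D1 (D1 u) x ∧ 0 < D2 (D2 u) x ∧ D1 (D1 u) x * D2 (D2 u) x = 1 ∧
    D1 (D1 (D1 u)) x * D2 (D2 u) x + D1 (D1 u) x * D1 (D2 (D2 u)) x = 0 ∧
    D1 (D1 (D2 u)) x * D2 (D2 u) x + D1 (D1 u) x * D2 (D2 (D2 u)) x = 0 := by
  have u1 : ContDiff ℝ 2 (D1 u) := cd_D1 (n := 2) hS.su
  have u2 : ContDiff ℝ 2 (D2 u) := cd_D2 (n := 2) hS.su
  have u11 : ContDiff ℝ 1 (D1 (D1 u)) := cd_D1 (n := 1) u1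
  have u12 : ContDiff ℝ 1 (D1 (D2 u)) := cd_D1 (n := 1) u2
  have u22 : ContDiff ℝ 1 (D2 (D2 u)) := cd_D2 (n := 1) u2
  have c11 : Continuous (D1 (D1 u)) := u11.continuous
  have c22 : Continuous (D2 (D2 u)) := u22.continuous
  have c111 : Continuous (D1 (D1 (D1 u))) := (cd_D1 (n := 0) u11).continuous
  have c112 : Continuous (D1 (D1 (D2 u))) := (cd_D1 (n := 0) u12).continuous
  have c122 : Continuous (D1 (D2 (D2 u))) := (cd_D1 (n := 0) u22).continuous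
  have c222 : Continuous (D2 (D2 (D2 u))) := (cd_D2 (n := 0) u22).continuous
  have e0 : D1 (D1 u) x * D2 (D2 u) x = 1 := by
    have : EqOn (fun x => D1 (D1 u) x * D2 (D2 u) x) (fun _ => (1 : ℝ)) (closure Ω) :=
      EqOn.closure (fun y hy => hS.eq y hy) (c11.mul c22) continuous_const
    exact this hx
  have e1 : D1 (D1 (D1 u)) x * D2 (D2 u) x + D1 (D1 u) x * D1 (D2 (D2 u)) x = 0 := by
    have : EqOn (fun x => D1 (D1 (D1 u)) x * D2 (D2 u) x + D1 (D1 u) x * D1 (D2 (D2 u)) x)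
        (fun _ => (0 : ℝ)) (closure Ω) :=
      EqOn.closure (fun y hy => hS.diff1 hD.isOpen hy)
        ((c111.mul c22).add (c11.mul c122)) continuous_const
    exact this hx
  have e2 : D1 (D1 (D2 u)) x * D2 (D2 u) x + D1 (D1 u) x * D2 (D2 (D2 u)) x = 0 := by
    have : EqOn (fun x => D1 (D1 (D2 u)) x * D2 (D2 u) x + D1 (D1 u) x * D2 (D2 (D2 u)) x)
        (fun _ => (0 : ℝ)) (closure Ω) :=
      EqOn.closure (fun y hy => hS.diff2 hD.isOpen hy)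
        ((c112.mul c22).add (c11.mul c222)) continuous_const
    exact this hx
  have g1 : 0 ≤ D1 (D1 u) x :=
    closure_minimal (s := Ω) (t := {x | 0 ≤ D1 (D1 u) x}) (fun y hy => (hS.p1 y hy).le)
      (isClosed_le continuous_const c11) hx
  have g2 : 0 ≤ D2 (D2 u) x :=
    closure_minimal (s := Ω) (t := {x | 0 ≤ D2 (D2 u) x}) (fun y hy => (hS.p2 y hy).le)
      (isClosed_le continuous_const c22) hx
  have p1 : 0 < D1 (D1 u) x := by
    rcases g1.eq_or_lt with h | h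
    · rw [← h] at e0; simp at e0
    · exact h
  have p2 : 0 < D2 (D2 u) x := by
    rcases g2.eq_or_lt with h | h
    · rw [← h] at e0; simp at e0
    · exact h
  exact ⟨p1, p2, e0, e1, e2⟩

/-- boundary bound implies global bound for `u_22` -/
lemma Sol.max22 (hD : Dom w Ω c₀) (hS : Sol φ u Ω) {m : ℝ}
    (hm : ∀ x ∈ frontier Ω, D2 (D2 u) x ≤ m) : ∀ x ∈ closure Ω, D2 (D2 u) x ≤ m := by
  intro x hx
  have := hS.max_second hD (0, 1) (m := m) (fun y hy => by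
    have := hm y hy
    simp only; linarith) x hx
  simp only at this
  linarith

/-- information at a boundary maximum point of `u_22` -/
lemma Sol.at_max (hD : Dom w Ω c₀) (hS : Sol φ u Ω) {P : ℝ × ℝ} (hP : P ∈ frontier Ω)
    (hmax : ∀ x ∈ closure Ω, D2 (D2 u) x ≤ D2 (D2 u) P) :
    ∃ θ : ℝ, 0 ≤ θ ∧ D1 (D2 (D2 u)) P = θ * D1 w P ∧ D2 (D2 (D2 u)) P = θ * D2 w P ∧
      D1 (D1 (D1 u)) P = -((D1 (D1 u) P) ^ 2 * (θ * D1 w P)) ∧
      D1 (D1 (D2 u)) P = -((D1 (D1 u) P) ^ 2 * (θ * D2 w P)) := by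
  have u2 : ContDiff ℝ 2 (D2 u) := cd_D2 (n := 2) hS.su
  have u22 : ContDiff ℝ 1 (D2 (D2 u)) := cd_D2 (n := 1) u2
  obtain ⟨θ, h1, h2⟩ := hD.multiplier hP u22.contDiffAt
    (fun x hx => hmax x (frontier_subset_closure hx))
  have hpos := hD.grad_sq_pos hP
  obtain ⟨p1, p2, e0, e1, e2⟩ := hS.closure_eqs hD (frontier_subset_closure hP)
  have hθ : 0 ≤ θ := by
    have d22 : DifferentiableAt ℝ (D2 (D2 u)) P := u22.differentiable (by norm_num) P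
    have s := hD.inner_sign hP (h := fun x => -D2 (D2 u) x) d22.fun_neg
      (Eventually.of_forall (fun x hx => by
        have := hmax x (subset_closure hx); linarith))
    rw [D1_neg, D2_neg, h1, h2] at s
    by_contra hcon
    push Not at hcon
    nlinarith
  refine ⟨θ, hθ, h1, h2, ?_, ?_⟩
  · rw [h1] at e1
    have : D1 (D1 (D1 u)) P * (D1 (D1 u) P * D2 (D2 u) P)
        = -(D1 (D1 u) P ^ 2 * (θ * D1 w P)) := by
      linear_combination D1 (D1 u) P * e1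
    rwa [e0, mul_one] at this
  · rw [h2] at e2
    have : D1 (D1 (D2 u)) P * (D1 (D1 u) P * D2 (D2 u) P)
        = -(D1 (D1 u) P ^ 2 * (θ * D2 w P)) := by
      linear_combination D1 (D1 u) P * e2
    rwa [e0, mul_one] at this

/-- the inequality at a boundary maximum point of `u_22` -/
lemma Sol.star (hD : Dom w Ω c₀) (hS : Sol φ u Ω) {W K Z : ℝ} {P : ℝ × ℝ} (hP : P ∈ frontier Ω)
    (hmax : ∀ x ∈ closure Ω, D2 (D2 u) x ≤ D2 (D2 u) P)
    (hφ : BdAt φ P K) (hW : BdAt w P W)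
    (hZ1 : |D1 u P - D1 φ P| ≤ Z) (hZ2 : |D2 u P - D2 φ P| ≤ Z) :
    3 / 2 * ((D2 w P ^ 2 * D1 (D1 w) P - 2 * D1 w P * D2 w P * D1 (D2 w) P
        + D1 w P ^ 2 * D2 (D2 w) P) * (D1 w P ^ 2 * D2 (D2 u) P - D2 w P ^ 2 * D1 (D1 u) P)
      + (D2 w P ^ 2 * D1 (D1 w) P - D1 w P ^ 2 * D2 (D2 w) P) *
        (D2 w P ^ 2 * D1 (D1 u) P - 2 * D1 w P * D2 w P * D1 (D2 u) P
          + D1 w P ^ 2 * D2 (D2 u) P))
      ≤ |D1 w P| * |D2 w P| * (32 * W ^ 3 * K + 16 * W ^ 3 * Z) := by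
  obtain ⟨θ, hθ, t122, t222, t111, t112⟩ := hS.at_max hD hP hmax
  set z : ℝ × ℝ → ℝ := fun x => u x - φ x with hz
  have hz3 : ContDiff ℝ 3 z := hS.su.sub hS.sφ
  have hw3 := hD.smooth
  have hz0 : ∀ x ∈ frontier Ω, z x = 0 := fun x hx => by simp only [hz, hS.bc x hx, sub_self]
  obtain ⟨e1, e2, e11, e12, e22, e111, e112, e122, e222⟩ := z_derivs hS.su hS.sφ P
  rw [← hz] at e1 e2 e11 e12 e22 e111 e112 e122 e222
  have d11 := D11_Br hw3 hz3 P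
  have d22 := D22_Br hw3 hz3 P
  have d12 := D12_Br hw3 hz3 P
  have d1 := D1_Br hD.w_cd2 (hz3.of_le (by norm_num)) P
  have d2 := D2_Br hD.w_cd2 (hz3.of_le (by norm_num)) P
  have hT3 := T3_zero hD hz3 hz0 P hP
  rw [t111] at e111
  rw [t112] at e112
  rw [t122] at e122
  rw [t222] at e222
  rw [e11, e12] at d1
  rw [e12, e22] at d2
  rw [e11, e12, e111, e112] at d11
  rw [e12, e22, e122, e222] at d22
  rw [e11, e22, e112, e122] at d12
  have star := star_identity d1 d2 d11 d22 d12 hT3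
  have rb := rem_bound hW.b1 hW.b2 hW.b11 hW.b12 hW.b22 hW.b111 hW.b112 hW.b122 hW.b222
    (e1 ▸ hZ1) (e2 ▸ hZ2) hφ.b11 hφ.b12 hφ.b22 hφ.b111 hφ.b112 hφ.b122 hφ.b222
  have h1 := abs_mul3_le (le_refl |D1 w P|) (le_refl |D2 w P|) rb
  have h2 := (le_abs_self _).trans h1
  rw [← star] at h2
  have h3 : 0 ≤ 2 * θ * D1 w P ^ 2 * D2 w P ^ 2 *
      ((D1 (D1 u) P) ^ 2 * D2 w P ^ 2 + D1 w P ^ 2) := by positivity
  linarith

end

end AP
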