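import Pool.Agent.Lib_helper42.AP.Assemble

/-! Exchange of the coordinates. -/

namespace AP

open Set Filter Topology Metric

/-- exchange of the two coordinates -/
def sw (x : ℝ × ℝ) : ℝ × ℝ := (x.2, x.1)

lemma sw_sw (x : ℝ × ℝ) : sw (sw x) = x := rfl

lemma contDiff_sw {n : WithTop ℕ∞} : ContDiff ℝ n sw := by
  unfold sw; fun_prop

lemma hasFDerivAt_sw (x : ℝ × ℝ) : HasFDerivAt sw
    ((ContinuousLinearMap.snd ℝ ℝ ℝ).prod (ContinuousLinearMap.fst ℝ ℝ ℝ)) x := by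
  unfold sw
  exact hasFDerivAt_snd.prodMk hasFDerivAt_fst

section

variable {f : ℝ × ℝ → ℝ}

lemma D1_sw (hf : Differentiable ℝ f) : D1 (fun x => f (sw x)) = fun x => D2 f (sw x) := by
  ext x
  have h := ((hf (sw x)).hasFDerivAt.comp x (hasFDerivAt_sw x)).fderiv
  have h' : fderiv ℝ (fun x => f (sw x)) x = (fderiv ℝ f (sw x)).comp
    ((ContinuousLinearMap.snd ℝ ℝ ℝ).prod (ContinuousLinearMap.fst ℝ ℝ ℝ)) := h
  have e : D1 (fun x => f (sw x)) x = fderiv ℝ (fun x => f (sw x)) x (1, 0) := rfl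
  rw [e, h']
  simp [D2]

lemma D2_sw (hf : Differentiable ℝ f) : D2 (fun x => f (sw x)) = fun x => D1 f (sw x) := by
  ext x
  have h := ((hf (sw x)).hasFDerivAt.comp x (hasFDerivAt_sw x)).fderiv
  have h' : fderiv ℝ (fun x => f (sw x)) x = (fderiv ℝ f (sw x)).comp
    ((ContinuousLinearMap.snd ℝ ℝ ℝ).prod (ContinuousLinearMap.fst ℝ ℝ ℝ)) := h
  have e : D2 (fun x => f (sw x)) x = fderiv ℝ (fun x => f (sw x)) x (0, 1) := rfl
  rw [e, h']
  simp [D1]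

lemma derivs_sw (hf : ContDiff ℝ 3 f) :
    (∀ x, D1 (fun x => f (sw x)) x = D2 f (sw x)) ∧
    (∀ x, D2 (fun x => f (sw x)) x = D1 f (sw x)) ∧
    (∀ x, D1 (D1 (fun x => f (sw x))) x = D2 (D2 f) (sw x)) ∧
    (∀ x, D1 (D2 (fun x => f (sw x))) x = D1 (D2 f) (sw x)) ∧
    (∀ x, D2 (D2 (fun x => f (sw x))) x = D1 (D1 f) (sw x)) ∧
    (∀ x, D1 (D1 (D1 (fun x => f (sw x)))) x = D2 (D2 (D2 f)) (sw x)) ∧
    (∀ x, D1 (D1 (D2 (fun x => f (sw x)))) x = D1 (D2 (D2 f)) (sw x)) ∧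
    (∀ x, D1 (D2 (D2 (fun x => f (sw x)))) x = D1 (D1 (D2 f)) (sw x)) ∧
    (∀ x, D2 (D2 (D2 (fun x => f (sw x)))) x = D1 (D1 (D1 f)) (sw x)) := by
  have h0 : Differentiable ℝ f := hf.differentiable (by norm_num)
  have hf2 : ContDiff ℝ 2 f := hf.of_le (by norm_num)
  have f1 : ContDiff ℝ 2 (D1 f) := cd_D1 (n := 2) hf
  have f2 : ContDiff ℝ 2 (D2 f) := cd_D2 (n := 2) hf
  have f11 : ContDiff ℝ 1 (D1 (D1 f)) := cd_D1 (n := 1) f1
  have f12 : ContDiff ℝ 1 (D1 (D2 f)) := cd_D1 (n := 1) f2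
  have f22 : ContDiff ℝ 1 (D2 (D2 f)) := cd_D2 (n := 1) f2
  have g1 : Differentiable ℝ (D1 f) := f1.differentiable (by norm_num)
  have g2 : Differentiable ℝ (D2 f) := f2.differentiable (by norm_num)
  have g11 : Differentiable ℝ (D1 (D1 f)) := f11.differentiable (by norm_num)
  have g12 : Differentiable ℝ (D1 (D2 f)) := f12.differentiable (by norm_num)
  have g22 : Differentiable ℝ (D2 (D2 f)) := f22.differentiable (by norm_num)
  have e1 := D1_sw h0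
  have e2 := D2_sw h0
  have c21 : D2 (D1 f) = D1 (D2 f) := D12_comm_fun hf2
  have c212 : D2 (D1 (D2 f)) = D1 (D2 (D2 f)) := D12_comm_fun f2
  have c211 : D2 (D1 (D1 f)) = D1 (D1 (D2 f)) := by rw [D12_comm_fun f1, c21]
  have e11 : D1 (D1 (fun x => f (sw x))) = fun x => D2 (D2 f) (sw x) := by
    rw [e1, D1_sw g2]
  have e12 : D1 (D2 (fun x => f (sw x))) = fun x => D1 (D2 f) (sw x) := by
    rw [e2, D1_sw g1, c21]
  have e22 : D2 (D2 (fun x => f (sw x))) = fun x => D1 (D1 f) (sw x) := by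
    rw [e2, D2_sw g1]
  refine ⟨fun x => by rw [e1], fun x => by rw [e2], fun x => by rw [e11], fun x => by rw [e12],
    fun x => by rw [e22], fun x => by rw [e11, D1_sw g22], fun x => by rw [e12, D1_sw g12, c212],
    fun x => by rw [e22, D1_sw g11, c211], fun x => by rw [e22, D2_sw g11]⟩

lemma BdAt_sw (hf : ContDiff ℝ 3 f) {x : ℝ × ℝ} {K : ℝ} (h : BdAt f (sw x) K) :
    BdAt (fun x => f (sw x)) x K := by
  obtain ⟨e1, e2, e11, e12, e22, e111, e112, e122, e222⟩ := derivs_sw hf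
  refine ⟨h.b0, ?_, ?_, ?_, ?_, ?_, ?_, ?_, ?_, ?_⟩
  · rw [e1]; exact h.b2
  · rw [e2]; exact h.b1
  · rw [e11]; exact h.b22
  · rw [e12]; exact h.b12
  · rw [e22]; exact h.b11
  · rw [e111]; exact h.b222
  · rw [e112]; exact h.b122
  · rw [e122]; exact h.b112
  · rw [e222]; exact h.b111

lemma dist_sw (x y : ℝ × ℝ) : dist (sw x) (sw y) = dist x y := by
  rw [Prod.dist_eq, Prod.dist_eq, max_comm]; rfl

end

section

variable {w φ u : ℝ × ℝ → ℝ} {Ω : Set (ℝ × ℝ)} {c₀ K N : ℝ}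

lemma frontier_sw : frontier (sw ⁻¹' Ω) = sw ⁻¹' frontier Ω :=
  ((Homeomorph.prodComm ℝ ℝ).preimage_frontier Ω).symm

lemma closure_sw : closure (sw ⁻¹' Ω) = sw ⁻¹' closure Ω :=
  ((Homeomorph.prodComm ℝ ℝ).preimage_closure Ω).symm

lemma Dom.swap (hD : Dom w Ω c₀) : Dom (fun x => w (sw x)) (sw ⁻¹' Ω) c₀ where
  smooth := hD.smooth.comp contDiff_sw
  cpos := hD.cpos
  w11 := fun x => by
    obtain ⟨e1, e2, e11, e12, e22, -, -, -, -⟩ := derivs_sw hD.smooth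
    rw [e11]; exact hD.w22 _
  w22 := fun x => by
    obtain ⟨e1, e2, e11, e12, e22, -, -, -, -⟩ := derivs_sw hD.smooth
    rw [e22]; exact hD.w11 _
  isOpen := hD.isOpen.preimage (contDiff_sw (n := 0)).continuous
  bdd := by
    obtain ⟨R, hR⟩ := hD.bdd.subset_closedBall (0 : ℝ × ℝ)
    apply (isBounded_closedBall (x := (0 : ℝ × ℝ)) (r := R)).subset
    intro x hx
    have h1 := hR hx
    rw [mem_closedBall] at h1 ⊢
    have : dist x 0 = dist (sw x) (sw 0) := (dist_sw x 0).symm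
    rw [this]; exact h1
  neg := fun x hx => hD.neg _ hx
  zero := fun x hx => by rw [frontier_sw] at hx; exact hD.zero _ hx
  grad := fun x hx => by
    rw [frontier_sw] at hx
    obtain ⟨e1, e2, -⟩ := derivs_sw hD.smooth
    rw [e1, e2]
    exact (hD.grad _ hx).symm
  seg := fun x hx y hy => by
    apply hD.seg (sw x) hx
    intro z hz
    obtain ⟨a, b, ha, hb, hab, rfl⟩ := hz
    exact hy (a • x + b • y) ⟨a, b, ha, hb, hab, rfl⟩
  loc := fun P hP => by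
    rw [frontier_sw] at hP
    obtain ⟨δ, hδ, h⟩ := hD.loc _ hP
    refine ⟨δ, hδ, fun x hx hwx => h (sw x) ?_ hwx⟩
    rw [dist_sw]; exact hx

lemma Sol.swap (hS : Sol φ u Ω) : Sol (fun x => φ (sw x)) (fun x => u (sw x)) (sw ⁻¹' Ω) where
  su := hS.su.comp contDiff_sw
  sφ := hS.sφ.comp contDiff_sw
  p1 := fun x hx => by
    obtain ⟨e1, e2, e11, e12, e22, -, -, -, -⟩ := derivs_sw hS.su
    rw [e11]; exact hS.p2 _ hx
  p2 := fun x hx => by
    obtain ⟨e1, e2, e11, e12, e22, -, -, -, -⟩ := derivs_sw hS.su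
    rw [e22]; exact hS.p1 _ hx
  eq := fun x hx => by
    obtain ⟨e1, e2, e11, e12, e22, -, -, -, -⟩ := derivs_sw hS.su
    rw [e11, e22, mul_comm]; exact hS.eq _ hx
  bc := fun x hx => by rw [frontier_sw] at hx; exact hS.bc _ hx

theorem bound11 (hD : Dom w Ω c₀) (K : ℝ) {ω : ℝ → ℝ} (hω : Modulus ω) :
    ∃ C : ℝ, ∀ φ u : ℝ × ℝ → ℝ, Sol φ u Ω → (∀ x, BdAt φ x K) →
      (∀ x y, |D2 (D2 (D2 φ)) x - D2 (D2 (D2 φ)) y| ≤ ω (dist x y)) →
      ∀ x ∈ closure Ω, D1 (D1 u) x ≤ C := by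
  obtain ⟨C, hC⟩ := bound22 hD.swap K hω
  refine ⟨C, fun φ u hS hφ hφm x hx => ?_⟩
  have h := hC _ _ hS.swap (fun x => BdAt_sw hS.sφ (hφ _))
    (fun x y => by
      obtain ⟨-, -, -, -, -, e111, -, -, -⟩ := derivs_sw hS.sφ
      rw [e111, e111, ← dist_sw]
      exact hφm _ _) (sw x) (by rw [closure_sw]; exact hx)
  obtain ⟨-, -, -, -, e22, -, -, -, -⟩ := derivs_sw hS.su
  rw [e22] at h
  exact h

/-- boundary bound implies global bound for the mixed derivative -/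
lemma Sol.max12 (hD : Dom w Ω c₀) (hS : Sol φ u Ω) {m τ : ℝ} (hτ : τ * τ = 1)
    (hm : ∀ x ∈ frontier Ω, D1 (D1 u) x + D2 (D2 u) x + 2 * τ * D1 (D2 u) x ≤ m) :
    ∀ x ∈ closure Ω, D1 (D1 u) x + D2 (D2 u) x + 2 * τ * D1 (D2 u) x ≤ m := by
  intro x hx
  have hτ2 : τ ^ 2 = 1 := by rw [sq]; exact hτ
  have := hS.max_second hD (1, τ) (m := m) (fun y hy => by
    have := hm y hy
    simp only [hτ2]; linarith) x hx
  simp only [hτ2] at this
  linarith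

end

end AP
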