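import Pool.Agent.Lib_helper42.AP.Calc

/-! One-dimensional Taylor inequalities. -/

namespace AP

open Set Filter Topology Metric

lemma taylor2_le_pos {f f1 f2 : ℝ → ℝ} {t M : ℝ} (ht : 0 ≤ t)
    (hf : ∀ s ∈ Icc 0 t, HasDerivAt f (f1 s) s) (hf1 : ∀ s ∈ Icc 0 t, HasDerivAt f1 (f2 s) s)
    (hM : ∀ s ∈ Icc 0 t, f2 s ≤ M) : f t ≤ f 0 + f1 0 * t + M / 2 * t ^ 2 := by
  have h1 : ∀ s ∈ Icc 0 t, f1 s ≤ f1 0 + M * s := by
    intro s hs
    have := int_bound (g := fun r => f1 r - f1 0) (g' := f2) (C := M) (n := 0) hs.1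
      (fun r hr => (hf1 r ⟨hr.1, hr.2.trans hs.2⟩).sub_const (f1 0)) (by simp)
      (fun r hr => by simpa using hM r ⟨hr.1, hr.2.trans hs.2⟩)
    simp at this
    linarith
  have := int_bound (g := fun r => f r - f 0 - f1 0 * r) (g' := fun r => f1 r - f1 0)
    (C := M) (n := 1) ht
    (fun r hr => by
      have h3 := ((hf r hr).sub_const (f 0)).fun_sub ((hasDerivAt_id r).const_mul (f1 0))
      simpa using h3) (by simp)
    (fun r hr => by have := h1 r hr; simp; linarith)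
  norm_num at this
  linarith

lemma taylor3_le_pos {f f1 f2 f3 : ℝ → ℝ} {t M : ℝ} (ht : 0 ≤ t)
    (hf : ∀ s ∈ Icc 0 t, HasDerivAt f (f1 s) s) (hf1 : ∀ s ∈ Icc 0 t, HasDerivAt f1 (f2 s) s)
    (hf2 : ∀ s ∈ Icc 0 t, HasDerivAt f2 (f3 s) s)
    (hM : ∀ s ∈ Icc 0 t, f3 s ≤ M) :
    f t ≤ f 0 + f1 0 * t + f2 0 / 2 * t ^ 2 + M / 6 * t ^ 3 := by
  have h1 : ∀ s ∈ Icc 0 t, f1 s ≤ f1 0 + f2 0 * s + M / 2 * s ^ 2 := by
    intro s hs
    exact taylor2_le_pos hs.1 (fun r hr => hf1 r ⟨hr.1, hr.2.trans hs.2⟩)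
      (fun r hr => hf2 r ⟨hr.1, hr.2.trans hs.2⟩) (fun r hr => hM r ⟨hr.1, hr.2.trans hs.2⟩)
  have := int_bound (g := fun r => f r - f 0 - f1 0 * r - f2 0 / 2 * r ^ 2)
    (g' := fun r => f1 r - f1 0 - f2 0 * r)
    (C := M / 2) (n := 2) ht
    (fun r hr => by
      have h3 := (((hf r hr).sub_const (f 0)).fun_sub ((hasDerivAt_id r).const_mul (f1 0))).fun_sub
        ((hasDerivAt_pow 2 r).const_mul (f2 0 / 2))
      have e : f1 r - f1 0 * 1 - f2 0 / 2 * (((2 : ℕ) : ℝ) * r ^ (2 - 1))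
          = f1 r - f1 0 - f2 0 * r := by
        norm_num; ring
      rw [e] at h3
      exact h3) (by simp)
    (fun r hr => by have := h1 r hr; linarith)
  norm_num at this
  linarith

lemma hasDerivAt_reflect {f : ℝ → ℝ} {d s : ℝ} (h : HasDerivAt f d (-s)) :
    HasDerivAt (fun r => f (-r)) (-d) s := by
  have := HasDerivAt.comp s h (hasDerivAt_neg s)
  rw [mul_neg_one] at this
  exact this

lemma taylor2_le {f f1 f2 : ℝ → ℝ} {t M : ℝ}
    (hf : ∀ s, |s| ≤ |t| → HasDerivAt f (f1 s) s)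
    (hf1 : ∀ s, |s| ≤ |t| → HasDerivAt f1 (f2 s) s)
    (hM : ∀ s, |s| ≤ |t| → f2 s ≤ M) : f t ≤ f 0 + f1 0 * t + M / 2 * t ^ 2 := by
  rcases le_total 0 t with ht | ht
  · have key : ∀ s ∈ Icc 0 t, |s| ≤ |t| := by
      intro s hs; rw [abs_of_nonneg hs.1, abs_of_nonneg ht]; exact hs.2
    exact taylor2_le_pos ht (fun s hs => hf s (key s hs)) (fun s hs => hf1 s (key s hs))
      (fun s hs => hM s (key s hs))
  · have key : ∀ s ∈ Icc 0 (-t), |(-s)| ≤ |t| := by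
      intro s hs; rw [abs_neg, abs_of_nonneg hs.1, abs_of_nonpos ht]; exact hs.2
    have h := taylor2_le_pos (f := fun r => f (-r)) (f1 := fun r => -f1 (-r))
      (f2 := fun r => f2 (-r)) (t := -t) (M := M) (by linarith)
      (fun s hs => hasDerivAt_reflect (hf (-s) (key s hs)))
      (fun s hs => by
        have := (hasDerivAt_reflect (hf1 (-s) (key s hs))).neg
        simp only [neg_neg] at this
        exact this)
      (fun s hs => hM (-s) (key s hs))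
    simp at h
    linarith

lemma taylor2_ge {f f1 f2 : ℝ → ℝ} {t m : ℝ}
    (hf : ∀ s, |s| ≤ |t| → HasDerivAt f (f1 s) s)
    (hf1 : ∀ s, |s| ≤ |t| → HasDerivAt f1 (f2 s) s)
    (hM : ∀ s, |s| ≤ |t| → m ≤ f2 s) : f 0 + f1 0 * t + m / 2 * t ^ 2 ≤ f t := by
  have := taylor2_le (f := fun s => -f s) (f1 := fun s => -f1 s) (f2 := fun s => -f2 s)
    (t := t) (M := -m) (fun s hs => (hf s hs).fun_neg) (fun s hs => (hf1 s hs).fun_neg)
    (fun s hs => by have := hM s hs; linarith)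
  linarith

lemma taylor2_abs {f f1 f2 : ℝ → ℝ} {t M : ℝ}
    (hf : ∀ s, |s| ≤ |t| → HasDerivAt f (f1 s) s)
    (hf1 : ∀ s, |s| ≤ |t| → HasDerivAt f1 (f2 s) s)
    (hM : ∀ s, |s| ≤ |t| → |f2 s| ≤ M) : |f t - (f 0 + f1 0 * t)| ≤ M / 2 * t ^ 2 := by
  have h1 := taylor2_le hf hf1 (fun s hs => (abs_le.1 (hM s hs)).2)
  have h2 := taylor2_ge hf hf1 (fun s hs => (abs_le.1 (hM s hs)).1)
  rw [abs_le]
  constructor <;> linarith

lemma taylor3_abs_pos {f f1 f2 f3 : ℝ → ℝ} {t M c : ℝ} (ht : 0 ≤ t)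
    (hf : ∀ s ∈ Icc 0 t, HasDerivAt f (f1 s) s) (hf1 : ∀ s ∈ Icc 0 t, HasDerivAt f1 (f2 s) s)
    (hf2 : ∀ s ∈ Icc 0 t, HasDerivAt f2 (f3 s) s)
    (hM : ∀ s ∈ Icc 0 t, |f3 s - c| ≤ M) :
    |f t - (f 0 + f1 0 * t + f2 0 / 2 * t ^ 2 + c / 6 * t ^ 3)| ≤ M / 6 * t ^ 3 := by
  have h1 := taylor3_le_pos ht hf hf1 hf2 (M := c + M)
    (fun s hs => by have := (abs_le.1 (hM s hs)).2; linarith)
  have h2 := taylor3_le_pos (f := fun s => -f s) (f1 := fun s => -f1 s) (f2 := fun s => -f2 s)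
    (f3 := fun s => -f3 s) (M := -c + M) ht
    (fun s hs => (hf s hs).fun_neg) (fun s hs => (hf1 s hs).fun_neg)
    (fun s hs => (hf2 s hs).fun_neg)
    (fun s hs => by have := (abs_le.1 (hM s hs)).1; linarith)
  rw [abs_le]
  constructor <;> linarith

lemma taylor3_abs {f f1 f2 f3 : ℝ → ℝ} {t M c : ℝ}
    (hf : ∀ s, |s| ≤ |t| → HasDerivAt f (f1 s) s)
    (hf1 : ∀ s, |s| ≤ |t| → HasDerivAt f1 (f2 s) s)
    (hf2 : ∀ s, |s| ≤ |t| → HasDerivAt f2 (f3 s) s)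
    (hM : ∀ s, |s| ≤ |t| → |f3 s - c| ≤ M) :
    |f t - (f 0 + f1 0 * t + f2 0 / 2 * t ^ 2 + c / 6 * t ^ 3)| ≤ M / 6 * |t| ^ 3 := by
  rcases le_total 0 t with ht | ht
  · have key : ∀ s ∈ Icc 0 t, |s| ≤ |t| := by
      intro s hs; rw [abs_of_nonneg hs.1, abs_of_nonneg ht]; exact hs.2
    rw [abs_of_nonneg (a := t) ht]
    exact taylor3_abs_pos ht (fun s hs => hf s (key s hs)) (fun s hs => hf1 s (key s hs))
      (fun s hs => hf2 s (key s hs)) (fun s hs => hM s (key s hs))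
  · have key : ∀ s ∈ Icc 0 (-t), |(-s)| ≤ |t| := by
      intro s hs; rw [abs_neg, abs_of_nonneg hs.1, abs_of_nonpos ht]; exact hs.2
    have h := taylor3_abs_pos (f := fun r => f (-r)) (f1 := fun r => -f1 (-r))
      (f2 := fun r => f2 (-r)) (f3 := fun r => -f3 (-r)) (t := -t) (M := M) (c := -c)
      (by linarith)
      (fun s hs => hasDerivAt_reflect (hf (-s) (key s hs)))
      (fun s hs => by
        have := (hasDerivAt_reflect (hf1 (-s) (key s hs))).neg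
        simp only [neg_neg] at this
        exact this)
      (fun s hs => hasDerivAt_reflect (hf2 (-s) (key s hs)))
      (fun s hs => by
        have := hM (-s) (key s hs)
        rw [show -f3 (-s) - -c = -(f3 (-s) - c) by ring, abs_neg]; exact this)
    simp only [neg_neg, neg_zero] at h
    rw [abs_of_nonpos (a := t) ht]
    convert h using 2
    ring

/-- a convex function on an interval with vanishing right slope stays above its start value -/
lemma convex_slope_zero {f f1 f2 : ℝ → ℝ} {t : ℝ} (ht : 0 ≤ t)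
    (hf : ∀ s ∈ Icc 0 t, HasDerivAt f (f1 s) s) (hf1 : ∀ s ∈ Icc 0 t, HasDerivAt f1 (f2 s) s)
    (hM : ∀ s ∈ Icc 0 t, 0 ≤ f2 s) (h1 : f1 0 = 0) : f 0 ≤ f t := by
  have := taylor2_le_pos (f := fun s => -f s) (f1 := fun s => -f1 s) (f2 := fun s => -f2 s)
    (M := 0) ht
    (fun s hs => (hf s hs).fun_neg) (fun s hs => (hf1 s hs).fun_neg)
    (fun s hs => by have := hM s hs; linarith)
  rw [h1] at this
  linarith

end AP
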