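import Pool.Agent.Lib_helper42.AP.Barrier3

/-! Step 4: the third tangential derivative. -/

namespace AP

open Set Filter Topology Metric

section

variable {w z : ℝ × ℝ → ℝ}

lemma D2_Br_fun (hw : ContDiff ℝ 2 w) (hz : ContDiff ℝ 2 z) :
    D2 (Br w z) = fun x => D2 (D2 w) x * D1 z x + D2 w x * D1 (D2 z) x
      - D1 (D2 w) x * D2 z x - D1 w x * D2 (D2 z) x := by
  ext x; exact D2_Br hw hz x

lemma D12_Br (hw : ContDiff ℝ 3 w) (hz : ContDiff ℝ 3 z) (x : ℝ × ℝ) :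
    D1 (D2 (Br w z)) x = D1 (D2 (D2 w)) x * D1 z x + D2 (D2 w) x * D1 (D1 z) x
      + D2 w x * D1 (D1 (D2 z)) x
      - D1 (D1 (D2 w)) x * D2 z x - D1 (D1 w) x * D2 (D2 z) x - D1 w x * D1 (D2 (D2 z)) x := by
  have hw2 : ContDiff ℝ 2 w := hw.of_le (by norm_num)
  have hz2 : ContDiff ℝ 2 z := hz.of_le (by norm_num)
  have a1 : ContDiff ℝ 2 (D1 w) := cd_D1 (n := 2) hw
  have a2 : ContDiff ℝ 2 (D2 w) := cd_D2 (n := 2) hw
  have b1 : ContDiff ℝ 2 (D1 z) := cd_D1 (n := 2) hz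
  have b2 : ContDiff ℝ 2 (D2 z) := cd_D2 (n := 2) hz
  have a22 : DifferentiableAt ℝ (D2 (D2 w)) x := diffD2 a2.contDiffAt
  have a12 : DifferentiableAt ℝ (D1 (D2 w)) x := diffD1 a2.contDiffAt
  have b22 : DifferentiableAt ℝ (D2 (D2 z)) x := diffD2 b2.contDiffAt
  have b12 : DifferentiableAt ℝ (D1 (D2 z)) x := diffD1 b2.contDiffAt
  have a1' : DifferentiableAt ℝ (D1 w) x := diff0 a1.contDiffAt
  have a2' : DifferentiableAt ℝ (D2 w) x := diff0 a2.contDiffAt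
  have b1' : DifferentiableAt ℝ (D1 z) x := diff0 b1.contDiffAt
  have b2' : DifferentiableAt ℝ (D2 z) x := diff0 b2.contDiffAt
  rw [D2_Br_fun hw2 hz2, D1_sub (((a22.fun_mul b1').fun_add (a2'.fun_mul b12)).fun_sub
    (a12.fun_mul b2')) (a1'.fun_mul b22), D1_sub ((a22.fun_mul b1').fun_add (a2'.fun_mul b12))
    (a12.fun_mul b2'), D1_add (a22.fun_mul b1') (a2'.fun_mul b12), D1_mul a22 b1',
    D1_mul a2' b12, D1_mul a12 b2', D1_mul a1' b22]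
  ring

/-- second tangential derivative on the boundary -/
lemma T2_zero {Ω : Set (ℝ × ℝ)} {c₀ : ℝ} (hD : Dom w Ω c₀) (hz : ContDiff ℝ 3 z)
    (h0 : ∀ x ∈ frontier Ω, z x = 0) : ∀ x ∈ frontier Ω,
    D2 w x * (D1 (D2 w) x * D1 z x + D2 w x * D1 (D1 z) x
      - D1 (D1 w) x * D2 z x - D1 w x * D1 (D2 z) x)
    - D1 w x * (D2 (D2 w) x * D1 z x + D2 w x * D1 (D2 z) x
      - D1 (D2 w) x * D2 z x - D1 w x * D2 (D2 z) x) = 0 := by
  intro x hx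
  have hz2 : ContDiff ℝ 2 z := hz.of_le (by norm_num)
  have h1 : ContDiff ℝ 2 (Br w z) := Br_contDiff (n := 2) hD.smooth hz
  have h2 := Br_zero hD (hz.of_le (by norm_num)) h0
  have h3 := Br_zero hD (h1.of_le (by norm_num)) h2 x hx
  rw [← D1_Br hD.w_cd2 hz2, ← D2_Br hD.w_cd2 hz2]
  exact h3

/-- third tangential derivative on the boundary -/
lemma T3_zero {Ω : Set (ℝ × ℝ)} {c₀ : ℝ} (hD : Dom w Ω c₀) (hz : ContDiff ℝ 3 z)
    (h0 : ∀ x ∈ frontier Ω, z x = 0) : ∀ x ∈ frontier Ω,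
    D2 w x * (D1 (D2 w) x * D1 (Br w z) x + D2 w x * D1 (D1 (Br w z)) x
      - D1 (D1 w) x * D2 (Br w z) x - D1 w x * D1 (D2 (Br w z)) x)
    - D1 w x * (D2 (D2 w) x * D1 (Br w z) x + D2 w x * D1 (D2 (Br w z)) x
      - D1 (D2 w) x * D2 (Br w z) x - D1 w x * D2 (D2 (Br w z)) x) = 0 := by
  intro x hx
  have h1 : ContDiff ℝ 2 (Br w z) := Br_contDiff (n := 2) hD.smooth hz
  have h2 := Br_zero hD (hz.of_le (by norm_num)) h0
  have hw2 : ContDiff ℝ (1 + 1 : ℕ) w := by simpa using hD.w_cd2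
  have h4 : ContDiff ℝ 1 (Br w (Br w z)) := Br_contDiff (n := 1) hw2 (by simpa using h1)
  have h3 := Br_zero hD (h1.of_le (by norm_num)) h2
  have h5 := Br_zero hD h4 h3 x hx
  rw [← D1_Br hD.w_cd2 h1, ← D2_Br hD.w_cd2 h1]
  exact h5

end

/-- the algebraic identity (*) -/
lemma star_identity {w1 w2 w11 w12 w22 w111 w112 w122 w222 z1 z2 a b c f11 f12 f22 f111 f112 f122
    f222 θ Z1 Z2 Z11 Z12 Z22 : ℝ}
    (hZ1 : Z1 = w12 * z1 + w2 * (a - f11) - w11 * z2 - w1 * (c - f12))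
    (hZ2 : Z2 = w22 * z1 + w2 * (c - f12) - w12 * z2 - w1 * (b - f22))
    (hZ11 : Z11 = w112 * z1 + 2 * (w12 * (a - f11)) + w2 * (-(a ^ 2 * (θ * w1)) - f111)
      - (w111 * z2 + 2 * (w11 * (c - f12)) + w1 * (-(a ^ 2 * (θ * w2)) - f112)))
    (hZ22 : Z22 = w222 * z1 + 2 * (w22 * (c - f12)) + w2 * (θ * w1 - f122)
      - (w122 * z2 + 2 * (w12 * (b - f22)) + w1 * (θ * w2 - f222)))
    (hZ12 : Z12 = w122 * z1 + w22 * (a - f11) + w2 * (-(a ^ 2 * (θ * w2)) - f112)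
      - w112 * z2 - w11 * (b - f22) - w1 * (θ * w1 - f122))
    (hT3 : w2 * (w12 * Z1 + w2 * Z11 - w11 * Z2 - w1 * Z12)
      - w1 * (w22 * Z1 + w2 * Z12 - w12 * Z2 - w1 * Z22) = 0) :
    2 * θ * w1 ^ 2 * w2 ^ 2 * (a ^ 2 * w2 ^ 2 + w1 ^ 2)
      + 3 / 2 * ((w2 ^ 2 * w11 - 2 * w1 * w2 * w12 + w1 ^ 2 * w22) * (w1 ^ 2 * b - w2 ^ 2 * a)
        + (w2 ^ 2 * w11 - w1 ^ 2 * w22) * (w2 ^ 2 * a - 2 * w1 * w2 * c + w1 ^ 2 * b))
    = w1 * w2 * ((w2 ^ 3 * f111 - 3 * w2 ^ 2 * w1 * f112 + 3 * w2 * w1 ^ 2 * f122 - w1 ^ 3 * f222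
        + 3 * ((w2 * w12 - w1 * w22) * w2 * f11
          - ((w2 * w12 - w1 * w22) * w1 + (w2 * w11 - w1 * w12) * w2) * f12
          + (w2 * w11 - w1 * w12) * w1 * f22))
      - (w2 * (w12 * w12 + w2 * w112 - w11 * w22 - w1 * w122)
          - w1 * (w22 * w12 + w2 * w122 - w12 * w22 - w1 * w222)) * z1
      + (w2 * (w12 * w11 + w2 * w111 - w11 * w12 - w1 * w112)
          - w1 * (w22 * w11 + w2 * w112 - w12 * w12 - w1 * w122)) * z2) := by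
  subst hZ1 hZ2 hZ11 hZ22 hZ12
  linear_combination (w1 * w2) * hT3

end AP
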